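import Pool.Agent.H80.T3.Defs

/-!
# MP_2b43a6_pr, project T3: statements of the rows
-/

set_option autoImplicit false

namespace Pool.Agent.H80.T3

open MeasureTheory ProbabilityTheory

/-! ### block L: the value -/

/-- L1: bounds -/
def SB01 : Prop := ∀ x : ℝ, 0 ≤ x → x ≤ 1 → ∀ (Z : Finset T) (A : Multiset T),
  0 ≤ V x Z A ∧ V x Z A ≤ 1

/-- L2: more awake and more sleeping frogs make the value smaller; the frogs of `W` are asleep in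
the first and awake in the second configuration -/
def SMono : Prop := ∀ x : ℝ, 0 ≤ x → x ≤ 1 → ∀ (Z Z' W : Finset T) (A A' : Multiset T),
  W ⊆ Z → A + W.val ≤ A' → Z \ W ⊆ Z' → V x Z' A' ≤ V x Z A

/-- L3: the move of a frog -/
def SStep : Prop := ∀ x : ℝ, 0 ≤ x → x ≤ 1 → ∀ (Z : Finset T) (A : Multiset T) (y : T),
  V x Z (y ::ₘ A) ≤ stp x (V x) Z A y

/-- L4: automorphisms of the tree -/
def SAut : Prop := ∀ x : ℝ, 0 ≤ x → x ≤ 1 → ∀ σ : T ≃ T, σ [] = [] →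
  (∀ y, σ y.tail = (σ y).tail) → ∀ (Z : Finset T) (A : Multiset T),
    V x (Z.map σ.toEmbedding) (A.map σ) = V x Z A

/-- the frozen statement S19231 -/
def Frozen : Prop :=
    ∀ (Ω : Type) [MeasurableSpace Ω] (P : Measure Ω) [IsProbabilityMeasure P]
      (ξ : List (Fin 3) → ℕ → Ω → Fin 3 × Fin 4),
      (∀ v k, Measurable (ξ v k)) →
      iIndepFun (fun p : List (Fin 3) × ℕ => ξ p.1 p.2) P →
      (∀ v k (c : Fin 3 × Fin 4), P (ξ v k ⁻¹' {c}) = 1 / 12) →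
      ∀ (S : List (Fin 3) → ℕ → Ω → List (Fin 3)),
      (∀ v ω, S v 0 ω = v) →
      (∀ v k ω, S v (k + 1) ω =
        if S v k ω = [] then [(ξ v k ω).1]
        else if (ξ v k ω).2 = 0 then (S v k ω).tail
        else (ξ v k ω).1 :: S v k ω) →
      ∀ᵐ ω ∂P, Set.Infinite
        {p : List (Fin 3) × ℕ |
          (∀ A : Set (List (Fin 3)), [] ∈ A →
              (∀ v ∈ A, ∀ k, S v k ω ∈ A) → p.1 ∈ A) ∧
          S p.1 p.2 ω = []}

/-- L5: the link -/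
def SLink : Prop := (∀ ε : ℝ, 0 < ε → ∃ (j : ℕ) (Z : Finset T), [] ∉ Z ∧
  Vj (1 / 2) j Z {[]} ≤ ε) → Frozen

/-! ### block R: runs -/

/-- R1: averages over absorbed runs -/
def SAb : Prop := ∀ (h : ℕ) (y : T),
  (∀ f g : Finset T → ℝ, (∀ S, (∀ z ∈ S, y <:+ z) → (1 ≤ h → y ∈ S) → f S ≤ g S) →
    ab h y f ≤ ab h y g) ∧
  (∀ f g : Finset T → ℝ, ab h y (fun S => f S + g S) = ab h y f + ab h y g) ∧
  (∀ (c : ℝ) (f : Finset T → ℝ), ab h y (fun S => c * f S) = c * ab h y f) ∧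
  ∀ c : ℝ, ab h y (fun _ => c) = c

/-- R1c: averages over absorbed runs commute; the weights have sum one -/
def SAbC : Prop := (∀ (h h' : ℕ) (y y' : T) (G : Finset T → Finset T → ℝ),
  ab h y (fun S => ab h' y' (fun S' => G S S')) = ab h' y' (fun S' => ab h y (fun S => G S S'))) ∧
  ∑ B : Finset (Fin 3), pB B = 1

/-- R1d: averages over all pending vertices: monotone, linear, and child `i` can be taken first
(innermost) -/
def SOps : Prop := ∀ (h : ℕ) (v : T) (s : Fin 3 → St),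
  (∀ f g : Finset T → ℝ, (∀ S, (∀ z ∈ S, ∃ i : Fin 3, (i :: v) <:+ z) → f S ≤ g S) →
    ops h v s f ≤ ops h v s g) ∧
  (∀ f g : Finset T → ℝ, ops h v s (fun S => f S + g S) = ops h v s f + ops h v s g) ∧
  (∀ (c : ℝ) (f : Finset T → ℝ), ops h v s (fun S => c * f S) = c * ops h v s f) ∧
  (∀ c : ℝ, ops h v s (fun _ => c) = c) ∧
  (∀ (i : Fin 3) (G : Finset T → ℝ), ops h v s G =
    ops h v (Function.update s i St.D) (fun S' => (s i).op h (i :: v) (fun S => G (S ∪ S')))) ∧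
  (∀ (i : Fin 3) (f g : Finset T → ℝ), (∀ S, (∀ z ∈ S, ∃ j : Fin 3, j ≠ i ∧ (j :: v) <:+ z) →
    f S ≤ g S) → ops h v (Function.update s i St.D) f ≤ ops h v (Function.update s i St.D) g) ∧
  (∀ i : Fin 3, bas h v s = (s i).bs h (i :: v) ∪ bas h v (Function.update s i St.D)) ∧
  ∀ (h' : ℕ) (y : T) (G : Finset T → Finset T → ℝ),
    ops h v s (fun S => ab h' y (fun S' => G S S')) = ab h' y (fun S' => ops h v s (fun S => G S S'))

/-- R2: a frog in a region without sleeping frogs -/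
def SRun0 : Prop := ∀ x : ℝ, 0 ≤ x → x ≤ 1 → ∀ (Z : Finset T) (A : Multiset T) (y : T), y ≠ [] →
  V x Z (y ::ₘ A) ≤ (2 / 3) * V x Z A + (1 / 3) * (wt x y.tail * V x Z (y.tail ::ₘ A))

/-- R3: the run of a frog -/
def SRun : Prop := ∀ x : ℝ, 0 ≤ x → x ≤ 1 → ∀ (h : ℕ) (Z : Finset T) (A : Multiset T) (y : T),
  y ≠ [] → y ∉ Z → V x Z (y ::ₘ A) ≤ (2 / 3) * ab h y (fun S => Vw x S Z A) +
    (1 / 3) * (wt x y.tail * V x Z (y.tail ::ₘ A))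

/-- R4: one move of a frog at `v`, then runs in the subtrees of the children -/
def SFlag : Prop := ∀ x : ℝ, 0 ≤ x → x ≤ 1 → ∀ (h : ℕ), 1 ≤ h → ∀ (Z : Finset T)
  (A : Multiset T) (v : T), v ≠ [] → v ∉ Z →
    V x Z (v ::ₘ A) ≤ (1 / 4) * (wt x v.tail * V x Z (v.tail ::ₘ A)) +
      ∑ i : Fin 3, ((1 / 6) * ab h (i :: v) (fun S => Vw x S Z A) +
        (1 / 12) * Vw x {i :: v} Z (v ::ₘ A))

/-- R5: the frog at the root -/
def SRoot : Prop := ∀ x : ℝ, 0 ≤ x → x ≤ 1 → ∀ (h : ℕ) (Z : Finset T) (A : Multiset T),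
  V x Z ([] ::ₘ A) ≤ (1 / 3) * ∑ i : Fin 3, ab h [i] (fun S => Vw x S Z A)

/-! ### block C: the chain -/

/-- C1: monotonicity of `Ex` -/
def SEx : Prop := ∀ x : ℝ, 0 ≤ x → x ≤ 1 → ∀ (h : ℕ) (v : T) (Z : Finset T) (A : Multiset T)
  (m m' t t' : ℕ), m ≤ m' → t ≤ t' → Ex x h v Z A m' t' ≤ Ex x h v Z A m t

/-- C2: nothing is pending -/
def SCFin : Prop := ∀ x : ℝ, 0 ≤ x → x ≤ 1 → ∀ (h : ℕ), 1 ≤ h → ∀ (v : T) (Z : Finset T)
  (A : Multiset T), v ≠ [] → Env v Z A → ∀ s : Fin 3 → St, (∀ i, (s i).quiet = true) →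
    Val x h v s Z A 0 ≤ Ex x (h + 1) v Z A 0 (nF s)

/-- C3: the rule for a frog at `v` -/
def SCFrog : Prop := ∀ x : ℝ, 0 ≤ x → x ≤ 1 → ∀ (h : ℕ), 1 ≤ h → ∀ (v : T) (Z : Finset T)
  (A : Multiset T), v ≠ [] → Env v Z A → ∀ (s : Fin 3 → St) (N : ℕ),
    (9 + (nF s : ℝ)) * Val x h v s Z A (N + 1) ≤
      3 * (wt x v.tail * Val x h v s Z (v.tail ::ₘ A) N) +
      2 * ∑ i : Fin 3, Val x h v (Function.update s i (s i).addA) Z A N +
      ∑ i : Fin 3, if s i = St.F then Val x h v (Function.update s i St.FL) Z A (N + 1) else 0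

/-- C4: the rule for a woken top -/
def SCFL : Prop := ∀ x : ℝ, 0 ≤ x → x ≤ 1 → ∀ (h : ℕ), 1 ≤ h → ∀ (v : T) (Z : Finset T)
  (A : Multiset T), v ≠ [] → Env v Z A → ∀ (s : Fin 3 → St) (N : ℕ) (i : Fin 3), s i = St.FL →
    Val x h v s Z A N ≤ (2 / 3) * Val x h v (Function.update s i St.V3A) Z A N +
      (1 / 3) * Val x h v (Function.update s i St.V3) Z A (N + 1)

/-- C5: the rules for pending absorbed runs -/
def SCProc : Prop := ∀ (M h : ℕ) (P : Laws), 1 ≤ h → Lev M h P → ∀ x : ℝ, 0 ≤ x → x ≤ 1 →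
  ∀ (v : T) (Z : Finset T) (A : Multiset T), v ≠ [] → Env v Z A → ∀ (s : Fin 3 → St) (i : Fin 3),
    (s i).quiet = false → s i ≠ St.FL → ∀ L : ℕ → ℕ → ℝ,
    L = (if s i = St.FA then P.F1 else if s i = St.FAA then P.F2 else P.Tl (s i).ty) →
    ∑ R ∈ Finset.range (M + 1), ∑ t ∈ Finset.range 4,
      L R t * (Val x h v (Function.update s i St.D) Z A 0 -
        Val x h v (Function.update s i (St.ofT t)) Z A R) ≤
      Val x h v (Function.update s i St.D) Z A 0 - Val x h v s Z A 0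

/-- C6: the values of the states are at most the value of the dead state -/
def SCD : Prop := ∀ x : ℝ, 0 ≤ x → x ≤ 1 → ∀ (h : ℕ) (v : T) (Z : Finset T)
  (A : Multiset T) (s : Fin 3 → St) (N : ℕ), Val x h v s Z A N ≤ Ex x (h + 1) v Z A 0 0 ∧
    ∀ i : Fin 3, Val x h v s Z A N ≤ Val x h v (Function.update s i St.D) Z A 0

/-- C7: the contexts, one absorbed run -/
def SCtx1 : Prop := ∀ x : ℝ, 0 ≤ x → x ≤ 1 → ∀ (h : ℕ), 1 ≤ h → ∀ (v : T) (Z : Finset T)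
  (A : Multiset T), v ≠ [] → Env v Z A →
    ((ab (h + 1) v fun S => Vw x S (Z ∪ Zn (h + 1) v) A) ≤
      ∑ B : Finset (Fin 3), pB B * ((1 / 3) * ∑ i : Fin 3,
        Val x h v (start 3 [(B, i)]) Z A 1)) ∧
    ∀ k, k ≤ 3 → (ab (h + 1) v fun S => Vw x S (Z ∪ Tt k (h + 1) v) A) ≤
      ∑ B : Finset (Fin 3), pB B * ((1 / 3) * ∑ i : Fin 3,
        Val x h v (start k [(B, i)]) Z A 0)

/-- C8: the context with two absorbed runs -/
def SCtx2 : Prop := ∀ x : ℝ, 0 ≤ x → x ≤ 1 → ∀ (h : ℕ), 1 ≤ h → ∀ (v : T) (Z : Finset T)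
  (A : Multiset T), v ≠ [] → Env v Z A →
    (ab (h + 1) v fun S => ab (h + 1) v fun S' => Vw x (S ∪ S') (Z ∪ Zn (h + 1) v) A) ≤
      ∑ B : Finset (Fin 3), pB B * ((1 / 3) * ∑ i : Fin 3,
        ∑ B' : Finset (Fin 3), pB B' * ((1 / 3) * ∑ i' : Fin 3,
          Val x h v (start 3 [(B, i), (B', i')]) Z A 1))

/-- C9: soundness of tables -/
def SSound : Prop := ∀ (M h : ℕ) (P : Laws) (X : (Fin 3 → St) → ℕ → ℕ → ℕ → ℝ), 1 ≤ M → 1 ≤ h →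
  Lev M h P → Tab M P X → ∀ x : ℝ, 0 ≤ x → x ≤ 1 → ∀ (v : T) (Z : Finset T) (A : Multiset T),
    v ≠ [] → Env v Z A → ∀ (s : Fin 3 → St) (N : ℕ), N ≤ M →
      Claim M x (h + 1) v Z A (Val x h v s Z A N) (X s N)

/-- C10: the next level -/
def SNext : Prop := ∀ (M h : ℕ) (P P' : Laws) (X : (Fin 3 → St) → ℕ → ℕ → ℕ → ℝ), 1 ≤ M →
  1 ≤ h → Lev M h P → Tab M P X → Nxt M X P' → Lev M (h + 1) P'

/-- the laws of height one -/
noncomputable def P1 : Laws where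
  F1 m t := if m = 1 ∧ t = 3 then 1 / 3 else if m = 0 ∧ t = 3 then 2 / 3 else 0
  F2 m t := if m = 1 ∧ t = 3 then 1 / 3 else if m = 0 ∧ t = 3 then 2 / 3 else 0
  Tl k m t := if m = 0 ∧ t = k then 1 else 0

/-- C11: height one -/
def SLev1 : Prop := ∀ M, 1 ≤ M → Lev M 1 P1

/-! ### block D: the certificate -/

/-- D: the table of the heights up to 70 -/
def SCert : Prop := ∃ P : Laws, Lev 16 70 P ∧ ∀ x : ℝ, 1 / 3 ≤ x → x ≤ 1 →
  (1 - ∑ m ∈ Finset.range 17, ∑ t ∈ Finset.range 4, P.F1 m t) +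
    ∑ m ∈ Finset.range 17, ∑ t ∈ Finset.range 4, P.F1 m t * x ^ m ≤ phi 10 x

/-! ### block P: the second phase -/

/-- P1: start of the second phase -/
def SP1 : Prop := ∀ (M h : ℕ) (P : Laws), Lev M h P → ∃ L, Lv1 h L ∧ ∀ x : ℝ,
  L (fun m => x ^ m) = (1 - ∑ m ∈ Finset.range (M + 1), ∑ t ∈ Finset.range 4, P.F1 m t) +
    ∑ m ∈ Finset.range (M + 1), ∑ t ∈ Finset.range 4, P.F1 m t * x ^ m

/-- P2: one more level -/
def SP2 : Prop := ∀ (h : ℕ) (L : (ℕ → ℝ) → ℝ), 1 ≤ h → Lv1 h L → ∃ L', Lv1 (h + 1) L' ∧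
  ∀ x : ℝ, 0 ≤ x → x ≤ 1 → L' (fun m => x ^ m) =
    Aop x (L fun m => (x / 3 + 2 / 9) ^ m) (L fun m => (x / 3 + 4 / 9) ^ m)
      (L fun m => (x / 3 + 2 / 3) ^ m)

/-- P3: monotonicity of the operator -/
def SP3 : Prop := ∀ x f0 f1 w g0 g1 u : ℝ, 0 ≤ x → x ≤ 1 → 0 ≤ f0 → f0 ≤ f1 → f1 ≤ w → w ≤ 1 →
  g0 ≤ g1 → g1 ≤ u → u ≤ 1 → f0 ≤ g0 → f1 ≤ g1 → w ≤ u → Aop x f0 f1 w ≤ Aop x g0 g1 u

/-- P4: the comparison functions -/
def SP4 : Prop := ∀ l x : ℝ, 10 ≤ l → 1 / 3 ≤ x → x ≤ 1 →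
  Aop x (phi l (x / 3 + 2 / 9)) (phi l (x / 3 + 4 / 9)) (phi l (x / 3 + 2 / 3)) ≤
    phi (l + 1 / 20) x

/-- P5: the root -/
def SP5 : Prop := ∀ (h : ℕ) (L : (ℕ → ℝ) → ℝ), 1 ≤ h → Lv1 h L → ∀ x : ℝ, 0 ≤ x → x ≤ 1 →
  V x (Zr h) {[]} ≤ L (fun m => x ^ m)

end Pool.Agent.H80.T3
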