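import Pool.Agent.H80.T3.Stm

/-!
# MP_2b43a6_pr, project T3: monotonicity of `Ex` (C1) and height one (C11)
-/

set_option autoImplicit false

namespace Pool.Agent.H80.T3

/-! ### C1 -/

theorem c1_wt (x : ℝ) (h0 : 0 ≤ x) (h1 : x ≤ 1) (y : T) : 0 ≤ wt x y ∧ wt x y ≤ 1 := by
  unfold wt
  split_ifs
  · exact ⟨h0, h1⟩
  · exact ⟨zero_le_one, le_refl 1⟩

theorem c1_Tt (t t' h : ℕ) (v : T) (ht : t ≤ t') : Tt t h v ⊆ Tt t' h v := by
  unfold Tt
  apply Finset.biUnion_subset_biUnion_of_subset_left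
  intro i hi
  rw [Finset.mem_filter] at hi ⊢
  exact ⟨hi.1, lt_of_lt_of_le hi.2 ht⟩

/-- C1: monotonicity of `Ex` -/
theorem sex (h1 : SB01) (h2 : SMono) : SEx := by
  intro x hx0 hx1 h v Z A m m' t t' hm ht
  unfold Ex
  have hw := c1_wt x hx0 hx1 v.tail
  apply mul_le_mul (pow_le_pow_of_le_one hw.1 hw.2 hm) _ (h1 x hx0 hx1 _ _).1
    (pow_nonneg hw.1 m)
  apply h2 x hx0 hx1 _ _ ∅
  · exact Finset.empty_subset _
  · rw [Finset.empty_val, add_zero]
    exact add_le_add_right (Multiset.replicate_mono v.tail hm) A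
  · rw [Finset.sdiff_empty]
    exact Finset.union_subset_union_right (c1_Tt t t' h v ht)

/-! ### C11 -/

theorem c1_pB : ∑ B : Finset (Fin 3), pB B = 1 := by
  have h := Finset.sum_powerset_apply_card (fun n : ℕ => if n = 0 then (165 : ℝ) / 220 else
    if n = 1 then 15 / 220 else if n = 2 then 3 / 220 else 1 / 220)
    (x := (Finset.univ : Finset (Fin 3)))
  rw [Finset.powerset_univ] at h
  unfold pB
  rw [h]
  norm_num [Finset.sum_range_succ, Nat.choose]

theorem c1_Tt1 (t : ℕ) (v : T) : Tt t 1 v = ∅ := by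
  unfold Tt
  ext z
  simp [Zn]

theorem c1_Zn1 (v : T) : Zn 1 v = {v} := by
  ext z
  simp [Zn]

/-- an absorbed run of height one -/
theorem c1_ab (v : T) (G : Finset T → ℝ) (c : ℝ)
    (hG : ∀ S : Finset T, v ∈ S → (∀ z ∈ S, v <:+ z) → G S = c) : ab 1 v G = c := by
  have h : ∀ (B : Finset (Fin 3)) (i : Fin 3),
      ab 0 (i :: v) (fun S => G (insert v (ch v B ∪ S))) = c := by
    intro B i
    show G (insert v (ch v B ∪ ∅)) = c
    apply hG
    · exact Finset.mem_insert_self _ _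
    · intro z hz
      rw [Finset.union_empty, Finset.mem_insert] at hz
      rcases hz with hz | hz
      · rw [hz]
      · unfold ch at hz
        obtain ⟨i, _, hi⟩ := Finset.mem_image.1 hz
        rw [← hi]
        exact List.suffix_cons i v
  show ∑ B : Finset (Fin 3), pB B * ((1 / 3) * ∑ i : Fin 3,
      ab 0 (i :: v) (fun S => G (insert v (ch v B ∪ S)))) = c
  have h2 : ∀ B : Finset (Fin 3), pB B * ((1 / 3) * ∑ i : Fin 3,
      ab 0 (i :: v) (fun S => G (insert v (ch v B ∪ S)))) = pB B * c := by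
    intro B
    rw [Finset.sum_congr rfl (fun i _ => h B i)]
    rw [Finset.sum_const, Finset.card_univ, Fintype.card_fin, nsmul_eq_mul]
    push_cast
    ring
  rw [Finset.sum_congr rfl (fun B _ => h2 B), ← Finset.sum_mul, c1_pB, one_mul]

theorem c1_Vw1 (x : ℝ) (v : T) (Z : Finset T) (A : Multiset T) (hE : Env v Z A) (S : Finset T)
    (hv : v ∈ S) (hS : ∀ z ∈ S, v <:+ z) : Vw x S (Z ∪ Zn 1 v) A = V x Z (v ::ₘ A) := by
  have hvZ : ∀ z ∈ S, z ∉ Z := fun z hz hzZ => hE.1 z hzZ (hS z hz)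
  unfold Vw
  rw [c1_Zn1]
  have e1 : (Z ∪ {v}) \ S = Z := by
    ext z
    simp only [Finset.mem_sdiff, Finset.mem_union, Finset.mem_singleton]
    constructor
    · rintro ⟨hz | hz, hzS⟩
      · exact hz
      · exact absurd (hz ▸ hv) hzS
    · intro hz
      exact ⟨Or.inl hz, fun hzS => hvZ z hzS hz⟩
  have e2 : (Z ∪ {v}) ∩ S = {v} := by
    ext z
    simp only [Finset.mem_inter, Finset.mem_union, Finset.mem_singleton]
    constructor
    · rintro ⟨hz | hz, hzS⟩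
      · exact absurd hz (hvZ z hzS)
      · exact hz
    · intro hz
      exact ⟨Or.inr hz, hz ▸ hv⟩
  rw [e1, e2, Finset.singleton_val, add_comm, Multiset.singleton_add]

theorem c1_Vw0 (x : ℝ) (v : T) (Z : Finset T) (A : Multiset T) (hE : Env v Z A) (S : Finset T)
    (hS : ∀ z ∈ S, v <:+ z) (t : ℕ) : Vw x S (Z ∪ Tt t 1 v) A = V x Z A := by
  have hvZ : ∀ z ∈ S, z ∉ Z := fun z hz hzZ => hE.1 z hzZ (hS z hz)
  unfold Vw
  rw [c1_Tt1, Finset.union_empty]
  have e1 : Z \ S = Z := by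
    ext z
    rw [Finset.mem_sdiff]
    exact ⟨fun hz => hz.1, fun hz => ⟨hz, fun hzS => hvZ z hzS hz⟩⟩
  have e2 : Z ∩ S = ∅ := by
    ext z
    rw [Finset.mem_inter]
    exact ⟨fun hz => absurd hz.1 (hvZ z hz.2), fun hz => absurd hz (Finset.notMem_empty z)⟩
  rw [e1, e2, Finset.empty_val, add_zero]

theorem c1_Ex (x : ℝ) (v : T) (Z : Finset T) (A : Multiset T) (m t : ℕ) :
    Ex x 1 v Z A m t = wt x v.tail ^ m * V x Z (A + Multiset.replicate m v.tail) := by
  unfold Ex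
  rw [c1_Tt1, Finset.union_empty]

/-- sums against the first law of height one -/
theorem c1_sum (M : ℕ) (hM : 1 ≤ M) (g : ℕ → ℕ → ℝ) :
    ∑ m ∈ Finset.range (M + 1), ∑ t ∈ Finset.range 4,
      (if m = 1 ∧ t = 3 then (1 : ℝ) / 3 else if m = 0 ∧ t = 3 then 2 / 3 else 0) * g m t =
      1 / 3 * g 1 3 + 2 / 3 * g 0 3 := by
  have h : ∀ m ∈ Finset.range (M + 1), ∑ t ∈ Finset.range 4,
      (if m = 1 ∧ t = 3 then (1 : ℝ) / 3 else if m = 0 ∧ t = 3 then 2 / 3 else 0) * g m t =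
      (if m = 1 then 1 / 3 * g 1 3 else 0) + (if m = 0 then 2 / 3 * g 0 3 else 0) := by
    intro m _
    rcases m with _ | _ | m
    · simp
    · simp
    · simp
  rw [Finset.sum_congr rfl h, Finset.sum_add_distrib, Finset.sum_ite_eq', Finset.sum_ite_eq',
    if_pos (Finset.mem_range.2 (by omega)), if_pos (Finset.mem_range.2 (by omega))]

theorem c1_sumT (M : ℕ) (k : ℕ) (g : ℕ → ℕ → ℝ) :
    ∑ m ∈ Finset.range (M + 1), ∑ t ∈ Finset.range 4,
      (if m = 0 ∧ t = k then (1 : ℝ) else 0) * g m t = if k < 4 then g 0 k else 0 := by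
  have h : ∀ m ∈ Finset.range (M + 1), ∑ t ∈ Finset.range 4,
      (if m = 0 ∧ t = k then (1 : ℝ) else 0) * g m t =
      (if m = 0 then (if k < 4 then g 0 k else 0) else 0) := by
    intro m _
    by_cases hm : m = 0
    · subst hm
      rw [if_pos rfl]
      have h2 : ∀ t ∈ Finset.range 4, (if 0 = 0 ∧ t = k then (1 : ℝ) else 0) * g 0 t =
          if t = k then g 0 k else 0 := by
        intro t _
        by_cases ht : t = k
        · subst ht; simp
        · simp [ht]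
      rw [Finset.sum_congr rfl h2, Finset.sum_ite_eq']
      simp [Finset.mem_range]
    · rw [if_neg hm]
      apply Finset.sum_eq_zero
      intro t _
      rw [if_neg (fun hh => hm hh.1), zero_mul]
  rw [Finset.sum_congr rfl h, Finset.sum_ite_eq', if_pos (Finset.mem_range.2 (by omega))]

theorem c1_law1 (M : ℕ) (hM : 1 ≤ M) : IsLaw M P1.F1 := by
  refine ⟨?_, ?_⟩
  · intro m t
    show (0 : ℝ) ≤ if m = 1 ∧ t = 3 then 1 / 3 else if m = 0 ∧ t = 3 then 2 / 3 else 0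
    split_ifs <;> norm_num
  · have h := c1_sum M hM (fun _ _ => 1)
    simp only [mul_one] at h
    show ∑ m ∈ Finset.range (M + 1), ∑ t ∈ Finset.range 4,
      (if m = 1 ∧ t = 3 then (1 : ℝ) / 3 else if m = 0 ∧ t = 3 then 2 / 3 else 0) ≤ 1
    rw [h]
    norm_num

theorem c1_lawT (M k : ℕ) : IsLaw M (P1.Tl k) := by
  refine ⟨?_, ?_⟩
  · intro m t
    show (0 : ℝ) ≤ if m = 0 ∧ t = k then 1 else 0
    split_ifs <;> norm_num
  · have h := c1_sumT M k (fun _ _ => 1)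
    simp only [mul_one] at h
    show ∑ m ∈ Finset.range (M + 1), ∑ t ∈ Finset.range 4,
      (if m = 0 ∧ t = k then (1 : ℝ) else 0) ≤ 1
    rw [h]
    split_ifs <;> norm_num

theorem c1_claim (h3 : SRun0) (M : ℕ) (hM : 1 ≤ M) (x : ℝ) (hx0 : 0 ≤ x) (hx1 : x ≤ 1) (v : T)
    (Z : Finset T) (A : Multiset T) (hv : v ≠ []) :
    Claim M x 1 v Z A (V x Z (v ::ₘ A)) P1.F1 := by
  have h := h3 x hx0 hx1 Z A v hv
  show ∑ m ∈ Finset.range (M + 1), ∑ t ∈ Finset.range 4,
      (if m = 1 ∧ t = 3 then (1 : ℝ) / 3 else if m = 0 ∧ t = 3 then 2 / 3 else 0) *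
        (Ex x 1 v Z A 0 0 - Ex x 1 v Z A m t) ≤ Ex x 1 v Z A 0 0 - V x Z (v ::ₘ A)
  rw [c1_sum M hM (fun m t => Ex x 1 v Z A 0 0 - Ex x 1 v Z A m t)]
  simp only [c1_Ex, pow_zero, one_mul, pow_one, Multiset.replicate_zero, add_zero,
    Multiset.replicate_one]
  have e : A + {v.tail} = v.tail ::ₘ A := by
    rw [add_comm, Multiset.singleton_add]
  rw [e]
  linarith

/-- C11: height one -/
theorem slev1 (_h1 : SB01) (_h2 : SMono) (h3 : SRun0) : SLev1 := by
  intro M hM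
  refine ⟨c1_law1 M hM, c1_law1 M hM, c1_lawT M, ?_, ?_, ?_⟩
  · intro x hx0 hx1 v Z A hv hE
    have e : (ab 1 v fun S => Vw x S (Z ∪ Zn 1 v) A) = V x Z (v ::ₘ A) :=
      c1_ab v _ _ (fun S hS hS2 => c1_Vw1 x v Z A hE S hS hS2)
    rw [e]
    exact c1_claim h3 M hM x hx0 hx1 v Z A hv
  · intro x hx0 hx1 v Z A hv hE
    have e : (ab 1 v fun S => ab 1 v fun S' => Vw x (S ∪ S') (Z ∪ Zn 1 v) A) =
        V x Z (v ::ₘ A) := by
      apply c1_ab v
      intro S hS hS2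
      apply c1_ab v
      intro S' hS' hS2'
      apply c1_Vw1 x v Z A hE
      · exact Finset.mem_union_left _ hS
      · intro z hz
        rcases Finset.mem_union.1 hz with hz | hz
        · exact hS2 z hz
        · exact hS2' z hz
    rw [e]
    exact c1_claim h3 M hM x hx0 hx1 v Z A hv
  · intro t _ ht2 x hx0 hx1 v Z A hv hE
    have e : (ab 1 v fun S => Vw x S (Z ∪ Tt t 1 v) A) = V x Z A :=
      c1_ab v _ _ (fun S _ hS2 => c1_Vw0 x v Z A hE S hS2 t)
    rw [e]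
    show ∑ m ∈ Finset.range (M + 1), ∑ t' ∈ Finset.range 4,
      (if m = 0 ∧ t' = t then (1 : ℝ) else 0) *
        (Ex x 1 v Z A 0 0 - Ex x 1 v Z A m t') ≤ Ex x 1 v Z A 0 0 - V x Z A
    rw [c1_sumT M t (fun m t' => Ex x 1 v Z A 0 0 - Ex x 1 v Z A m t')]
    simp only [c1_Ex, pow_zero, one_mul, Multiset.replicate_zero, add_zero, sub_self]
    split_ifs <;> exact le_refl 0

end Pool.Agent.H80.T3
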