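import Pool.Agent.H80.T3.Stm

/-!
# MP_2b43a6_pr, project T3, row C10: the next level
-/

set_option autoImplicit false

namespace Pool.Agent.H80.T3

/-- averages of claims -/
theorem c10_key {ι : Type*} [Fintype ι] (M : ℕ) (w : ι → ℝ) (hw : ∀ a, 0 ≤ w a)
    (hw1 : ∑ a, w a = 1) (Xa : ι → ℕ → ℕ → ℝ) (va : ι → ℝ) (E : ℕ → ℕ → ℝ) (val : ℝ)
    (L : ℕ → ℕ → ℝ) (hE : ∀ m t, E m t ≤ E 0 0)
    (hL : ∀ m t, m ≤ M → t < 4 → (m ≠ 0 ∨ t ≠ 0) → L m t ≤ ∑ a, w a * Xa a m t)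
    (hX : ∀ a, ∑ m ∈ Finset.range (M + 1), ∑ t ∈ Finset.range 4,
      Xa a m t * (E 0 0 - E m t) ≤ E 0 0 - va a)
    (hval : val ≤ ∑ a, w a * va a) :
    ∑ m ∈ Finset.range (M + 1), ∑ t ∈ Finset.range 4, L m t * (E 0 0 - E m t) ≤ E 0 0 - val := by
  have h1 : ∑ m ∈ Finset.range (M + 1), ∑ t ∈ Finset.range 4, L m t * (E 0 0 - E m t) ≤
      ∑ m ∈ Finset.range (M + 1), ∑ t ∈ Finset.range 4,
        (∑ a, w a * Xa a m t) * (E 0 0 - E m t) := by
    refine Finset.sum_le_sum fun m hm => Finset.sum_le_sum fun t ht => ?_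
    by_cases h0 : m ≠ 0 ∨ t ≠ 0
    · refine mul_le_mul_of_nonneg_right (hL m t ?_ (Finset.mem_range.1 ht) h0) ?_
      · have := Finset.mem_range.1 hm
        omega
      · linarith [hE m t]
    · push Not at h0
      rw [h0.1, h0.2]
      simp
  have h2 : ∑ m ∈ Finset.range (M + 1), ∑ t ∈ Finset.range 4,
        (∑ a, w a * Xa a m t) * (E 0 0 - E m t) =
      ∑ a, w a * ∑ m ∈ Finset.range (M + 1), ∑ t ∈ Finset.range 4,
        Xa a m t * (E 0 0 - E m t) := by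
    simp only [Finset.sum_mul, Finset.mul_sum]
    rw [Finset.sum_congr rfl fun m _ => Finset.sum_comm, Finset.sum_comm]
    refine Finset.sum_congr rfl fun a _ => Finset.sum_congr rfl fun m _ =>
      Finset.sum_congr rfl fun t _ => by ring
  have h3 : ∑ a, w a * ∑ m ∈ Finset.range (M + 1), ∑ t ∈ Finset.range 4,
        Xa a m t * (E 0 0 - E m t) ≤ ∑ a, w a * (E 0 0 - va a) :=
    Finset.sum_le_sum fun a _ => mul_le_mul_of_nonneg_left (hX a) (hw a)
  have h4 : ∑ a, w a * (E 0 0 - va a) = E 0 0 - ∑ a, w a * va a := by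
    simp only [mul_sub, Finset.sum_sub_distrib]
    rw [← Finset.sum_mul, hw1, one_mul]
  linarith

/-- the law of the loops and of the next child -/
noncomputable def c10w (p : Finset (Fin 3) × Fin 3) : ℝ := pB p.1 * (1 / 3)

theorem c10w_nonneg (p : Finset (Fin 3) × Fin 3) : 0 ≤ c10w p := by
  unfold c10w pB
  split_ifs <;> norm_num

theorem c10_avg (f : Finset (Fin 3) → Fin 3 → ℝ) :
    ∑ B : Finset (Fin 3), pB B * ((1 / 3) * ∑ i : Fin 3, f B i) =
      ∑ p : Finset (Fin 3) × Fin 3, c10w p * f p.1 p.2 := by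
  rw [Fintype.sum_prod_type]
  refine Finset.sum_congr rfl fun B _ => ?_
  rw [← mul_assoc, Finset.mul_sum]
  rfl

theorem c10w_sum (h : ∑ B : Finset (Fin 3), pB B = 1) :
    ∑ p : Finset (Fin 3) × Fin 3, c10w p = 1 := by
  have h1 := c10_avg fun _ _ => 1
  simp only [mul_one] at h1
  rw [← h1]
  simpa using h

theorem c10_avg2 (f : Finset (Fin 3) → Fin 3 → Finset (Fin 3) → Fin 3 → ℝ) :
    ∑ B : Finset (Fin 3), pB B * ((1 / 3) * ∑ i : Fin 3,
      ∑ B' : Finset (Fin 3), pB B' * ((1 / 3) * ∑ i' : Fin 3, f B i B' i')) =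
      ∑ q : (Finset (Fin 3) × Fin 3) × (Finset (Fin 3) × Fin 3),
        c10w q.1 * c10w q.2 * f q.1.1 q.1.2 q.2.1 q.2.2 := by
  rw [c10_avg fun B i => ∑ B' : Finset (Fin 3), pB B' * ((1 / 3) * ∑ i' : Fin 3, f B i B' i')]
  rw [Fintype.sum_prod_type (f := fun q : (Finset (Fin 3) × Fin 3) × (Finset (Fin 3) × Fin 3) =>
    c10w q.1 * c10w q.2 * f q.1.1 q.1.2 q.2.1 q.2.2)]
  refine Finset.sum_congr rfl fun p _ => ?_
  rw [c10_avg fun B' i' => f p.1 p.2 B' i', Finset.mul_sum]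
  refine Finset.sum_congr rfl fun p' _ => ?_
  ring

/-- C10: the next level -/
theorem snext (h1 : SSound) (h2 : SEx) (h3 : SCtx1) (h4 : SCtx2) (h5 : SAbC) : SNext := by
  intro M h P P' X hM hh hP hX hN
  have hE : ∀ x : ℝ, 0 ≤ x → x ≤ 1 → ∀ (v : T) (Z : Finset T) (A : Multiset T) (m t : ℕ),
      Ex x (h + 1) v Z A m t ≤ Ex x (h + 1) v Z A 0 0 := fun x hx0 hx1 v Z A m t =>
    h2 x hx0 hx1 (h + 1) v Z A 0 m 0 t (Nat.zero_le _) (Nat.zero_le _)
  refine ⟨hN.l1, hN.l2, hN.lt, ?_, ?_, ?_⟩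
  · intro x hx0 hx1 v Z A hv hEnv
    refine c10_key M c10w c10w_nonneg (c10w_sum h5.2)
      (fun p => X (start 3 [(p.1, p.2)]) 1)
      (fun p => Val x h v (start 3 [(p.1, p.2)]) Z A 1)
      (Ex x (h + 1) v Z A) _ _ (hE x hx0 hx1 v Z A) ?_ ?_ ?_
    · intro m t hm ht h0
      have := hN.f1 m t hm ht h0
      rwa [c10_avg fun B i => X (start 3 [(B, i)]) 1 m t] at this
    · intro p
      exact h1 M h P X hM hh hP hX x hx0 hx1 v Z A hv hEnv _ 1 hM
    · have := (h3 x hx0 hx1 h hh v Z A hv hEnv).1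
      rwa [c10_avg fun B i => Val x h v (start 3 [(B, i)]) Z A 1] at this
  · intro x hx0 hx1 v Z A hv hEnv
    refine c10_key M
      (fun q : (Finset (Fin 3) × Fin 3) × (Finset (Fin 3) × Fin 3) => c10w q.1 * c10w q.2)
      (fun q => mul_nonneg (c10w_nonneg _) (c10w_nonneg _)) ?_
      (fun q => X (start 3 [(q.1.1, q.1.2), (q.2.1, q.2.2)]) 1)
      (fun q => Val x h v (start 3 [(q.1.1, q.1.2), (q.2.1, q.2.2)]) Z A 1)
      (Ex x (h + 1) v Z A) _ _ (hE x hx0 hx1 v Z A) ?_ ?_ ?_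
    · rw [Fintype.sum_prod_type]
      simp only [← Finset.mul_sum, c10w_sum h5.2, mul_one]
    · intro m t hm ht h0
      have := hN.f2 m t hm ht h0
      rwa [c10_avg2 fun B i B' i' => X (start 3 [(B, i), (B', i')]) 1 m t] at this
    · intro q
      exact h1 M h P X hM hh hP hX x hx0 hx1 v Z A hv hEnv _ 1 hM
    · have := h4 x hx0 hx1 h hh v Z A hv hEnv
      rwa [c10_avg2 fun B i B' i' => Val x h v (start 3 [(B, i), (B', i')]) Z A 1] at this
  · intro k hk1 hk3 x hx0 hx1 v Z A hv hEnv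
    refine c10_key M c10w c10w_nonneg (c10w_sum h5.2)
      (fun p => X (start k [(p.1, p.2)]) 0)
      (fun p => Val x h v (start k [(p.1, p.2)]) Z A 0)
      (Ex x (h + 1) v Z A) _ _ (hE x hx0 hx1 v Z A) ?_ ?_ ?_
    · intro m t hm ht h0
      have := hN.tl k hk1 hk3 m t hm ht h0
      rwa [c10_avg fun B i => X (start k [(B, i)]) 0 m t] at this
    · intro p
      exact h1 M h P X hM hh hP hX x hx0 hx1 v Z A hv hEnv _ 0 (Nat.zero_le _)
    · have := (h3 x hx0 hx1 h hh v Z A hv hEnv).2 k hk3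
      rwa [c10_avg fun B i => Val x h v (start k [(B, i)]) Z A 0] at this

end Pool.Agent.H80.T3
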