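import Pool.Agent.H80.T3.Stm

/-!
# MP_2b43a6_pr, project T3, row C2: nothing is pending
-/

set_option autoImplicit false

namespace Pool.Agent.H80.T3

/-- permute the labels of the children of `v` -/
def c2act (p : Equiv.Perm (Fin 3)) (v : T) : T → T
  | [] => []
  | a :: y => (if y = v then p a else a) :: c2act p v y

theorem c2act_nil (p : Equiv.Perm (Fin 3)) (v : T) : c2act p v [] = [] := rfl

theorem c2act_cons (p : Equiv.Perm (Fin 3)) (v : T) (a : Fin 3) (y : T) :
    c2act p v (a :: y) = (if y = v then p a else a) :: c2act p v y := rfl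

theorem c2act_tail (p : Equiv.Perm (Fin 3)) (v y : T) :
    c2act p v y.tail = (c2act p v y).tail := by
  cases y with
  | nil => rfl
  | cons a y => rfl

theorem c2act_length (p : Equiv.Perm (Fin 3)) (v y : T) :
    (c2act p v y).length = y.length := by
  induction y with
  | nil => rfl
  | cons a y ih => rw [c2act_cons, List.length_cons, List.length_cons, ih]

/-- vertices which are not strictly below `v` are fixed -/
theorem c2act_fix (p : Equiv.Perm (Fin 3)) (v y : T) (h : ¬ v <:+ y) : c2act p v y = y := by
  induction y with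
  | nil => rfl
  | cons a y ih =>
    have h1 : ¬ v <:+ y := fun h2 => h (h2.trans (List.suffix_cons a y))
    have h3 : y ≠ v := by
      rintro rfl
      exact h1 List.suffix_rfl
    rw [c2act_cons, if_neg h3, ih h1]

theorem c2act_self (p : Equiv.Perm (Fin 3)) (v : T) : c2act p v v = v := by
  cases v with
  | nil => rfl
  | cons a y =>
    have h3 : y ≠ a :: y := by
      intro h
      have := congrArg List.length h
      simp at this
    have h4 : ¬ (a :: y) <:+ y := by
      intro h
      have := h.length_le
      simp at this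
    rw [c2act_cons, if_neg h3, c2act_fix p (a :: y) y h4]

theorem c2act_eq_iff (p : Equiv.Perm (Fin 3)) (v y : T) : c2act p v y = v ↔ y = v := by
  constructor
  · intro h
    by_cases hv : v <:+ y
    · have hl : y.length = v.length := by rw [← c2act_length p v y, h]
      exact (hv.eq_of_length hl.symm).symm
    · rw [c2act_fix p v y hv] at h
      exact h
  · rintro rfl
    exact c2act_self p _

theorem c2act_inv (p q : Equiv.Perm (Fin 3)) (hq : ∀ a, q (p a) = a) (v y : T) :
    c2act q v (c2act p v y) = y := by
  induction y with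
  | nil => rfl
  | cons a y ih =>
    rw [c2act_cons, c2act_cons, ih]
    by_cases h : y = v
    · rw [if_pos h, if_pos ((c2act_eq_iff p v y).2 h), hq]
    · rw [if_neg h, if_neg (fun h' => h ((c2act_eq_iff p v y).1 h'))]

/-- the automorphism of the tree -/
def c2eq (p : Equiv.Perm (Fin 3)) (v : T) : T ≃ T where
  toFun := c2act p v
  invFun := c2act p⁻¹ v
  left_inv := fun y => c2act_inv p p⁻¹ (fun a => by simp) v y
  right_inv := fun y => c2act_inv p⁻¹ p (fun a => by simp) v y

theorem c2eq_apply (p : Equiv.Perm (Fin 3)) (v y : T) : c2eq p v y = c2act p v y := rfl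

/-- subtrees strictly below `v` -/
theorem c2_image_Zn (p : Equiv.Perm (Fin 3)) (v : T) (h : ℕ) (c : T) (hc : v.length < c.length) :
    (Zn h c).image (c2act p v) = Zn h (c2act p v c) := by
  induction h generalizing c with
  | zero => simp [Zn]
  | succ h ih =>
    have hcv : c ≠ v := by
      rintro rfl
      exact lt_irrefl _ hc
    rw [Zn, Zn, Finset.image_insert, Finset.biUnion_image]
    congr 1
    refine Finset.biUnion_congr rfl fun i _ => ?_
    rw [ih (i :: c) (by rw [List.length_cons]; omega), c2act_cons, if_neg hcv]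

/-- a permutation which maps the fresh children onto the first children -/
theorem c2_perm (S : Finset (Fin 3)) : ∃ p : Equiv.Perm (Fin 3), ∀ i, i ∈ S ↔ ((p i : Fin 3) : ℕ) <
    S.card := by
  have hcard : (Finset.univ.filter fun i : Fin 3 => (i : ℕ) < S.card).card = S.card := by
    have h3 : S.card ≤ 3 := by
      have := S.card_le_univ
      simpa using this
    interval_cases S.card <;> decide
  have e : {x // x ∈ S} ≃ {x // x ∈ Finset.univ.filter fun i : Fin 3 => (i : ℕ) < S.card} :=
    Finset.equivOfCardEq hcard.symm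
  refine ⟨e.extendSubtype, fun i => ?_⟩
  constructor
  · intro hi
    have := e.extendSubtype_mem i hi
    simpa using this
  · intro hi
    by_contra hn
    have := e.extendSubtype_not_mem i hn
    exact this (by simpa using hi)

theorem c2_bas (h : ℕ) (v : T) (s : Fin 3 → St) :
    (Finset.univ.filter fun i => s i = St.F).biUnion (fun i => Zn h (i :: v)) ⊆ bas h v s := by
  intro y hy
  rw [Finset.mem_biUnion] at hy
  obtain ⟨i, hi, hy⟩ := hy
  have hi' : s i = St.F := by simpa using hi
  have h1 : y ∈ (s i).bs h (i :: v) := by rw [hi']; exact hy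
  unfold bas
  rw [Finset.mem_union, Finset.mem_union]
  fin_cases i
  · exact Or.inl h1
  · exact Or.inr (Or.inl h1)
  · exact Or.inr (Or.inr h1)

theorem c2_op (h : ℕ) (c : T) (t : St) (ht : t.quiet = true) (G : Finset T → ℝ) :
    t.op h c G = G ∅ := by
  cases t <;> first | rfl | (simp [St.quiet] at ht)

theorem c2_Val (x : ℝ) (h : ℕ) (v : T) (s : Fin 3 → St) (Z : Finset T) (A : Multiset T)
    (hs : ∀ i, (s i).quiet = true) : Val x h v s Z A 0 = V x (Z ∪ bas h v s) A := by
  unfold Val ops
  rw [c2_op h _ _ (hs 0), c2_op h _ _ (hs 1), c2_op h _ _ (hs 2)]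
  simp [Vw]

theorem c2_Ex (x : ℝ) (h : ℕ) (v : T) (Z : Finset T) (A : Multiset T) (t : ℕ) :
    Ex x h v Z A 0 t = V x (Z ∪ Tt t h v) A := by
  unfold Ex
  simp

/-- row C2 -/
theorem scfin (_h1 : SB01) (h2 : SMono) (h3 : SAut) : SCFin := by
  intro x hx0 hx1 h _ v Z A hv hE s hs
  rw [c2_Val x h v s Z A hs, c2_Ex]
  set S : Finset (Fin 3) := Finset.univ.filter fun i => s i = St.F with hS
  obtain ⟨p, hp⟩ := c2_perm S
  have hm : V x (Z ∪ bas h v s) A ≤ V x (Z ∪ S.biUnion fun i => Zn h (i :: v)) A := by
    refine h2 x hx0 hx1 _ _ ∅ _ _ (Finset.empty_subset _) ?_ ?_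
    · simp
    · rw [Finset.sdiff_empty]
      exact Finset.union_subset_union (Finset.Subset.refl _) (c2_bas h v s)
  refine hm.trans (le_of_eq ?_)
  have ha := h3 x hx0 hx1 (c2eq p v) rfl (fun y => c2act_tail p v y)
    (Z ∪ S.biUnion fun i => Zn h (i :: v)) A
  rw [← ha]
  have hA : A.map (c2eq p v) = A := by
    conv_rhs => rw [← Multiset.map_id A]
    refine Multiset.map_congr rfl fun y hy => ?_
    rw [c2eq_apply, c2act_fix p v y (hE.2 y hy)]
    rfl
  have hZ : (Z ∪ S.biUnion fun i => Zn h (i :: v)).map (c2eq p v).toEmbedding =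
      Z ∪ Tt (nF s) (h + 1) v := by
    rw [Finset.map_eq_image]
    have hf : ((c2eq p v).toEmbedding : T → T) = c2act p v := rfl
    rw [hf, Finset.image_union, Finset.biUnion_image]
    have h4 : Z.image (c2act p v) = Z := by
      conv_rhs => rw [← Finset.image_id (s := Z)]
      refine Finset.image_congr fun y hy => ?_
      rw [c2act_fix p v y (hE.1 y (Finset.mem_coe.1 hy))]
      rfl
    rw [h4]
    congr 1
    unfold Tt
    ext y
    simp only [Finset.mem_biUnion, Finset.mem_filter, Finset.mem_univ, true_and]
    constructor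
    · rintro ⟨i, hi, hy⟩
      refine ⟨p i, ?_, ?_⟩
      · exact (hp i).1 hi
      · rw [c2_image_Zn p v h (i :: v) (by rw [List.length_cons]; omega), c2act_cons,
          if_pos rfl, c2act_self] at hy
        exact hy
    · rintro ⟨j, hj, hy⟩
      refine ⟨p.symm j, ?_, ?_⟩
      · rw [hp, Equiv.apply_symm_apply]
        exact hj
      · rw [c2_image_Zn p v h _ (by rw [List.length_cons]; omega), c2act_cons,
          if_pos rfl, c2act_self, Equiv.apply_symm_apply]
        exact hy
  rw [hA, hZ]

end Pool.Agent.H80.T3
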