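import Pool.Agent.H80.T3.Stm

/-!
# MP_2b43a6_pr, project T3: the rule for a frog at `v`
-/

set_option autoImplicit false

namespace Pool.Agent.H80.T3

/-- waking `S` and then `S'` is waking `S ∪ S'` -/
theorem c3_vw_union (x : ℝ) (S S' Z : Finset T) (B : Multiset T) :
    Vw x S' (Z \ S) (B + (Z ∩ S).val) = Vw x (S ∪ S') Z B := by
  have e1 : (Z \ S) \ S' = Z \ (S ∪ S') := by
    ext z
    simp only [Finset.mem_sdiff, Finset.mem_union]
    tauto
  have e2 : (Z ∩ S).val + ((Z \ S) ∩ S').val = (Z ∩ (S ∪ S')).val := by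
    have hd : Disjoint (Z ∩ S) ((Z \ S) ∩ S') := by
      rw [Finset.disjoint_left]
      intro z hz hz'
      simp only [Finset.mem_inter, Finset.mem_sdiff] at hz hz'
      exact hz'.1.2 hz.2
    have h3 : (Z ∩ S).disjUnion ((Z \ S) ∩ S') hd = Z ∩ (S ∪ S') := by
      ext z
      simp only [Finset.mem_disjUnion, Finset.mem_inter, Finset.mem_sdiff, Finset.mem_union]
      tauto
    rw [← h3]
    rfl
  unfold Vw
  rw [e1, add_assoc, e2]

/-- waking more vertices makes the value smaller -/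
theorem c3_vw_anti (h2 : SMono) {x : ℝ} (hx0 : 0 ≤ x) (hx1 : x ≤ 1) {S S' : Finset T}
    (hS : S ⊆ S') (Z : Finset T) (B : Multiset T) : Vw x S' Z B ≤ Vw x S Z B := by
  have e : S ∪ S' = S' := Finset.union_eq_right.mpr hS
  have h3 : Vw x S' (Z \ S) (B + (Z ∩ S).val) ≤ V x (Z \ S) (B + (Z ∩ S).val) := by
    unfold Vw
    refine h2 x hx0 hx1 (Z \ S) ((Z \ S) \ S') ((Z \ S) ∩ S') _ _ Finset.inter_subset_left
      le_rfl ?_
    intro z hz
    simp only [Finset.mem_inter, Finset.mem_sdiff] at hz ⊢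
    tauto
  have h4 := c3_vw_union x S S' Z B
  rw [e] at h4
  rw [← h4]
  exact h3

theorem c3_zn_suffix : ∀ (h : ℕ) (y z : T), z ∈ Zn h y → y <:+ z
  | 0, y, z, hz => by simp [Zn] at hz
  | h + 1, y, z, hz => by
    simp only [Zn, Finset.mem_insert, Finset.mem_biUnion, Finset.mem_univ, true_and] at hz
    rcases hz with rfl | ⟨i, hi⟩
    · exact List.suffix_refl _
    · exact (List.suffix_cons i y).trans (c3_zn_suffix h (i :: y) z hi)

theorem c3_tt_suffix (t h : ℕ) (y z : T) (hz : z ∈ Tt t h y) : y <:+ z := by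
  simp only [Tt, Finset.mem_biUnion] at hz
  obtain ⟨i, _, hi⟩ := hz
  exact (List.suffix_cons i y).trans (c3_zn_suffix _ _ _ hi)

theorem c3_bs_suffix (h : ℕ) (c z : T) (st : St) (hz : z ∈ st.bs h c) : c <:+ z := by
  cases st <;> simp only [St.bs] at hz <;>
    first
    | exact c3_tt_suffix _ _ _ _ hz
    | exact c3_zn_suffix _ _ _ hz
    | exact absurd hz (Finset.notMem_empty z)

theorem c3_bas_suffix (h : ℕ) (v z : T) (s : Fin 3 → St) (hz : z ∈ bas h v s) :
    ∃ i : Fin 3, (i :: v) <:+ z := by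
  unfold bas at hz
  rw [Finset.mem_union, Finset.mem_union] at hz
  rcases hz with hz | hz | hz
  · exact ⟨0, c3_bs_suffix _ _ _ _ hz⟩
  · exact ⟨1, c3_bs_suffix _ _ _ _ hz⟩
  · exact ⟨2, c3_bs_suffix _ _ _ _ hz⟩

theorem c3_notMem_bas (h : ℕ) (v : T) (s : Fin 3 → St) : v ∉ bas h v s := by
  intro hz
  obtain ⟨i, hi⟩ := c3_bas_suffix h v v s hz
  have := hi.length_le
  simp at this

/-- the sleeping vertices do not change under a change of the status of child `i` which keeps the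
sleeping vertices of this child -/
theorem c3_bas_update (h5 : SOps) (h : ℕ) (v : T) (s : Fin 3 → St) (i : Fin 3) (t : St)
    (ht : t.bs h (i :: v) = (s i).bs h (i :: v)) : bas h v (Function.update s i t) = bas h v s := by
  have e1 := (h5 h v (Function.update s i t)).2.2.2.2.2.2.1 i
  have e2 := (h5 h v s).2.2.2.2.2.2.1 i
  rw [Function.update_self, Function.update_idem, ht] at e1
  rw [e1, e2]

theorem c3_bs_addA (h : ℕ) (c : T) (st : St) : st.addA.bs h c = st.bs h c := by
  cases st <;> rfl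

theorem c3_ops_update (h5 : SOps) (h : ℕ) (v : T) (s : Fin 3 → St) (i : Fin 3) (t : St)
    (G : Finset T → ℝ) : ops h v (Function.update s i t) G =
      ops h v (Function.update s i St.D) (fun S' => t.op h (i :: v) (fun S => G (S ∪ S'))) := by
  have e1 := (h5 h v (Function.update s i t)).2.2.2.2.1 i G
  rw [Function.update_self, Function.update_idem] at e1
  exact e1

theorem c3_ops_mono (h5 : SOps) (h : ℕ) (v : T) (s : Fin 3 → St) {f g : Finset T → ℝ}
    (hfg : ∀ S, f S ≤ g S) : ops h v s f ≤ ops h v s g :=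
  (h5 h v s).1 f g (fun S _ => hfg S)

theorem c3_ab_mono (h3 : SAb) (h : ℕ) (y : T) {f g : Finset T → ℝ}
    (hfg : ∀ S, f S ≤ g S) : ab h y f ≤ ab h y g :=
  (h3 h y).1 f g (fun S _ _ => hfg S)

/-- dropping an absorbed run -/
theorem c3_ab_drop (h3 : SAb) (h : ℕ) (y : T) {f : Finset T → ℝ} {c : ℝ}
    (hf : ∀ S, f S ≤ c) : ab h y f ≤ c := by
  have h4 := c3_ab_mono h3 h y (g := fun _ => c) hf
  rwa [(h3 h y).2.2.2 c] at h4

/-- an absorbed run into child `c` and the status `addA` -/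
theorem c3_op_addA (h3 : SAb) (h : ℕ) (c : T) (st : St) {G : Finset T → ℝ}
    (hG : ∀ S S' : Finset T, S ⊆ S' → G S' ≤ G S) (S0 : Finset T) :
    st.op h c (fun S => ab h c (fun S' => G ((S ∪ S0) ∪ S'))) ≤
      st.addA.op h c (fun S => G (S ∪ S0)) := by
  have hsub : ∀ S S' : Finset T, G ((S ∪ S0) ∪ S') ≤ G (S ∪ S0) := fun S S' =>
    hG _ _ Finset.subset_union_left
  have hone : ∀ S' : Finset T, G ((∅ ∪ S0) ∪ S') ≤ G (S' ∪ S0) := fun S' =>
    hG _ _ (by
      intro z hz
      simp only [Finset.mem_union] at hz ⊢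
      tauto)
  have htwo : ∀ S' : Finset T, G (({c} ∪ S0) ∪ S') ≤ G (S' ∪ S0) := fun S' =>
    hG _ _ (by
      intro z hz
      simp only [Finset.mem_union] at hz ⊢
      tauto)
  have hthree : ∀ S S' : Finset T, G ((S ∪ S0) ∪ S') ≤ G ((S ∪ S') ∪ S0) := fun S S' =>
    hG _ _ (by
      intro z hz
      simp only [Finset.mem_union] at hz ⊢
      tauto)
  cases st with
  | D => exact c3_ab_drop h3 h c (fun S' => hsub ∅ S')
  | V1 => exact c3_ab_mono h3 h c hone
  | V1A => exact c3_ab_mono h3 h c (fun S => c3_ab_drop h3 h c (fun S' => hsub S S'))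
  | V2 => exact c3_ab_mono h3 h c hone
  | V2A => exact c3_ab_mono h3 h c (fun S => c3_ab_drop h3 h c (fun S' => hsub S S'))
  | V3 => exact c3_ab_mono h3 h c hone
  | V3A => exact c3_ab_mono h3 h c (fun S => c3_ab_drop h3 h c (fun S' => hsub S S'))
  | F => exact c3_ab_mono h3 h c hone
  | FL => exact c3_ab_mono h3 h c htwo
  | FA => exact c3_ab_mono h3 h c (fun S => c3_ab_mono h3 h c (fun S' => hthree S S'))
  | FAA =>
    exact c3_ab_mono h3 h c (fun S => c3_ab_mono h3 h c (fun S' =>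
      c3_ab_drop h3 h c (fun S'' => hsub (S ∪ S') S'')))

/-- the run into child `i` -/
theorem c3_run (h2 : SMono) (h3 : SAb) (h5 : SOps) {x : ℝ} (hx0 : 0 ≤ x) (hx1 : x ≤ 1) (h : ℕ)
    (v : T) (s : Fin 3 → St) (Z : Finset T) (A : Multiset T) (N : ℕ) (i : Fin 3) :
    ops h v s (fun S => ab h (i :: v) (fun S' =>
      Vw x (S ∪ S') (Z ∪ bas h v s) (A + Multiset.replicate N v))) ≤
      Val x h v (Function.update s i (s i).addA) Z A N := by
  have hG : ∀ S S' : Finset T, S ⊆ S' →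
      Vw x S' (Z ∪ bas h v s) (A + Multiset.replicate N v) ≤
        Vw x S (Z ∪ bas h v s) (A + Multiset.replicate N v) := fun S S' hS =>
    c3_vw_anti h2 hx0 hx1 hS _ _
  unfold Val
  rw [c3_bas_update h5 h v s i (s i).addA (c3_bs_addA _ _ _), c3_ops_update h5,
    (h5 h v s).2.2.2.2.1 i]
  refine c3_ops_mono h5 h v _ (fun S0 => ?_)
  exact c3_op_addA h3 h (i :: v) (s i) hG S0

/-- the loop, fresh child -/
theorem c3_loop_F (h5 : SOps) (x : ℝ) (h : ℕ)
    (v : T) (s : Fin 3 → St) (Z : Finset T) (A : Multiset T) (N : ℕ) (i : Fin 3)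
    (hi : s i = St.F) :
    ops h v s (fun S => Vw x (S ∪ {i :: v}) (Z ∪ bas h v s) (A + Multiset.replicate N v)) =
      Val x h v (Function.update s i St.FL) Z A N := by
  unfold Val
  rw [c3_bas_update h5 h v s i St.FL (by rw [hi]; rfl), c3_ops_update h5,
    (h5 h v s).2.2.2.2.1 i, hi]
  refine congrArg _ (funext fun S0 => ?_)
  change Vw x ((∅ ∪ S0) ∪ {i :: v}) _ _ = Vw x ({i :: v} ∪ S0) _ _
  rw [Finset.empty_union, Finset.union_comm]

/-- the loop, other child -/
theorem c3_loop_N (h2 : SMono) (h5 : SOps) {x : ℝ} (hx0 : 0 ≤ x) (hx1 : x ≤ 1) (h : ℕ)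
    (v : T) (s : Fin 3 → St) (Z : Finset T) (A : Multiset T) (N : ℕ) (i : Fin 3) :
    ops h v s (fun S => Vw x (S ∪ {i :: v}) (Z ∪ bas h v s) (A + Multiset.replicate N v)) ≤
      Val x h v s Z A N :=
  c3_ops_mono h5 h v s (fun _ => c3_vw_anti h2 hx0 hx1 Finset.subset_union_left _ _)

theorem scfrog (h1 : SB01) (h2 : SMono) (h3 : SAb) (h4 : SAbC) (h5 : SOps) (h6 : SFlag) :
    SCFrog := by
  intro x hx0 hx1 h hh v Z A hv hEnv s N
  have hvZ : v ∉ Z ∪ bas h v s := by
    rw [Finset.mem_union]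
    rintro (hz | hz)
    · exact hEnv.1 v hz (List.suffix_refl v)
    · exact c3_notMem_bas h v s hz
  -- one move, pointwise
  have hpt : ∀ S : Finset T,
      Vw x S (Z ∪ bas h v s) (A + Multiset.replicate (N + 1) v) ≤
        (1 / 4) * (wt x v.tail * Vw x S (Z ∪ bas h v s)
            ((v.tail ::ₘ A) + Multiset.replicate N v)) +
          ((1 / 6) * ab h (0 :: v) (fun S' =>
              Vw x (S ∪ S') (Z ∪ bas h v s) (A + Multiset.replicate N v)) +
            (1 / 12) * Vw x (S ∪ {0 :: v}) (Z ∪ bas h v s) (A + Multiset.replicate (N + 1) v) +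
          ((1 / 6) * ab h (1 :: v) (fun S' =>
              Vw x (S ∪ S') (Z ∪ bas h v s) (A + Multiset.replicate N v)) +
            (1 / 12) * Vw x (S ∪ {1 :: v}) (Z ∪ bas h v s) (A + Multiset.replicate (N + 1) v)) +
          ((1 / 6) * ab h (2 :: v) (fun S' =>
              Vw x (S ∪ S') (Z ∪ bas h v s) (A + Multiset.replicate N v)) +
            (1 / 12) * Vw x (S ∪ {2 :: v}) (Z ∪ bas h v s)
              (A + Multiset.replicate (N + 1) v))) := by
    intro S
    have hvS : v ∉ (Z ∪ bas h v s) \ S := fun hz => hvZ (Finset.mem_sdiff.mp hz).1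
    have h7 := h6 x hx0 hx1 h hh ((Z ∪ bas h v s) \ S)
      ((A + Multiset.replicate N v) + ((Z ∪ bas h v s) ∩ S).val) v hv hvS
    rw [Fin.sum_univ_three] at h7
    have e1 : V x ((Z ∪ bas h v s) \ S)
        (v ::ₘ ((A + Multiset.replicate N v) + ((Z ∪ bas h v s) ∩ S).val)) =
        Vw x S (Z ∪ bas h v s) (A + Multiset.replicate (N + 1) v) := by
      unfold Vw
      rw [Multiset.replicate_succ, Multiset.add_cons, Multiset.cons_add]
    have e2 : V x ((Z ∪ bas h v s) \ S)
        (v.tail ::ₘ ((A + Multiset.replicate N v) + ((Z ∪ bas h v s) ∩ S).val)) =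
        Vw x S (Z ∪ bas h v s) ((v.tail ::ₘ A) + Multiset.replicate N v) := by
      unfold Vw
      rw [Multiset.cons_add, Multiset.cons_add]
    have e3 : ∀ S' : Finset T, Vw x S' ((Z ∪ bas h v s) \ S)
        ((A + Multiset.replicate N v) + ((Z ∪ bas h v s) ∩ S).val) =
        Vw x (S ∪ S') (Z ∪ bas h v s) (A + Multiset.replicate N v) := fun S' =>
      c3_vw_union x S S' _ _
    have e4 : ∀ S' : Finset T, Vw x S' ((Z ∪ bas h v s) \ S)
        (v ::ₘ ((A + Multiset.replicate N v) + ((Z ∪ bas h v s) ∩ S).val)) =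
        Vw x (S ∪ S') (Z ∪ bas h v s) (A + Multiset.replicate (N + 1) v) := by
      intro S'
      rw [← c3_vw_union x S S' (Z ∪ bas h v s) (A + Multiset.replicate (N + 1) v),
        Multiset.replicate_succ, Multiset.add_cons, Multiset.cons_add]
    rw [e1, e2] at h7
    simp only [e3, e4] at h7
    exact h7
  -- average
  have hav := c3_ops_mono h5 h v s hpt
  obtain ⟨-, hadd, hsmul, -⟩ := h5 h v s
  simp only [hadd, hsmul] at hav
  have hV : ops h v s (fun S => Vw x S (Z ∪ bas h v s) (A + Multiset.replicate (N + 1) v)) =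
      Val x h v s Z A (N + 1) := rfl
  have hVt : ops h v s (fun S => Vw x S (Z ∪ bas h v s)
      ((v.tail ::ₘ A) + Multiset.replicate N v)) = Val x h v s Z (v.tail ::ₘ A) N := rfl
  rw [hV, hVt] at hav
  have hr := fun i => c3_run h2 h3 h5 hx0 hx1 h v s Z A N i
  have hl : ∀ i : Fin 3, ops h v s (fun S => Vw x (S ∪ {i :: v}) (Z ∪ bas h v s)
      (A + Multiset.replicate (N + 1) v)) ≤
      (if s i = St.F then Val x h v (Function.update s i St.FL) Z A (N + 1) else 0) +
        (if s i = St.F then 0 else Val x h v s Z A (N + 1)) := by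
    intro i
    by_cases hi : s i = St.F
    · rw [if_pos hi, if_pos hi, add_zero, c3_loop_F h5 x h v s Z A (N + 1) i hi]
    · rw [if_neg hi, if_neg hi, zero_add]
      exact c3_loop_N h2 h5 hx0 hx1 h v s Z A (N + 1) i
  have hnF : (nF s : ℝ) = ∑ i : Fin 3, (if s i = St.F then (1 : ℝ) else 0) := by
    unfold nF
    rw [Finset.sum_boole]
  have hsplit : ∀ i : Fin 3, (if s i = St.F then 0 else Val x h v s Z A (N + 1)) =
      Val x h v s Z A (N + 1) - (if s i = St.F then (1 : ℝ) else 0) * Val x h v s Z A (N + 1) := by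
    intro i
    split_ifs <;> ring
  rw [hnF]
  simp only [Fin.sum_univ_three]
  have r0 := hr 0
  have r1 := hr 1
  have r2 := hr 2
  have l0 := hl 0
  have l1 := hl 1
  have l2 := hl 2
  rw [hsplit] at l0 l1 l2
  nlinarith [hav, r0, r1, r2, l0, l1, l2]

end Pool.Agent.H80.T3
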