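import Pool.Agent.H80.T3.Stm

/-!
# MP_2b43a6_pr, project T3, row C4: the rule for a woken top
-/

set_option autoImplicit false

namespace Pool.Agent.H80.T3

/-! ### members of the pieces -/

theorem c4_mem_Zn : ∀ (h : ℕ) (c y : T), y ∈ Zn h c → c <:+ y := by
  intro h
  induction h with
  | zero => intro c y hy; simp [Zn] at hy
  | succ h ih =>
    intro c y hy
    rw [Zn, Finset.mem_insert, Finset.mem_biUnion] at hy
    rcases hy with hy | ⟨i, _, hy⟩
    · rw [hy]
    · exact (List.suffix_cons i c).trans (ih _ _ hy)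

theorem c4_mem_Tt (t h : ℕ) (c y : T) (hy : y ∈ Tt t h c) : ∃ i : Fin 3, (i :: c) <:+ y := by
  rw [Tt, Finset.mem_biUnion] at hy
  obtain ⟨i, _, hy⟩ := hy
  exact ⟨i, c4_mem_Zn _ _ _ hy⟩

theorem c4_mem_Tt' (t h : ℕ) (c y : T) (hy : y ∈ Tt t h c) : c <:+ y := by
  obtain ⟨i, hi⟩ := c4_mem_Tt t h c y hy
  exact (List.suffix_cons i c).trans hi

theorem c4_not_mem_Tt (t h : ℕ) (c : T) : c ∉ Tt t h c := by
  intro hc
  obtain ⟨i, hi⟩ := c4_mem_Tt t h c c hc
  have := hi.length_le
  simp at this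

theorem c4_mem_bs (h : ℕ) (c y : T) (s : St) (hy : y ∈ s.bs h c) : c <:+ y := by
  cases s <;> simp only [St.bs] at hy
  · simp at hy
  all_goals first
    | exact c4_mem_Tt' _ _ _ _ hy
    | exact c4_mem_Zn _ _ _ hy

theorem c4_mem_bas (h : ℕ) (v y : T) (s : Fin 3 → St) (hy : y ∈ bas h v s) :
    ∃ j : Fin 3, y ∈ (s j).bs h (j :: v) := by
  rw [bas, Finset.mem_union, Finset.mem_union] at hy
  rcases hy with hy | hy | hy
  · exact ⟨0, hy⟩
  · exact ⟨1, hy⟩
  · exact ⟨2, hy⟩

/-- the vertices of the other children -/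
theorem c4_mem_rest (h : ℕ) (v y : T) (s : Fin 3 → St) (i : Fin 3)
    (hy : y ∈ bas h v (Function.update s i St.D)) : ∃ j : Fin 3, j ≠ i ∧ (j :: v) <:+ y := by
  obtain ⟨j, hj⟩ := c4_mem_bas h v y _ hy
  have hji : j ≠ i := by
    rintro rfl
    rw [Function.update_self] at hj
    simp [St.bs] at hj
  exact ⟨j, hji, c4_mem_bs _ _ _ _ hj⟩

theorem c4_top_not_rest (h : ℕ) (v : T) (s : Fin 3 → St) (i : Fin 3) :
    (i :: v) ∉ bas h v (Function.update s i St.D) := by
  intro hy
  obtain ⟨j, hj, hs⟩ := c4_mem_rest h v _ s i hy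
  have h1 := hs.eq_of_length (by simp)
  exact hj (List.cons.inj h1).1

/-- a fresh subtree is its top together with three fresh subtrees of children -/
theorem c4_Zn (h : ℕ) (c : T) (hh : 1 ≤ h) : Zn h c = insert c (Tt 3 h c) := by
  obtain ⟨k, rfl⟩ : ∃ k, h = k + 1 := ⟨h - 1, by omega⟩
  have hf : (Finset.univ.filter fun i : Fin 3 => (i : ℕ) < 3) = Finset.univ := by
    ext i
    simp only [Finset.mem_filter, Finset.mem_univ, true_and, iff_true]
    exact i.isLt
  rw [Zn, Tt, hf]
  rfl

/-! ### woken sets -/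

/-- waking `S'` and then `S` is waking `S ∪ S'` -/
theorem c4_wake2 (x : ℝ) (S S' W : Finset T) (B : Multiset T) :
    Vw x S (W \ S') (B + (W ∩ S').val) = Vw x (S ∪ S') W B := by
  have e1 : (W \ S') \ S = W \ (S ∪ S') := by
    ext z
    simp only [Finset.mem_sdiff, Finset.mem_union]
    tauto
  have e2 : (W ∩ (S ∪ S')).val = (W ∩ S').val + ((W \ S') ∩ S).val := by
    have hd : Disjoint (W ∩ S') ((W \ S') ∩ S) := by
      rw [Finset.disjoint_left]
      intro z hz hz'
      simp only [Finset.mem_inter, Finset.mem_sdiff] at hz hz'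
      exact hz'.1.2 hz.2
    have hu : W ∩ (S ∪ S') = (W ∩ S').disjUnion ((W \ S') ∩ S) hd := by
      ext z
      simp only [Finset.mem_inter, Finset.mem_union, Finset.mem_disjUnion, Finset.mem_sdiff]
      tauto
    rw [hu, Finset.disjUnion_val]
  rw [Vw, Vw, e1, e2, add_assoc]

/-- a woken top `c` which is not in the rest -/
theorem c4_wakec (x : ℝ) (c : T) (S' W : Finset T) (B : Multiset T) (hc : c ∉ W) :
    Vw x ({c} ∪ S') (insert c W) B = V x (W \ S') (c ::ₘ (B + (W ∩ S').val)) := by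
  have e1 : insert c W \ ({c} ∪ S') = W \ S' := by
    ext z
    simp only [Finset.mem_sdiff, Finset.mem_union, Finset.mem_singleton, Finset.mem_insert]
    constructor
    · rintro ⟨h1, h2⟩
      have h3 : z ≠ c := fun h => h2 (Or.inl h)
      exact ⟨h1.resolve_left h3, fun h => h2 (Or.inr h)⟩
    · rintro ⟨h1, h2⟩
      refine ⟨Or.inr h1, ?_⟩
      rintro (h3 | h3)
      · exact hc (h3 ▸ h1)
      · exact h2 h3
  have e2 : insert c W ∩ ({c} ∪ S') = insert c (W ∩ S') := by
    ext z
    simp only [Finset.mem_inter, Finset.mem_union, Finset.mem_singleton, Finset.mem_insert]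
    tauto
  have e3 : c ∉ W ∩ S' := fun h => hc (Finset.mem_inter.mp h).1
  have e4 : (insert c (W ∩ S')).val = c ::ₘ (W ∩ S').val := Finset.insert_val_of_notMem e3
  rw [Vw, e1, e2, e4, Multiset.add_cons]

/-- the rule, pointwise in the woken set `S'` of the other children -/
theorem c4_point (h5 : SRun) (x : ℝ) (hx0 : 0 ≤ x) (hx1 : x ≤ 1) (h : ℕ) (v : T)
    (hv : v ≠ []) (i : Fin 3) (S' W : Finset T) (B : Multiset T) (hc : (i :: v) ∉ W) :
    Vw x ({i :: v} ∪ S') (insert (i :: v) W) B ≤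
      (2 / 3) * ab h (i :: v) (fun S => Vw x (S ∪ S') W B) +
        (1 / 3) * Vw x (∅ ∪ S') W (v ::ₘ B) := by
  rw [c4_wakec x _ S' W B hc]
  have h1 := h5 x hx0 hx1 h (W \ S') (B + (W ∩ S').val) (i :: v) (List.cons_ne_nil _ _)
    (fun h => hc (Finset.mem_sdiff.mp h).1)
  have h2 : (fun S => Vw x S (W \ S') (B + (W ∩ S').val)) = fun S => Vw x (S ∪ S') W B := by
    funext S
    exact c4_wake2 x S S' W B
  have h3 : wt x (i :: v).tail * V x (W \ S') ((i :: v).tail ::ₘ (B + (W ∩ S').val)) =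
      Vw x (∅ ∪ S') W (v ::ₘ B) := by
    rw [List.tail_cons, wt, if_neg hv, one_mul, Finset.empty_union, Vw, Multiset.cons_add]
  rw [h2, h3] at h1
  exact h1

/-- row C4 -/
theorem scfl (_h1 : SB01) (_h2 : SMono) (_h3 : SAb) (h4 : SOps) (h5 : SRun) : SCFL := by
  intro x hx0 hx1 h hh v Z A hv hE s N i hi
  have hcZ : (i :: v) ∉ Z := fun h => hE.1 _ h (List.suffix_cons i v)
  set R : Finset T := bas h v (Function.update s i St.D) with hR
  set W : Finset T := Z ∪ (Tt 3 h (i :: v) ∪ R) with hW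
  have hcW : (i :: v) ∉ W := by
    rw [hW, Finset.mem_union, Finset.mem_union]
    rintro (h1 | h1 | h1)
    · exact hcZ h1
    · exact c4_not_mem_Tt _ _ _ h1
    · exact c4_top_not_rest h v s i h1
  -- the three values as averages over the other children
  have hb : bas h v s = Zn h (i :: v) ∪ R := by
    have := (h4 h v s).2.2.2.2.2.2.1 i
    rw [this, hi, hR]
    rfl
  have hZb : Z ∪ bas h v s = insert (i :: v) W := by
    rw [hb, c4_Zn h _ hh, hW]
    ext z
    simp only [Finset.mem_union, Finset.mem_insert]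
    tauto
  have hbq : ∀ q : St, q.bs h (i :: v) = Tt 3 h (i :: v) →
      Z ∪ bas h v (Function.update s i q) = W := by
    intro q hq
    have := (h4 h v (Function.update s i q)).2.2.2.2.2.2.1 i
    rw [this, Function.update_self, Function.update_idem, hq, hW, hR]
  have e0 : Val x h v s Z A N = ops h v (Function.update s i St.D)
      (fun S' => Vw x ({i :: v} ∪ S') (insert (i :: v) W) (A + Multiset.replicate N v)) := by
    rw [Val, (h4 h v s).2.2.2.2.1 i, hi, hZb]
    rfl
  have e1 : Val x h v (Function.update s i St.V3A) Z A N = ops h v (Function.update s i St.D)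
      (fun S' => ab h (i :: v) (fun S => Vw x (S ∪ S') W (A + Multiset.replicate N v))) := by
    rw [Val, (h4 h v (Function.update s i St.V3A)).2.2.2.2.1 i, Function.update_self,
      Function.update_idem, hbq St.V3A rfl]
    rfl
  have e2 : Val x h v (Function.update s i St.V3) Z A (N + 1) =
      ops h v (Function.update s i St.D)
      (fun S' => Vw x (∅ ∪ S') W (v ::ₘ (A + Multiset.replicate N v))) := by
    rw [Val, (h4 h v (Function.update s i St.V3)).2.2.2.2.1 i, Function.update_self,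
      Function.update_idem, hbq St.V3 rfl, Multiset.replicate_succ, Multiset.add_cons]
    rfl
  have h6 := (h4 h v s).2.2.2.2.2.1 i
    (fun S' => Vw x ({i :: v} ∪ S') (insert (i :: v) W) (A + Multiset.replicate N v))
    (fun S' => (2 / 3) * ab h (i :: v)
        (fun S => Vw x (S ∪ S') W (A + Multiset.replicate N v)) +
      (1 / 3) * Vw x (∅ ∪ S') W (v ::ₘ (A + Multiset.replicate N v)))
    (fun S' _ => c4_point h5 x hx0 hx1 h v hv i S' W _ hcW)
  obtain ⟨_, hadd, hsmul, _⟩ := h4 h v (Function.update s i St.D)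
  rw [hadd, hsmul, hsmul] at h6
  rw [e0, e1, e2]
  exact h6

end Pool.Agent.H80.T3
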