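import Pool.Agent.H80.T3.Stm

/-!
# MP_2b43a6_pr, project T3, row C5: the rules for pending absorbed runs

`scproc : SB01 → SMono → SAb → SOps → SCProc`.
-/

set_option autoImplicit false

namespace Pool.Agent.H80.T3

theorem c5_Zn_suf (h : ℕ) : ∀ (y z : T), z ∈ Zn h y → y <:+ z := by
  induction h with
  | zero => intro y z hz; simp [Zn] at hz
  | succ h ih =>
    intro y z hz
    simp only [Zn, Finset.mem_insert, Finset.mem_biUnion, Finset.mem_univ, true_and] at hz
    rcases hz with rfl | ⟨i, hi⟩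
    · exact List.suffix_rfl
    · exact (List.suffix_cons i y).trans (ih _ _ hi)

theorem c5_Tt_suf (t h : ℕ) (y z : T) (hz : z ∈ Tt t h y) : y <:+ z := by
  simp only [Tt, Finset.mem_biUnion] at hz
  obtain ⟨i, _, hi⟩ := hz
  exact (List.suffix_cons i y).trans (c5_Zn_suf _ _ _ hi)

theorem c5_bs_suf (h : ℕ) (c z : T) (q : St) (hz : z ∈ q.bs h c) : c <:+ z := by
  cases q <;> simp only [St.bs] at hz <;>
    first
      | exact absurd hz (Finset.notMem_empty _)
      | exact c5_Tt_suf _ _ _ _ hz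
      | exact c5_Zn_suf _ _ _ hz

theorem c5_suf_eq {i j : Fin 3} {v z : T} (h1 : (i :: v) <:+ z) (h2 : (j :: v) <:+ z) :
    i = j := by
  have h3 : (i :: v) <:+ (j :: v) := List.suffix_of_suffix_length_le h1 h2 (by simp)
  have h4 : (i :: v) = (j :: v) := h3.eq_of_length (by simp)
  exact (List.cons.inj h4).1

theorem c5_bas_mem (h : ℕ) (v z : T) (s : Fin 3 → St) (hz : z ∈ bas h v s) :
    ∃ j : Fin 3, z ∈ (s j).bs h (j :: v) := by
  simp only [bas, Finset.mem_union] at hz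
  rcases hz with hz | hz | hz
  · exact ⟨0, hz⟩
  · exact ⟨1, hz⟩
  · exact ⟨2, hz⟩

theorem c5_vw (x : ℝ) (W B S S' : Finset T) (A : Multiset T) (c : T)
    (hW : ∀ y ∈ W, ¬ c <:+ y) (hB : ∀ y ∈ B, c <:+ y) (hS : ∀ y ∈ S, c <:+ y)
    (hS' : ∀ y ∈ S', ¬ c <:+ y) :
    Vw x (S ∪ S') (W ∪ B) A = Vw x S ((W \ S') ∪ B) (A + (W ∩ S').val) := by
  have e1 : (W ∪ B) \ (S ∪ S') = ((W \ S') ∪ B) \ S := by
    ext z
    simp only [Finset.mem_sdiff, Finset.mem_union, not_or]
    constructor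
    · rintro ⟨h1 | h1, h2, h3⟩
      · exact ⟨Or.inl ⟨h1, h3⟩, h2⟩
      · exact ⟨Or.inr h1, h2⟩
    · rintro ⟨⟨h1, h3⟩ | h1, h2⟩
      · exact ⟨Or.inl h1, h2, h3⟩
      · exact ⟨Or.inr h1, h2, fun h3 => hS' z h3 (hB z h1)⟩
  have e2 : (((W \ S') ∪ B) ∩ S) = B ∩ S := by
    ext z
    simp only [Finset.mem_inter, Finset.mem_sdiff, Finset.mem_union]
    constructor
    · rintro ⟨⟨h1, h3⟩ | h1, h2⟩
      · exact absurd (hS z h2) (hW z h1)
      · exact ⟨h1, h2⟩
    · rintro ⟨h1, h2⟩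
      exact ⟨Or.inr h1, h2⟩
  have hd : Disjoint (W ∩ S') (B ∩ S) := by
    rw [Finset.disjoint_left]
    intro z h1 h2
    exact hW z (Finset.mem_inter.mp h1).1 (hB z (Finset.mem_inter.mp h2).1)
  have e3 : (W ∪ B) ∩ (S ∪ S') = (W ∩ S').disjUnion (B ∩ S) hd := by
    ext z
    simp only [Finset.mem_inter, Finset.mem_union, Finset.mem_disjUnion]
    constructor
    · rintro ⟨h1 | h1, h2 | h2⟩
      · exact absurd (hS z h2) (hW z h1)
      · exact Or.inl ⟨h1, h2⟩
      · exact Or.inr ⟨h1, h2⟩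
      · exact absurd (hB z h1) (hS' z h2)
    · rintro (⟨h1, h2⟩ | ⟨h1, h2⟩)
      · exact ⟨Or.inl h1, Or.inr h2⟩
      · exact ⟨Or.inr h1, Or.inl h2⟩
  unfold Vw
  rw [e1, e2, e3, Finset.disjUnion_val, add_assoc]

theorem c5_vw_empty (x : ℝ) (Z : Finset T) (A : Multiset T) : Vw x ∅ Z A = V x Z A := by
  unfold Vw
  simp

theorem c5_ofT_op (h : ℕ) (c : T) (t : ℕ) (G : Finset T → ℝ) : (St.ofT t).op h c G = G ∅ := by
  rcases t with _ | _ | _ | t <;> rfl

theorem c5_ofT_bs (h : ℕ) (c : T) (t : ℕ) (ht : t < 4) : (St.ofT t).bs h c = Tt t h c := by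
  interval_cases t
  · simp [St.ofT, St.bs, Tt]
  · rfl
  · rfl
  · rfl

theorem scproc (_h1 : SB01) (_h2 : SMono) (h3 : SAb) (h4 : SOps) : SCProc := by
  intro M h P hh hL x hx0 hx1 v Z A hv hE s i hq hFL L hLdef
  obtain ⟨c, hc⟩ : ∃ c : T, c = i :: v := ⟨_, rfl⟩
  obtain ⟨s', hs'⟩ : ∃ s' : Fin 3 → St, s' = Function.update s i St.D := ⟨_, rfl⟩
  obtain ⟨W, hWd⟩ : ∃ W : Finset T, W = Z ∪ bas h v s' := ⟨_, rfl⟩
  have hcne : c ≠ [] := by rw [hc]; simp
  have hct : c.tail = v := by rw [hc]; rfl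
  have hW : ∀ y ∈ W, ¬ c <:+ y := by
    intro y hy hcy
    rw [hWd, Finset.mem_union] at hy
    rcases hy with hy | hy
    · exact hE.1 y hy ((List.suffix_cons i v).trans (hc ▸ hcy))
    · obtain ⟨j, hj⟩ := c5_bas_mem h v y s' hy
      have hji : i = j := c5_suf_eq (hc ▸ hcy) (c5_bs_suf _ _ _ _ hj)
      subst hji
      rw [hs', Function.update_self] at hj
      simp [St.bs] at hj
  -- the linear functional
  obtain ⟨-, hadd, hsmul, -, -, -, -, -⟩ := h4 h v s'
  let Λ : (Finset T → ℝ) →ₗ[ℝ] ℝ :=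
    { toFun := ops h v s'
      map_add' := fun f g => hadd f g
      map_smul' := fun a f => hsmul a f }
  have hΛ : ∀ f : Finset T → ℝ, Λ f = ops h v s' f := fun _ => rfl
  obtain ⟨E, hEd⟩ : ∃ E : ℕ → ℕ → Finset T → ℝ, E = fun m t S' =>
      Vw x S' (W ∪ Tt t h c) (A + Multiset.replicate m v) := ⟨_, rfl⟩
  have hval : ∀ t, t < 4 → ∀ R, Val x h v (Function.update s i (St.ofT t)) Z A R = Λ (E R t) := by
    intro t ht R
    have e1 : Function.update (Function.update s i (St.ofT t)) i St.D = s' := by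
      rw [hs', Function.update_idem]
    have e2 := (h4 h v (Function.update s i (St.ofT t))).2.2.2.2.1 i
      (fun S => Vw x S (Z ∪ bas h v (Function.update s i (St.ofT t)))
        (A + Multiset.replicate R v))
    have e3 := (h4 h v (Function.update s i (St.ofT t))).2.2.2.2.2.2.1 i
    rw [e1, Function.update_self, ← hc] at e2 e3
    rw [c5_ofT_bs h c t ht] at e3
    unfold Val
    rw [e2, hΛ]
    congr 1
    funext S'
    rw [c5_ofT_op, Finset.empty_union, e3, hEd, hWd]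
    congr 1
    rw [Finset.union_assoc, Finset.union_comm (bas h v s')]
  have hval0 : Val x h v s' Z A 0 = Λ (E 0 0) := by
    have := hval 0 (by norm_num) 0
    rw [hs']
    exact this
  have hs0 : Val x h v s Z A 0 = Λ (fun S' => (s i).op h c (fun S =>
      Vw x (S ∪ S') (W ∪ (s i).bs h c) A)) := by
    have e2 := (h4 h v s).2.2.2.2.1 i (fun S => Vw x S (Z ∪ bas h v s)
        (A + Multiset.replicate 0 v))
    have e3 := (h4 h v s).2.2.2.2.2.2.1 i
    rw [← hs', ← hc] at e2 e3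
    unfold Val
    rw [e2, hΛ]
    congr 1
    funext S'
    congr 1
    funext S
    rw [e3, hWd, Multiset.replicate_zero, add_zero]
    congr 1
    rw [Finset.union_assoc, Finset.union_comm (bas h v s')]
  -- the inequality for a fixed set
  have key : ∀ S' : Finset T, (∀ z ∈ S', ∃ j : Fin 3, j ≠ i ∧ (j :: v) <:+ z) →
      (s i).op h c (fun S => Vw x (S ∪ S') (W ∪ (s i).bs h c) A) ≤
      E 0 0 S' - ∑ R ∈ Finset.range (M + 1), ∑ t ∈ Finset.range 4,
        L R t * (E 0 0 S' - E R t S') := by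
    intro S' hS'
    have hS2 : ∀ y ∈ S', ¬ c <:+ y := by
      intro y hy hcy
      obtain ⟨j, hj, hjy⟩ := hS' y hy
      exact hj (c5_suf_eq hjy (hc ▸ hcy))
    have hEnv : Env c (W \ S') (A + (W ∩ S').val) := by
      refine ⟨fun y hy => hW y (Finset.mem_sdiff.mp hy).1, fun y hy => ?_⟩
      rcases Multiset.mem_add.mp hy with hy | hy
      · intro hcy
        exact hE.2 y hy ((List.suffix_cons i v).trans (hc ▸ hcy))
      · exact hW y (Finset.mem_inter.mp hy).1
    have hEx : ∀ m t, Ex x h c (W \ S') (A + (W ∩ S').val) m t = E m t S' := by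
      intro m t
      have e := c5_vw x W (Tt t h c) ∅ S' (A + Multiset.replicate m v) c hW
        (fun y hy => c5_Tt_suf _ _ _ _ hy) (by simp) hS2
      rw [Finset.empty_union, c5_vw_empty] at e
      unfold Ex
      rw [hct, hEd]
      show _ = Vw x S' (W ∪ Tt t h c) (A + Multiset.replicate m v)
      rw [e, wt, if_neg hv, one_pow, one_mul, add_right_comm]
    have hab1 : ∀ B : Finset T, (∀ y ∈ B, c <:+ y) →
        ab h c (fun S => Vw x (S ∪ S') (W ∪ B) A) ≤
        ab h c (fun S => Vw x S ((W \ S') ∪ B) (A + (W ∩ S').val)) := by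
      intro B hB
      apply (h3 h c).1
      intro S hS _
      exact (c5_vw x W B S S' A c hW hB hS hS2).le
    have hcl : ∀ val : ℝ, ∀ L' : ℕ → ℕ → ℝ,
        Claim M x h c (W \ S') (A + (W ∩ S').val) val L' →
        val ≤ E 0 0 S' - ∑ R ∈ Finset.range (M + 1), ∑ t ∈ Finset.range 4,
          L' R t * (E 0 0 S' - E R t S') := by
      intro val L' hcl
      unfold Claim at hcl
      simp only [hEx] at hcl
      linarith
    have hT : ∀ k, 1 ≤ k → k ≤ 3 → ab h c (fun S => Vw x (S ∪ S') (W ∪ Tt k h c) A) ≤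
        E 0 0 S' - ∑ R ∈ Finset.range (M + 1), ∑ t ∈ Finset.range 4,
          P.Tl k R t * (E 0 0 S' - E R t S') := by
      intro k hk1 hk3
      refine (hab1 (Tt k h c) (fun y hy => c5_Tt_suf _ _ _ _ hy)).trans ?_
      exact hcl _ _ (hL.tl k hk1 hk3 x hx0 hx1 c _ _ hcne hEnv)
    rcases hsi : s i with _ | _ | _ | _ | _ | _ | _ | _ | _ | _ | _
    · rw [hsi] at hq; simp [St.quiet] at hq
    · rw [hsi] at hq; simp [St.quiet] at hq
    · have hL2 : L = P.Tl 1 := by rw [hLdef, hsi]; simp [St.ty]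
      rw [hL2]; exact hT 1 (by norm_num) (by norm_num)
    · rw [hsi] at hq; simp [St.quiet] at hq
    · have hL2 : L = P.Tl 2 := by rw [hLdef, hsi]; simp [St.ty]
      rw [hL2]; exact hT 2 (by norm_num) (by norm_num)
    · rw [hsi] at hq; simp [St.quiet] at hq
    · have hL2 : L = P.Tl 3 := by rw [hLdef, hsi]; simp [St.ty]
      rw [hL2]; exact hT 3 (by norm_num) (by norm_num)
    · rw [hsi] at hq; simp [St.quiet] at hq
    · exact absurd hsi hFL
    · have hL2 : L = P.F1 := by rw [hLdef, hsi]; simp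
      rw [hL2]
      refine (hab1 (Zn h c) (fun y hy => c5_Zn_suf _ _ _ hy)).trans ?_
      exact hcl _ _ (hL.f1 x hx0 hx1 c _ _ hcne hEnv)
    · have hL2 : L = P.F2 := by rw [hLdef, hsi]; simp
      rw [hL2]
      refine le_trans ?_ (hcl _ _ (hL.f2 x hx0 hx1 c _ _ hcne hEnv))
      show ab h c (fun S => ab h c (fun S1 => Vw x ((S ∪ S1) ∪ S') (W ∪ Zn h c) A)) ≤ _
      apply (h3 h c).1
      intro S hS _
      apply (h3 h c).1
      intro S1 hS1 _
      refine (c5_vw x W (Zn h c) (S ∪ S1) S' A c hW (fun y hy => c5_Zn_suf _ _ _ hy) ?_ hS2).le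
      intro y hy
      rcases Finset.mem_union.mp hy with hy | hy
      · exact hS y hy
      · exact hS1 y hy
  -- apply the functional
  have hmono := (h4 h v s).2.2.2.2.2.1 i _ _ key
  rw [← hs'] at hmono
  have hlin : Λ (fun S' => E 0 0 S' - ∑ R ∈ Finset.range (M + 1), ∑ t ∈ Finset.range 4,
        L R t * (E 0 0 S' - E R t S')) =
      Λ (E 0 0) - ∑ R ∈ Finset.range (M + 1), ∑ t ∈ Finset.range 4,
        L R t * (Λ (E 0 0) - Λ (E R t)) := by
    have e : (fun S' => E 0 0 S' - ∑ R ∈ Finset.range (M + 1), ∑ t ∈ Finset.range 4,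
        L R t * (E 0 0 S' - E R t S')) =
        E 0 0 - ∑ R ∈ Finset.range (M + 1), ∑ t ∈ Finset.range 4, L R t • (E 0 0 - E R t) := by
      funext S'
      simp [Finset.sum_apply]
    rw [e, map_sub, map_sum]
    congr 1
    apply Finset.sum_congr rfl
    intro R _
    rw [map_sum]
    apply Finset.sum_congr rfl
    intro t _
    rw [map_smul, map_sub, smul_eq_mul]
  have hfin : Val x h v s Z A 0 ≤ Λ (E 0 0) - ∑ R ∈ Finset.range (M + 1),
      ∑ t ∈ Finset.range 4, L R t * (Λ (E 0 0) - Λ (E R t)) := by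
    rw [hs0, ← hlin]
    exact hmono
  rw [← hs', hval0]
  have hsum : ∑ R ∈ Finset.range (M + 1), ∑ t ∈ Finset.range 4,
      L R t * (Λ (E 0 0) - Val x h v (Function.update s i (St.ofT t)) Z A R) =
      ∑ R ∈ Finset.range (M + 1), ∑ t ∈ Finset.range 4, L R t * (Λ (E 0 0) - Λ (E R t)) := by
    apply Finset.sum_congr rfl
    intro R _
    apply Finset.sum_congr rfl
    intro t ht
    rw [hval t (Finset.mem_range.mp ht) R]
  rw [hsum]
  linarith

end Pool.Agent.H80.T3
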