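import Pool.Agent.H80.T3.Stm

/-!
# MP_2b43a6_pr, project T3, row C6: the dead state
-/

set_option autoImplicit false

namespace Pool.Agent.H80.T3

/-- the underlying multisets of two disjoint sets inside a third set -/
theorem C6_val_add_le {P Q R : Finset T} (hd : Disjoint P Q) (hP : P ⊆ R) (hQ : Q ⊆ R) :
    P.val + Q.val ≤ R.val := by
  have h : (Finset.disjUnion P Q hd).val = P.val + Q.val := rfl
  rw [← h]
  refine Finset.val_le_iff.2 ?_
  intro z hz
  rcases Finset.mem_disjUnion.1 hz with h1 | h1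
  · exact hP h1
  · exact hQ h1

/-- the basic comparison: fewer sleeping vertices, fewer woken vertices, fewer awake frogs -/
theorem C6_Vw_le (h2 : SMono) {x : ℝ} (hx0 : 0 ≤ x) (hx1 : x ≤ 1) {Z Z' S S' : Finset T}
    {A A' : Multiset T} (hZ : Z' ⊆ Z) (hS : S' ⊆ S) (hA : A' ≤ A) :
    Vw x S Z A ≤ Vw x S' Z' A' := by
  unfold Vw
  refine h2 x hx0 hx1 (Z' \ S') (Z \ S) ((Z' \ S') ∩ S) (A' + (Z' ∩ S').val)
    (A + (Z ∩ S).val) ?_ ?_ ?_
  · exact Finset.inter_subset_left
  · have hd : Disjoint (Z' ∩ S') ((Z' \ S') ∩ S) := by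
      rw [Finset.disjoint_left]
      intro z hz hz'
      exact (Finset.mem_sdiff.1 (Finset.mem_inter.1 hz').1).2 (Finset.mem_inter.1 hz).2
    have h := C6_val_add_le (R := Z ∩ S) hd
      (fun z hz => Finset.mem_inter.2 ⟨hZ (Finset.mem_inter.1 hz).1, hS (Finset.mem_inter.1 hz).2⟩)
      (fun z hz => Finset.mem_inter.2 ⟨hZ (Finset.mem_sdiff.1 (Finset.mem_inter.1 hz).1).1,
        (Finset.mem_inter.1 hz).2⟩)
    rw [add_assoc]
    exact add_le_add hA h
  · intro z hz
    rw [Finset.mem_sdiff, Finset.mem_inter, Finset.mem_sdiff] at hz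
    obtain ⟨⟨hz1, hz2⟩, hz3⟩ := hz
    refine Finset.mem_sdiff.2 ⟨hZ hz1, fun hzS => hz3 ⟨⟨hz1, hz2⟩, hzS⟩⟩

/-- an average of functions that are at most `k` is at most `k` -/
theorem C6_op_le (h3 : SAb) (h : ℕ) (c : T) (st : St) (f : Finset T → ℝ) (k : ℝ)
    (hf : ∀ S, f S ≤ k) : st.op h c f ≤ k := by
  have hab : ∀ g : Finset T → ℝ, (∀ S, g S ≤ k) → ab h c g ≤ k := by
    intro g hg
    obtain ⟨a1, _, _, a4⟩ := h3 h c
    calc ab h c g ≤ ab h c (fun _ => k) := a1 g (fun _ => k) (fun S _ _ => hg S)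
      _ = k := a4 k
  cases st
  case FL => exact hf _
  case FA => exact hab _ hf
  case V1A => exact hab _ hf
  case V2A => exact hab _ hf
  case V3A => exact hab _ hf
  case FAA => exact hab _ (fun S => hab _ (fun S' => hf _))
  all_goals exact hf _

/-- C6: the values of the states are at most the value of the dead state -/
theorem scd (_h1 : SB01) (h2 : SMono) (h3 : SAb) (h4 : SOps) : SCD := by
  intro x hx0 hx1 h v Z A s N
  constructor
  · obtain ⟨m1, _, _, m4, _⟩ := h4 h v s
    have hEx : Ex x (h + 1) v Z A 0 0 = V x Z A := by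
      have ht : Tt 0 (h + 1) v = ∅ := by
        unfold Tt
        simp
      unfold Ex
      rw [ht]
      simp
    rw [hEx]
    calc Val x h v s Z A N ≤ ops h v s (fun _ => V x Z A) := by
          unfold Val
          refine m1 _ _ (fun S _ => ?_)
          have h0 : Vw x (∅ : Finset T) Z A = V x Z A := by
            unfold Vw
            simp
          rw [← h0]
          exact C6_Vw_le h2 hx0 hx1 Finset.subset_union_left (Finset.empty_subset _)
            (Multiset.le_add_right _ _)
      _ = V x Z A := m4 _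
  · intro i
    obtain ⟨_, _, _, _, m5, _, m7, _⟩ := h4 h v s
    obtain ⟨m1, _⟩ := h4 h v (Function.update s i St.D)
    unfold Val
    rw [m5 i]
    refine m1 _ _ (fun S' _ => ?_)
    refine C6_op_le h3 h (i :: v) (s i) _ _ (fun S => ?_)
    refine C6_Vw_le h2 hx0 hx1 ?_ Finset.subset_union_right ?_
    · rw [m7 i]
      exact Finset.union_subset_union (Finset.Subset.refl _) Finset.subset_union_right
    · simp only [Multiset.replicate_zero, add_zero]
      exact Multiset.le_add_right _ _

end Pool.Agent.H80.T3
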