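import Pool.Agent.H80.T3.Stm

/-!
# MP_2b43a6_pr, project T3, row C7: contexts with one absorbed run
-/

set_option autoImplicit false

namespace Pool.Agent.H80.T3

theorem c7_pB_nonneg (B : Finset (Fin 3)) : 0 ≤ pB B := by
  unfold pB
  split_ifs <;> norm_num

theorem c7_suffix_of_mem_Zn {z : T} : ∀ (h : ℕ) (y : T), z ∈ Zn h y → y <:+ z
  | 0, y, hz => by simp [Zn] at hz
  | h + 1, y, hz => by
    rw [Zn, Finset.mem_insert, Finset.mem_biUnion] at hz
    rcases hz with rfl | ⟨i, _, hi⟩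
    · exact List.suffix_rfl
    · exact (List.suffix_cons i y).trans (c7_suffix_of_mem_Zn h (i :: y) hi)

/-- monotonicity in the woken and the sleeping sets -/
theorem c7_vw_mono (h2 : SMono) {x : ℝ} (hx0 : 0 ≤ x) (hx1 : x ≤ 1) (S1 S2 Z1 Z2 Q : Finset T)
    (A : Multiset T) (hS : S1 ⊆ S2) (hZ : Z1 ⊆ Z2) (hQ : Q ⊆ Z2 ∩ S2) (hd : Disjoint Q Z1) :
    Vw x S2 Z2 A ≤ Vw x S1 Z1 (A + Q.val) := by
  unfold Vw
  refine h2 x hx0 hx1 (Z1 \ S1) (Z2 \ S2) ((Z1 \ S1) ∩ S2) _ _ Finset.inter_subset_left ?_ ?_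
  · have hd1 : Disjoint (Z1 ∩ S1) ((Z1 \ S1) ∩ S2) := by
      rw [Finset.disjoint_left]
      intro a ha hb
      simp only [Finset.mem_inter, Finset.mem_sdiff] at ha hb
      exact hb.1.2 ha.2
    have hd2 : Disjoint Q ((Z1 ∩ S1) ∪ ((Z1 \ S1) ∩ S2)) := by
      refine hd.mono_right ?_
      intro a ha
      simp only [Finset.mem_union, Finset.mem_inter, Finset.mem_sdiff] at ha
      rcases ha with ha | ha
      · exact ha.1
      · exact ha.1.1
    have e : A + Q.val + (Z1 ∩ S1).val + ((Z1 \ S1) ∩ S2).val =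
        A + (Q.disjUnion _ hd2).val := by
      rw [Finset.disjUnion_val]
      have e2 : ((Z1 ∩ S1) ∪ ((Z1 \ S1) ∩ S2)).val =
          (Z1 ∩ S1).val + ((Z1 \ S1) ∩ S2).val := by
        rw [← Finset.disjUnion_eq_union _ _ hd1, Finset.disjUnion_val]
      rw [e2, add_assoc, add_assoc]
    rw [e]
    refine add_le_add_right ?_ A
    rw [Finset.val_le_iff]
    intro a ha
    rw [Finset.mem_disjUnion] at ha
    rcases ha with ha | ha
    · exact hQ ha
    · simp only [Finset.mem_union, Finset.mem_inter, Finset.mem_sdiff] at ha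
      rw [Finset.mem_inter]
      rcases ha with ha | ha
      · exact ⟨hZ ha.1, hS ha.2⟩
      · exact ⟨hZ ha.1.1, ha.2⟩
  · intro a ha
    simp only [Finset.mem_inter, Finset.mem_sdiff, not_and] at ha ⊢
    exact ⟨hZ ha.1.1, fun h => ha.2 ha.1 h⟩

/-- states without pending runs -/
theorem c7_ops_quiet (h : ℕ) (v : T) (s : Fin 3 → St)
    (hs : ∀ j, s j = St.FL ∨ s j = St.F ∨ s j = St.D) :
    ∃ W : Finset T, (∀ z ∈ W, ∃ j, s j = St.FL ∧ z = j :: v) ∧
      ∀ G : Finset T → ℝ, ops h v s G = G W := by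
  refine ⟨(if s 0 = St.FL then {0 :: v} else ∅) ∪ ((if s 1 = St.FL then {1 :: v} else ∅) ∪
    (if s 2 = St.FL then {2 :: v} else ∅)), ?_, ?_⟩
  · intro z hz
    simp only [Finset.mem_union] at hz
    rcases hz with hz | hz | hz
    · split_ifs at hz with hc
      · exact ⟨0, hc, by simpa using hz⟩
      · simp at hz
    · split_ifs at hz with hc
      · exact ⟨1, hc, by simpa using hz⟩
      · simp at hz
    · split_ifs at hz with hc
      · exact ⟨2, hc, by simpa using hz⟩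
      · simp at hz
  · intro G
    unfold ops
    rcases hs 0 with h0 | h0 | h0 <;> rcases hs 1 with h1 | h1 | h1 <;>
      rcases hs 2 with h2 | h2 | h2 <;> rw [h0, h1, h2] <;> simp [St.op]

theorem c7_start_same (k : ℕ) (B : Finset (Fin 3)) (i : Fin 3) :
    (start k [(B, i)] i = St.FA ∧ (i : ℕ) < k) ∨ start k [(B, i)] i = St.D := by
  by_cases hk : (i : ℕ) < k
  · left
    refine ⟨?_, hk⟩
    by_cases hB : i ∈ B <;> simp [start, hk, hB, St.addL, St.addA]
  · right
    by_cases hB : i ∈ B <;> simp [start, hk, hB, St.addL, St.addA]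

theorem c7_start_other (k : ℕ) (B : Finset (Fin 3)) (i j : Fin 3) (hj : j ≠ i) :
    (start k [(B, i)] j = St.FL ∧ j ∈ B ∧ (j : ℕ) < k) ∨
      (start k [(B, i)] j = St.F ∧ (j : ℕ) < k) ∨ start k [(B, i)] j = St.D := by
  by_cases hk : (j : ℕ) < k
  · by_cases hB : j ∈ B
    · left
      simp [start, hk, hB, hj, St.addL]
    · right
      left
      simp [start, hk, hB, hj]
  · right
    right
    by_cases hB : j ∈ B <;> simp [start, hk, hB, hj, St.addL]

theorem c7_bs (h : ℕ) (v : T) (k : ℕ) (B : Finset (Fin 3)) (i j : Fin 3) {z : T}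
    (hz : z ∈ (start k [(B, i)] j).bs h (j :: v)) : (j : ℕ) < k ∧ z ∈ Zn h (j :: v) := by
  by_cases hj : j = i
  · subst hj
    rcases c7_start_same k B j with ⟨h1, h2⟩ | h1
    · rw [h1] at hz
      exact ⟨h2, hz⟩
    · rw [h1] at hz
      simp [St.bs] at hz
  · rcases c7_start_other k B i j hj with ⟨h1, _, h2⟩ | ⟨h1, h2⟩ | h1
    · rw [h1] at hz
      exact ⟨h2, hz⟩
    · rw [h1] at hz
      exact ⟨h2, hz⟩
    · rw [h1] at hz
      simp [St.bs] at hz

theorem c7_bas (h : ℕ) (v : T) (k : ℕ) (B : Finset (Fin 3)) (i : Fin 3) {z : T}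
    (hz : z ∈ bas h v (start k [(B, i)])) : ∃ j : Fin 3, (j : ℕ) < k ∧ z ∈ Zn h (j :: v) := by
  unfold bas at hz
  simp only [Finset.mem_union] at hz
  rcases hz with hz | hz | hz
  · exact ⟨0, c7_bs h v k B i 0 hz⟩
  · exact ⟨1, c7_bs h v k B i 1 hz⟩
  · exact ⟨2, c7_bs h v k B i 2 hz⟩

theorem c7_aux (h2 : SMono) (h3 : SAb) (h4 : SOps) {x : ℝ} (hx0 : 0 ≤ x) (hx1 : x ≤ 1) (h : ℕ)
    (v : T) (Z : Finset T) (A : Multiset T) (hE : Env v Z A) (k : ℕ) (B : Finset (Fin 3))
    (i : Fin 3) (Q Y : Finset T) (N : ℕ) (hQ : Q ⊆ {v}) (hQY : Q ⊆ Y)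
    (hY : bas h v (start k [(B, i)]) ⊆ Y) (hN : Multiset.replicate N v = Q.val) :
    ab h (i :: v) (fun S => Vw x (insert v (ch v B ∪ S)) (Z ∪ Y) A) ≤
      Val x h v (start k [(B, i)]) Z A N := by
  unfold Val
  rw [hN]
  obtain ⟨_, _, _, _, h5, _⟩ := h4 h v (start k [(B, i)])
  rw [h5 i]
  obtain ⟨W, hW, hG⟩ := c7_ops_quiet h v (Function.update (start k [(B, i)]) i St.D) (by
    intro j
    by_cases hj : j = i
    · subst hj
      simp
    · rw [Function.update_of_ne hj]
      rcases c7_start_other k B i j hj with ⟨h1, _⟩ | ⟨h1, _⟩ | h1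
      · exact Or.inl h1
      · exact Or.inr (Or.inl h1)
      · exact Or.inr (Or.inr h1))
  rw [hG]
  have hWB : W ⊆ ch v B := by
    intro z hz
    obtain ⟨j, hj, rfl⟩ := hW z hz
    have hji : j ≠ i := by
      rintro rfl
      simp at hj
    rw [Function.update_of_ne hji] at hj
    rcases c7_start_other k B i j hji with ⟨_, hB, _⟩ | ⟨h1, _⟩ | h1
    · unfold ch
      exact Finset.mem_image_of_mem _ hB
    · rw [h1] at hj
      exact absurd hj (by decide)
    · rw [h1] at hj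
      exact absurd hj (by decide)
  have hdis : Disjoint Q (Z ∪ bas h v (start k [(B, i)])) := by
    rw [Finset.disjoint_left]
    intro a ha hb
    have hav : a = v := by simpa using hQ ha
    subst hav
    rw [Finset.mem_union] at hb
    rcases hb with hb | hb
    · exact hE.1 _ hb List.suffix_rfl
    · obtain ⟨j, _, hj⟩ := c7_bas h a k B i hb
      have := (c7_suffix_of_mem_Zn h _ hj).length_le
      simp at this
  have key : ∀ S : Finset T, ∀ S' : Finset T, S' ⊆ S →
      Vw x (insert v (ch v B ∪ S)) (Z ∪ Y) A ≤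
        Vw x (S' ∪ W) (Z ∪ bas h v (start k [(B, i)])) (A + Q.val) := by
    intro S S' hSS
    refine c7_vw_mono h2 hx0 hx1 _ _ _ _ Q A ?_ ?_ ?_ hdis
    · refine Finset.union_subset ?_ ?_
      · exact hSS.trans (Finset.subset_union_right.trans (Finset.subset_insert _ _))
      · exact hWB.trans (Finset.subset_union_left.trans (Finset.subset_insert _ _))
    · exact Finset.union_subset_union_right hY
    · intro a ha
      rw [Finset.mem_inter]
      refine ⟨Finset.mem_union_right _ (hQY ha), ?_⟩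
      have hav : a = v := by simpa using hQ ha
      rw [hav]
      exact Finset.mem_insert_self _ _
  rcases c7_start_same k B i with ⟨h1, _⟩ | h1
  · rw [h1]
    show _ ≤ ab h (i :: v) _
    refine (h3 h (i :: v)).1 _ _ ?_
    intro S _ _
    exact key S S subset_rfl
  · rw [h1]
    show _ ≤ Vw x (∅ ∪ W) (Z ∪ bas h v (start k [(B, i)])) (A + Q.val)
    rw [← (h3 h (i :: v)).2.2.2 (Vw x (∅ ∪ W) (Z ∪ bas h v (start k [(B, i)])) (A + Q.val))]
    refine (h3 h (i :: v)).1 _ _ ?_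
    intro S _ _
    exact key S ∅ (Finset.empty_subset _)

theorem c7_sum (h : ℕ) (v : T) (G : Finset T → ℝ) (F : Finset (Fin 3) → Fin 3 → ℝ)
    (hF : ∀ B i, ab h (i :: v) (fun S => G (insert v (ch v B ∪ S))) ≤ F B i) :
    ab (h + 1) v G ≤ ∑ B : Finset (Fin 3), pB B * ((1 / 3) * ∑ i : Fin 3, F B i) := by
  show ∑ B : Finset (Fin 3), pB B * ((1 / 3) * ∑ i : Fin 3,
      ab h (i :: v) (fun S => G (insert v (ch v B ∪ S)))) ≤ _
  refine Finset.sum_le_sum fun B _ => ?_
  refine mul_le_mul_of_nonneg_left ?_ (c7_pB_nonneg B)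
  refine mul_le_mul_of_nonneg_left ?_ (by norm_num)
  exact Finset.sum_le_sum fun i _ => hF B i

/-- C7: the contexts, one absorbed run -/
theorem sctx1 (_h1 : SB01) (h2 : SMono) (h3 : SAb) (h4 : SOps) : SCtx1 := by
  intro x hx0 hx1 h hh v Z A hv hE
  refine ⟨?_, ?_⟩
  · refine c7_sum h v _ _ fun B i => ?_
    refine c7_aux h2 h3 h4 hx0 hx1 h v Z A hE 3 B i {v} (Zn (h + 1) v) 1 subset_rfl ?_ ?_ ?_
    · intro a ha
      have hav : a = v := by simpa using ha
      rw [hav, Zn]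
      exact Finset.mem_insert_self _ _
    · intro z hz
      obtain ⟨j, _, hj⟩ := c7_bas h v 3 B i hz
      rw [Zn]
      exact Finset.mem_insert_of_mem (Finset.mem_biUnion.2 ⟨j, Finset.mem_univ _, hj⟩)
    · simp
  · intro k hk
    refine c7_sum h v _ _ fun B i => ?_
    refine c7_aux h2 h3 h4 hx0 hx1 h v Z A hE k B i ∅ (Tt k (h + 1) v) 0 (Finset.empty_subset _)
      (Finset.empty_subset _) ?_ ?_
    · intro z hz
      obtain ⟨j, hjk, hj⟩ := c7_bas h v k B i hz
      unfold Tt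
      refine Finset.mem_biUnion.2 ⟨j, ?_, ?_⟩
      · simpa using hjk
      · simpa using hj
    · simp

end Pool.Agent.H80.T3
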