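import Pool.Agent.H80.T3.Stm

/-!
# MP_2b43a6_pr, project T3: the context with two runs
-/

set_option autoImplicit false

namespace Pool.Agent.H80.T3

theorem c8_pB (B : Finset (Fin 3)) : 0 ≤ pB B := by
  unfold pB
  split_ifs <;> norm_num

theorem c8_Zn (h : ℕ) : ∀ (y z : T), z ∈ Zn h y → y <:+ z := by
  induction h with
  | zero =>
    intro y z hz
    simp [Zn] at hz
  | succ h ih =>
    intro y z hz
    simp only [Zn, Finset.mem_insert, Finset.mem_biUnion, Finset.mem_univ, true_and] at hz
    rcases hz with rfl | ⟨i, hi⟩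
    · exact List.suffix_refl _
    · exact (List.suffix_cons i y).trans (ih _ _ hi)

theorem c8_sum (h3 : SAb) (h : ℕ) (y : T) {ι : Type} (s : Finset ι) (F : ι → Finset T → ℝ) :
    ab h y (fun S => ∑ k ∈ s, F k S) = ∑ k ∈ s, ab h y (F k) := by
  classical
  induction s using Finset.induction_on with
  | empty =>
    simp only [Finset.sum_empty]
    exact (h3 h y).2.2.2 0
  | insert a s ha ih =>
    simp only [Finset.sum_insert ha]
    rw [(h3 h y).2.1 (F a) (fun S => ∑ k ∈ s, F k S), ih]

/-- the sets of a state without pending runs -/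
theorem c8_det (h : ℕ) (v : T) (s : Fin 3 → St) (hs : ∀ j, s j = St.D ∨ s j = St.F ∨ s j = St.FL)
    (G : Finset T → ℝ) :
    ops h v s G = G (ch v (Finset.univ.filter fun j => s j = St.FL)) := by
  have hop : ∀ (j : Fin 3) (c : T) (K : Finset T → ℝ),
      (s j).op h c K = K (if s j = St.FL then {c} else ∅) := by
    intro j c K
    rcases hs j with h1 | h1 | h1 <;> rw [h1] <;> simp [St.op]
  unfold ops
  rw [hop 0, hop 1, hop 2]
  congr 1
  ext z
  have hm : ∀ j : Fin 3, z ∈ (if s j = St.FL then ({j :: v} : Finset T) else ∅) ↔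
      s j = St.FL ∧ j :: v = z := by
    intro j
    split_ifs with h1
    · simp [h1, eq_comm]
    · simp [h1]
  simp only [ch, Finset.mem_union, Finset.mem_image, Finset.mem_filter, Finset.mem_univ, true_and]
  rw [hm 0, hm 1, hm 2]
  constructor
  · rintro (h1 | h1 | h1)
    · exact ⟨0, h1⟩
    · exact ⟨1, h1⟩
    · exact ⟨2, h1⟩
  · rintro ⟨j, hj⟩
    fin_cases j
    · exact Or.inl hj
    · exact Or.inr (Or.inl hj)
    · exact Or.inr (Or.inr hj)

theorem c8_bas (h : ℕ) (v : T) (s : Fin 3 → St)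
    (hs : ∀ j, s j = St.F ∨ s j = St.FL ∨ s j = St.FA ∨ s j = St.FAA) :
    bas h v s = Finset.univ.biUnion fun i : Fin 3 => Zn h (i :: v) := by
  have hbs : ∀ (j : Fin 3) (c : T), (s j).bs h c = Zn h c := by
    intro j c
    rcases hs j with h1 | h1 | h1 | h1 <;> rw [h1] <;> rfl
  unfold bas
  rw [hbs 0, hbs 1, hbs 2]
  ext z
  simp [Fin.exists_fin_succ]

/-- the top is woken -/
theorem c8_top (x : ℝ) (h : ℕ) (v : T) (Z W : Finset T) (A : Multiset T) (hv : v ∉ Z) :
    Vw x (insert v W) (Z ∪ Zn (h + 1) v) A =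
      Vw x W (Z ∪ Finset.univ.biUnion fun i : Fin 3 => Zn h (i :: v))
        (A + Multiset.replicate 1 v) := by
  set U := Finset.univ.biUnion fun i : Fin 3 => Zn h (i :: v) with hU
  have hvU : v ∉ U := by
    intro h1
    rw [hU, Finset.mem_biUnion] at h1
    obtain ⟨i, -, hi⟩ := h1
    have h2 := (c8_Zn h _ _ hi).length_le
    simp at h2
  have hZn : Zn (h + 1) v = insert v U := rfl
  have e1 : (Z ∪ Zn (h + 1) v) \ insert v W = (Z ∪ U) \ W := by
    ext z
    rw [hZn]
    simp only [Finset.mem_sdiff, Finset.mem_union, Finset.mem_insert, not_or]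
    constructor
    · rintro ⟨h1 | h1 | h1, h2, h3⟩
      · exact ⟨Or.inl h1, h3⟩
      · exact absurd h1 h2
      · exact ⟨Or.inr h1, h3⟩
    · rintro ⟨h1 | h1, h2⟩
      · exact ⟨Or.inl h1, fun h3 => hv (h3 ▸ h1), h2⟩
      · exact ⟨Or.inr (Or.inr h1), fun h3 => hvU (h3 ▸ h1), h2⟩
  have e2 : (Z ∪ Zn (h + 1) v) ∩ insert v W = insert v ((Z ∪ U) ∩ W) := by
    ext z
    rw [hZn]
    simp only [Finset.mem_inter, Finset.mem_union, Finset.mem_insert]
    tauto
  have e3 : v ∉ (Z ∪ U) ∩ W := by
    simp only [Finset.mem_inter, Finset.mem_union, not_and]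
    rintro (h1 | h1)
    · exact absurd h1 hv
    · exact absurd h1 hvU
  unfold Vw
  rw [e1, e2, Finset.insert_val_of_notMem e3]
  congr 1
  rw [Multiset.replicate_one, add_assoc, Multiset.singleton_add]

theorem c8_start (B B' : Finset (Fin 3)) (i i' j : Fin 3) :
    start 3 [(B, i), (B', i')] j =
      if j = i then (if j = i' then St.FAA else St.FA) else
        if j = i' then St.FA else if j ∈ B ∨ j ∈ B' then St.FL else St.F := by
  have h3 : (j : ℕ) < 3 := j.isLt
  simp only [start, List.foldr_cons, List.foldr_nil, h3, if_true]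
  by_cases h1 : j = i <;> by_cases h2 : j = i' <;> by_cases h4 : j ∈ B <;>
    by_cases h5 : j ∈ B' <;> simp only [h1, h2, h4, h5, if_true, if_false, or_true,
      or_false, St.addL, St.addA]
  all_goals first
    | rfl
    | (subst h1; simp_all [St.addL])
    | (subst h2; simp_all [St.addA])
    | (subst h1; simp_all [St.addL, St.addA])

/-- comparison of the woken sets -/
theorem c8_set (v : T) (B B' : Finset (Fin 3)) (i i' : Fin 3) (S S' : Finset T)
    (hS : i :: v ∈ S) (hS' : i' :: v ∈ S') :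
    insert v (ch v B ∪ S) ∪ insert v (ch v B' ∪ S') =
      insert v (S ∪ S' ∪ ch v (Finset.univ.filter fun j => j ≠ i ∧ j ≠ i' ∧ (j ∈ B ∨ j ∈ B'))) := by
  ext z
  simp only [ch, Finset.mem_union, Finset.mem_insert, Finset.mem_image, Finset.mem_filter,
    Finset.mem_univ, true_and]
  constructor
  · rintro ((rfl | ⟨j, hj, rfl⟩ | hz) | (rfl | ⟨j, hj, rfl⟩ | hz))
    · exact Or.inl rfl
    · by_cases h1 : j = i
      · subst h1
        exact Or.inr (Or.inl (Or.inl hS))
      · by_cases h2 : j = i'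
        · subst h2
          exact Or.inr (Or.inl (Or.inr hS'))
        · exact Or.inr (Or.inr ⟨j, ⟨h1, h2, Or.inl hj⟩, rfl⟩)
    · exact Or.inr (Or.inl (Or.inl hz))
    · exact Or.inl rfl
    · by_cases h1 : j = i
      · subst h1
        exact Or.inr (Or.inl (Or.inl hS))
      · by_cases h2 : j = i'
        · subst h2
          exact Or.inr (Or.inl (Or.inr hS'))
        · exact Or.inr (Or.inr ⟨j, ⟨h1, h2, Or.inr hj⟩, rfl⟩)
    · exact Or.inr (Or.inl (Or.inr hz))
  · rintro (rfl | (hz | hz) | ⟨j, ⟨-, -, hj | hj⟩, rfl⟩)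
    · exact Or.inl (Or.inl rfl)
    · exact Or.inl (Or.inr (Or.inr hz))
    · exact Or.inr (Or.inr (Or.inr hz))
    · exact Or.inl (Or.inr (Or.inl ⟨j, hj, rfl⟩))
    · exact Or.inr (Or.inr (Or.inl ⟨j, hj, rfl⟩))

/-- the value of the start state -/
theorem c8_val (h3 : SAb) (h4 : SAbC) (h5 : SOps) (x : ℝ) (h : ℕ) (v : T) (Z : Finset T)
    (A : Multiset T) (B B' : Finset (Fin 3)) (i i' : Fin 3) :
    Val x h v (start 3 [(B, i), (B', i')]) Z A 1 =
      ab h (i :: v) (fun S => ab h (i' :: v) (fun S' =>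
        Vw x (S ∪ S' ∪ ch v (Finset.univ.filter fun j => j ≠ i ∧ j ≠ i' ∧ (j ∈ B ∨ j ∈ B')))
          (Z ∪ Finset.univ.biUnion fun i : Fin 3 => Zn h (i :: v))
          (A + Multiset.replicate 1 v))) := by
  set s := start 3 [(B, i), (B', i')] with hs
  have hst : ∀ j, s j = if j = i then (if j = i' then St.FAA else St.FA) else
      if j = i' then St.FA else if j ∈ B ∨ j ∈ B' then St.FL else St.F :=
    fun j => c8_start B B' i i' j
  have hbas := c8_bas h v s (by
    intro j
    rw [hst j]
    split_ifs <;> simp)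
  unfold Val
  rw [hbas]
  generalize (Z ∪ Finset.univ.biUnion fun i : Fin 3 => Zn h (i :: v)) = Y
  generalize A + Multiset.replicate 1 v = A'
  rw [(h5 h v s).2.2.2.2.1 i]
  by_cases hii : i = i'
  · subst hii
    have h6 : s i = St.FAA := by
      rw [hst i]
      simp
    rw [c8_det h v (Function.update s i St.D) (by
      intro j
      by_cases h7 : j = i
      · subst h7
        simp
      · rw [Function.update_of_ne h7, hst j]
        simp only [h7, if_false]
        split_ifs <;> simp)]
    rw [h6]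
    have h8 : (Finset.univ.filter fun j => Function.update s i St.D j = St.FL) =
        Finset.univ.filter fun j => j ≠ i ∧ j ≠ i ∧ (j ∈ B ∨ j ∈ B') := by
      ext j
      simp only [Finset.mem_filter, Finset.mem_univ, true_and]
      by_cases h7 : j = i
      · subst h7
        simp
      · rw [Function.update_of_ne h7, hst j]
        simp only [h7, if_false, ne_eq, not_false_eq_true, true_and]
        by_cases h9 : j ∈ B ∨ j ∈ B' <;> simp [h9]
    rw [h8]
    rfl
  · have h6 : s i = St.FA := by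
      rw [hst i]
      simp [hii]
    have h7 : s i' = St.FA := by
      rw [hst i']
      simp [Ne.symm hii]
    rw [(h5 h v (Function.update s i St.D)).2.2.2.2.1 i']
    rw [c8_det h v (Function.update (Function.update s i St.D) i' St.D) (by
      intro j
      by_cases h9 : j = i'
      · subst h9
        simp
      · rw [Function.update_of_ne h9]
        by_cases h10 : j = i
        · subst h10
          simp
        · rw [Function.update_of_ne h10, hst j]
          simp only [h9, h10, if_false]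
          split_ifs <;> simp)]
    rw [Function.update_of_ne (Ne.symm hii), h6, h7]
    have h8 : (Finset.univ.filter fun j =>
        Function.update (Function.update s i St.D) i' St.D j = St.FL) =
        Finset.univ.filter fun j => j ≠ i ∧ j ≠ i' ∧ (j ∈ B ∨ j ∈ B') := by
      ext j
      simp only [Finset.mem_filter, Finset.mem_univ, true_and]
      by_cases h9 : j = i'
      · subst h9
        simp
      · rw [Function.update_of_ne h9]
        by_cases h10 : j = i
        · subst h10
          simp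
        · rw [Function.update_of_ne h10, hst j]
          simp only [h9, h10, if_false, ne_eq, not_false_eq_true, true_and]
          by_cases h11 : j ∈ B ∨ j ∈ B' <;> simp [h11]
    rw [h8]
    show ab h (i' :: v) (fun S' => ab h (i :: v) (fun S => Vw x (S ∪ (S' ∪ _)) Y A')) = _
    rw [h4.1 h h (i' :: v) (i :: v) (fun S' S => Vw x (S ∪ (S' ∪ _)) Y A')]
    congr 1
    funext S
    congr 1
    funext S'
    rw [Finset.union_assoc]

theorem sctx2 (_h1 : SB01) (_h2 : SMono) (h3 : SAb) (h4 : SAbC) (h5 : SOps) : SCtx2 := by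
  intro x _hx0 _hx1 h hh v Z A _hv hE
  have hvZ : v ∉ Z := fun hvZ => hE.1 v hvZ (List.suffix_refl v)
  simp only [ab]
  refine Finset.sum_le_sum fun B _ => ?_
  refine mul_le_mul_of_nonneg_left ?_ (c8_pB B)
  refine mul_le_mul_of_nonneg_left ?_ (by norm_num)
  refine Finset.sum_le_sum fun i _ => ?_
  have e1 : ab h (i :: v) (fun S => ∑ B' : Finset (Fin 3), pB B' * ((1 / 3) * ∑ i' : Fin 3,
      ab h (i' :: v) (fun S' => Vw x (insert v (ch v B ∪ S) ∪ insert v (ch v B' ∪ S'))
        (Z ∪ Zn (h + 1) v) A))) =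
      ∑ B' : Finset (Fin 3), pB B' * ((1 / 3) * ∑ i' : Fin 3,
        ab h (i :: v) (fun S => ab h (i' :: v) (fun S' =>
          Vw x (insert v (ch v B ∪ S) ∪ insert v (ch v B' ∪ S')) (Z ∪ Zn (h + 1) v) A))) := by
    rw [c8_sum h3 h (i :: v) Finset.univ (fun B' S => pB B' * ((1 / 3) * ∑ i' : Fin 3,
      ab h (i' :: v) (fun S' => Vw x (insert v (ch v B ∪ S) ∪ insert v (ch v B' ∪ S'))
        (Z ∪ Zn (h + 1) v) A)))]
    refine Finset.sum_congr rfl fun B' _ => ?_
    rw [(h3 h (i :: v)).2.2.1, (h3 h (i :: v)).2.2.1]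
    rw [c8_sum h3 h (i :: v) Finset.univ (fun i' S =>
      ab h (i' :: v) (fun S' => Vw x (insert v (ch v B ∪ S) ∪ insert v (ch v B' ∪ S'))
        (Z ∪ Zn (h + 1) v) A))]
  rw [e1]
  refine Finset.sum_le_sum fun B' _ => ?_
  refine mul_le_mul_of_nonneg_left ?_ (c8_pB B')
  refine mul_le_mul_of_nonneg_left ?_ (by norm_num)
  refine Finset.sum_le_sum fun i' _ => ?_
  rw [c8_val h3 h4 h5]
  refine (h3 h (i :: v)).1 _ _ fun S _ hS => ?_
  refine (h3 h (i' :: v)).1 _ _ fun S' _ hS' => ?_
  rw [c8_set v B B' i i' S S' (hS hh) (hS' hh), c8_top x h v Z _ A hvZ]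

end Pool.Agent.H80.T3
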