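import Pool.Agent.H80.T3.C9a

/-!
# MP_2b43a6_pr, project T3, row C9: soundness of tables
-/

set_option autoImplicit false

namespace Pool.Agent.H80.T3

/-! ### the order -/

/-- the rank of a state -/
def c9R (s : Fin 3 → St) : ℕ := ∑ i, (s i).ty

/-- the last component of the order -/
def c9f (s : Fin 3 → St) (N : ℕ) : ℕ :=
  if N = 0 then (Finset.univ.filter fun i => (s i).quiet = false).card
  else (Finset.univ.filter fun i => s i = St.F).card

theorem c9f_le (s : Fin 3 → St) (N : ℕ) : c9f s N ≤ 3 := by
  unfold c9f
  split_ifs <;> exact (Finset.card_le_univ _).trans (by simp)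

theorem c9R_update (s : Fin 3 → St) (i : Fin 3) (a : St) :
    c9R (Function.update s i a) + (s i).ty = c9R s + a.ty := by
  unfold c9R
  fin_cases i <;> simp [Fin.sum_univ_three, Function.update] <;> ring

theorem c9_card {p : St → Prop} [DecidablePred p] (s : Fin 3 → St) (i : Fin 3) (a : St)
    (h1 : p (s i)) (h2 : ¬ p a) :
    (Finset.univ.filter fun j => p (Function.update s i a j)).card <
      (Finset.univ.filter fun j => p (s j)).card := by
  refine Finset.card_lt_card ((Finset.ssubset_iff_of_subset ?_).2 ⟨i, by simp [h1], by simp [h2]⟩)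
  intro j hj
  rw [Finset.mem_filter] at hj ⊢
  refine ⟨Finset.mem_univ _, ?_⟩
  by_cases hji : j = i
  · subst hji
    exact h1
  · simpa [hji] using hj.2

theorem c9_lt {M r r' N N' f f' : ℕ} (hN' : N' ≤ M) (hf' : f' ≤ 3)
    (h : r' < r ∨ (r' = r ∧ (N' < N ∨ (N' = N ∧ f' < f)))) :
    (r' * (M + 1) + N') * 4 + f' < (r * (M + 1) + N) * 4 + f := by
  rcases h with h | ⟨rfl, h | ⟨rfl, h⟩⟩
  · have h1 : (r' + 1) * (M + 1) ≤ r * (M + 1) := Nat.mul_le_mul_right _ h
    rw [add_mul, one_mul] at h1
    omega
  · omega
  · omega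

theorem c9_addA (a : St) : a.addA.ty = a.ty := by cases a <;> rfl

theorem c9_ofT (t : ℕ) (ht : t < 4) : (St.ofT t).ty = t ∧ (St.ofT t).quiet = true := by
  interval_cases t <;> exact ⟨rfl, rfl⟩

theorem c9_quiet {a : St} {p1 p2 p3 : Prop} {p4 : ℕ → Prop}
    (h : (a = St.FL ∧ p1) ∨ (a = St.FA ∧ p2) ∨ (a = St.FAA ∧ p3) ∨
      ∃ k, 1 ≤ k ∧ k ≤ 3 ∧ a.ty = k ∧ a.quiet = false ∧ p4 k) : a.quiet = false := by
  rcases h with ⟨rfl, -⟩ | ⟨rfl, -⟩ | ⟨rfl, -⟩ | ⟨k, -, -, -, h, -⟩
  · rfl
  · rfl
  · rfl
  · exact h

/-- C9: soundness of tables (`1 ≤ M` is needed) -/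
def SSound1 : Prop := ∀ (M h : ℕ) (P : Laws) (X : (Fin 3 → St) → ℕ → ℕ → ℕ → ℝ), 1 ≤ M →
  1 ≤ h → Lev M h P → Tab M P X → ∀ x : ℝ, 0 ≤ x → x ≤ 1 → ∀ (v : T) (Z : Finset T)
    (A : Multiset T), v ≠ [] → Env v Z A → ∀ (s : Fin 3 → St) (N : ℕ), N ≤ M →
      Claim M x (h + 1) v Z A (Val x h v s Z A N) (X s N)

/-- C9: soundness of tables -/
theorem ssound1 (_h1 : SB01) (h2 : SEx) (h3 : SCFin) (h4 : SCFrog) (h5 : SCFL) (h6 : SCProc)
    (h7 : SCD) : SSound1 := by
  intro M h P X hM hh hP hX x x0 x1 v Z A hv hE s N hN
  obtain ⟨n, hn⟩ : ∃ n, (c9R s * (M + 1) + N) * 4 + c9f s N = n := ⟨_, rfl⟩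
  induction n using Nat.strong_induction_on generalizing s N Z A with
  | _ n ih =>
    have key : ∀ (Z : Finset T) (A : Multiset T), Env v Z A → ∀ (s' : Fin 3 → St) (N' : ℕ),
        N' ≤ M → (c9R s' < c9R s ∨ (c9R s' = c9R s ∧ (N' < N ∨ (N' = N ∧ c9f s' N' < c9f s N)))) →
        Claim M x (h + 1) v Z A (Val x h v s' Z A N') (X s' N') := fun Z A hE s' N' hN' hlt =>
      ih _ (hn ▸ c9_lt hN' (c9f_le s' N') hlt) Z A hE s' N' hN' rfl
    clear ih
    rcases N with _ | N
    · by_cases hs : ∀ i, (s i).quiet = true
      · exact c9_fin h2 h3 hh hX x0 x1 hv hE hs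
      · have hs' : ∃ i, (s i).quiet = false := by
          push Not at hs
          obtain ⟨i, hi⟩ := hs
          exact ⟨i, by simpa using hi⟩
        obtain ⟨i, hi⟩ := hX.proc s hs'
        have r := c9R_update s i
        have i1 : ∀ k, (s i).ty = k → k ≤ 4 → ∀ R t', R ≤ M → t' < k →
            Claim M x (h + 1) v Z A (Val x h v (Function.update s i (St.ofT t')) Z A R)
              (X (Function.update s i (St.ofT t')) R) := by
          intro k hk hk4 R t' hR ht'
          refine key Z A hE _ R hR (Or.inl ?_)
          have r1 := r (St.ofT t')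
          have r2 := (c9_ofT t' (by omega)).1
          omega
        have i0 : ∀ {k : ℕ}, (s i).quiet = false → (s i).ty = k → (St.ofT k).ty = k → k < 4 →
            Claim M x (h + 1) v Z A (Val x h v (Function.update s i (St.ofT k)) Z A 0)
              (X (Function.update s i (St.ofT k)) 0) := by
          intro k hq hk hk' hk4
          refine key Z A hE _ 0 (Nat.zero_le _) (Or.inr ⟨?_, Or.inr ⟨rfl, ?_⟩⟩)
          · have r1 := r (St.ofT k)
            omega
          · have := c9_card (p := fun a => a.quiet = false) s i (St.ofT k) hq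
              (by rw [(c9_ofT k hk4).2]; decide)
            simpa [c9f] using this
        have hc := fun hq hFL => h6 M h P hh hP x x0 x1 v Z A hv hE s i hq hFL _ rfl
        cases hsi : s i with
        | FL =>
          refine c9_FL h2 h5 hh x0 x1 hv hE hsi (fun m t hm ht => ?_) ?_ ?_
          · rcases hi m t hm ht with hh | hh | hh | ⟨k, k1, k3, hk, -⟩
            · exact hh.2
            · exact absurd (hsi.symm.trans hh.1) (by decide)
            · exact absurd (hsi.symm.trans hh.1) (by decide)
            · rw [hsi] at hk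
              simp only [St.ty] at hk
              omega
          · refine key Z A hE _ 0 (Nat.zero_le _) (Or.inl ?_)
            have r1 := r St.V3A
            rw [hsi] at r1
            simp only [St.ty] at r1
            omega
          · refine key Z A hE _ 1 hM (Or.inl ?_)
            have r1 := r St.V3
            rw [hsi] at r1
            simp only [St.ty] at r1
            omega
        | FA =>
          have hc1 := hc (by rw [hsi]; rfl) (by rw [hsi]; decide)
          rw [if_pos hsi] at hc1
          refine c9_F h2 h7 x0 x1 hP.l1 (fun m t hm ht => ?_) (i1 4 (by rw [hsi]; rfl) le_rfl) hc1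
          rcases hi m t hm ht with hh | hh | hh | ⟨k, k1, k3, hk, -⟩
          · exact absurd (hsi.symm.trans hh.1) (by decide)
          · exact hh.2
          · exact absurd (hsi.symm.trans hh.1) (by decide)
          · rw [hsi] at hk
            simp only [St.ty] at hk
            omega
        | FAA =>
          have hc1 := hc (by rw [hsi]; rfl) (by rw [hsi]; decide)
          rw [if_neg (by rw [hsi]; decide), if_pos hsi] at hc1
          refine c9_F h2 h7 x0 x1 hP.l2 (fun m t hm ht => ?_) (i1 4 (by rw [hsi]; rfl) le_rfl) hc1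
          rcases hi m t hm ht with hh | hh | hh | ⟨k, k1, k3, hk, -⟩
          · exact absurd (hsi.symm.trans hh.1) (by decide)
          · exact absurd (hsi.symm.trans hh.1) (by decide)
          · exact hh.2
          · rw [hsi] at hk
            simp only [St.ty] at hk
            omega
        | V1A =>
          have hc1 := hc (by rw [hsi]; rfl) (by rw [hsi]; decide)
          rw [if_neg (by rw [hsi]; decide), if_neg (by rw [hsi]; decide), hsi] at hc1
          refine c9_V (k := 1) h2 h7 x0 x1 (hP.lt 1) (by norm_num) (fun m t hm ht => ?_)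
            (i0 (by rw [hsi]; rfl) (by rw [hsi]; rfl) rfl (by norm_num))
            (i1 1 (by rw [hsi]; rfl) (by norm_num)) hc1
          rcases hi m t hm ht with hh | hh | hh | ⟨k, k1, k3, hk, -, hh⟩
          · exact absurd (hsi.symm.trans hh.1) (by decide)
          · exact absurd (hsi.symm.trans hh.1) (by decide)
          · exact absurd (hsi.symm.trans hh.1) (by decide)
          · rw [hsi] at hk
            simp only [St.ty] at hk
            subst hk
            exact hh
        | V2A =>
          have hc1 := hc (by rw [hsi]; rfl) (by rw [hsi]; decide)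
          rw [if_neg (by rw [hsi]; decide), if_neg (by rw [hsi]; decide), hsi] at hc1
          refine c9_V (k := 2) h2 h7 x0 x1 (hP.lt 2) (by norm_num) (fun m t hm ht => ?_)
            (i0 (by rw [hsi]; rfl) (by rw [hsi]; rfl) rfl (by norm_num))
            (i1 2 (by rw [hsi]; rfl) (by norm_num)) hc1
          rcases hi m t hm ht with hh | hh | hh | ⟨k, k1, k3, hk, -, hh⟩
          · exact absurd (hsi.symm.trans hh.1) (by decide)
          · exact absurd (hsi.symm.trans hh.1) (by decide)
          · exact absurd (hsi.symm.trans hh.1) (by decide)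
          · rw [hsi] at hk
            simp only [St.ty] at hk
            subst hk
            exact hh
        | V3A =>
          have hc1 := hc (by rw [hsi]; rfl) (by rw [hsi]; decide)
          rw [if_neg (by rw [hsi]; decide), if_neg (by rw [hsi]; decide), hsi] at hc1
          refine c9_V (k := 3) h2 h7 x0 x1 (hP.lt 3) (by norm_num) (fun m t hm ht => ?_)
            (i0 (by rw [hsi]; rfl) (by rw [hsi]; rfl) rfl (by norm_num))
            (i1 3 (by rw [hsi]; rfl) (by norm_num)) hc1
          rcases hi m t hm ht with hh | hh | hh | ⟨k, k1, k3, hk, -, hh⟩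
          · exact absurd (hsi.symm.trans hh.1) (by decide)
          · exact absurd (hsi.symm.trans hh.1) (by decide)
          · exact absurd (hsi.symm.trans hh.1) (by decide)
          · rw [hsi] at hk
            simp only [St.ty] at hk
            subst hk
            exact hh
        | D => exact absurd (c9_quiet (hi 0 0 (Nat.zero_le _) (by norm_num))) (by rw [hsi]; decide)
        | V1 => exact absurd (c9_quiet (hi 0 0 (Nat.zero_le _) (by norm_num))) (by rw [hsi]; decide)
        | V2 => exact absurd (c9_quiet (hi 0 0 (Nat.zero_le _) (by norm_num))) (by rw [hsi]; decide)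
        | V3 => exact absurd (c9_quiet (hi 0 0 (Nat.zero_le _) (by norm_num))) (by rw [hsi]; decide)
        | F => exact absurd (c9_quiet (hi 0 0 (Nat.zero_le _) (by norm_num))) (by rw [hsi]; decide)
    · refine c9_frog h2 h4 hh hX x0 x1 hv hE hN ?_ (fun i => ?_) (fun i hi => ?_)
      · exact key Z _ (c9_env hv hE) s N (by omega) (Or.inr ⟨rfl, Or.inl (Nat.lt_succ_self _)⟩)
      · refine key Z A hE _ N (by omega) (Or.inr ⟨?_, Or.inl (Nat.lt_succ_self _)⟩)
        have r1 := c9R_update s i (s i).addA
        rw [c9_addA] at r1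
        omega
      · refine key Z A hE _ (N + 1) hN (Or.inr ⟨?_, Or.inr ⟨rfl, ?_⟩⟩)
        · have r1 := c9R_update s i St.FL
          rw [hi] at r1
          simp only [St.ty] at r1
          omega
        · have := c9_card (p := fun a => a = St.F) s i St.FL hi (by decide)
          simpa [c9f] using this

end Pool.Agent.H80.T3
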