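import Pool.Agent.H80.T3.Stm

/-!
# MP_2b43a6_pr, project T3, row C9: soundness of tables, the steps
-/

set_option autoImplicit false

namespace Pool.Agent.H80.T3

/-- the double sum -/
noncomputable def c9S (M : ℕ) (L G : ℕ → ℕ → ℝ) : ℝ :=
  ∑ m ∈ Finset.range (M + 1), ∑ t ∈ Finset.range 4, L m t * G m t

theorem c9S_le {M : ℕ} {L L' G : ℕ → ℕ → ℝ} (hG : ∀ m t, 0 ≤ G m t)
    (h : ∀ m t, m ≤ M → t < 4 → L m t ≤ L' m t) : c9S M L G ≤ c9S M L' G :=
  Finset.sum_le_sum fun m hm => Finset.sum_le_sum fun t ht =>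
    mul_le_mul_of_nonneg_right
      (h m t (Nat.lt_succ_iff.1 (Finset.mem_range.1 hm)) (Finset.mem_range.1 ht)) (hG m t)

theorem c9S_add (M : ℕ) (L L' G : ℕ → ℕ → ℝ) :
    c9S M (fun m t => L m t + L' m t) G = c9S M L G + c9S M L' G := by
  simp only [c9S, add_mul, Finset.sum_add_distrib]

theorem c9S_smul (M : ℕ) (c : ℝ) (L G : ℕ → ℕ → ℝ) :
    c9S M (fun m t => c * L m t) G = c * c9S M L G := by
  simp only [c9S, Finset.mul_sum, mul_assoc]

theorem c9S_zero (M : ℕ) (G : ℕ → ℕ → ℝ) : c9S M (fun _ _ => 0) G = 0 := by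
  simp [c9S]

theorem c9S_fsum {ι : Type} (M : ℕ) (s : Finset ι) (L : ι → ℕ → ℕ → ℝ) (G : ℕ → ℕ → ℝ) :
    c9S M (fun m t => ∑ i ∈ s, L i m t) G = ∑ i ∈ s, c9S M (L i) G := by
  simp only [c9S, Finset.sum_mul]
  rw [show (∑ m ∈ Finset.range (M + 1), ∑ t ∈ Finset.range 4, ∑ i ∈ s, L i m t * G m t) =
    ∑ m ∈ Finset.range (M + 1), ∑ i ∈ s, ∑ t ∈ Finset.range 4, L i m t * G m t from
    Finset.sum_congr rfl fun m _ => Finset.sum_comm]
  rw [Finset.sum_comm]

theorem c9S_shf {M : ℕ} {L G : ℕ → ℕ → ℝ} (hL : ∀ m t, 0 ≤ L m t)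
    (hG : ∀ m t, G m t ≤ G (m + 1) t) :
    c9S M (shf M L) G ≤ c9S M L (fun m t => G (m + 1) t) := by
  have e : ∀ A B : ℕ → ℕ → ℝ, c9S M A B =
      ∑ t ∈ Finset.range 4, ∑ m ∈ Finset.range (M + 1), A m t * B m t := fun A B => by
    rw [c9S, Finset.sum_comm]
  rw [e, e]
  refine Finset.sum_le_sum fun t _ => ?_
  have h1 : ∑ m ∈ Finset.range (M + 1), shf M L m t * G m t =
      ∑ m ∈ Finset.range M, L m t * G (m + 1) t + L M t * G M t := by
    simp only [shf, add_mul, Finset.sum_add_distrib]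
    congr 1
    · rw [Finset.sum_range_succ']
      simp
    · simp only [ite_mul, zero_mul]
      rw [Finset.sum_ite_eq' (Finset.range (M + 1)) M (fun m => L M t * G m t)]
      simp
  rw [h1, Finset.sum_range_succ]
  have := mul_le_mul_of_nonneg_left (hG M t) (hL M t)
  linarith

/-- the claim as a statement on the double sum -/
theorem c9_claim {M h : ℕ} {x : ℝ} {v : T} {Z : Finset T} {A : Multiset T} {val : ℝ}
    {L : ℕ → ℕ → ℝ} : Claim M x h v Z A val L ↔
    c9S M L (fun m t => Ex x h v Z A 0 0 - Ex x h v Z A m t) ≤ Ex x h v Z A 0 0 - val :=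
  Iff.rfl

theorem c9_wt {x : ℝ} (x0 : 0 ≤ x) (y : T) : 0 ≤ wt x y := by
  unfold wt
  split_ifs
  · exact x0
  · exact zero_le_one

theorem c9_Ex_succ (x : ℝ) (h : ℕ) (v : T) (Z : Finset T) (A : Multiset T) (m t : ℕ) :
    Ex x h v Z A (m + 1) t = wt x v.tail * Ex x h v Z (v.tail ::ₘ A) m t := by
  have e : A + Multiset.replicate (m + 1) v.tail =
      (v.tail ::ₘ A) + Multiset.replicate m v.tail := by
    rw [Multiset.replicate_succ, Multiset.add_cons, Multiset.cons_add]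
  rw [Ex, Ex, e, pow_succ]
  ring

theorem c9_env {v : T} (hv : v ≠ []) {Z : Finset T} {A : Multiset T} (hE : Env v Z A) :
    Env v Z (v.tail ::ₘ A) := by
  refine ⟨hE.1, fun y hy => ?_⟩
  rcases Multiset.mem_cons.1 hy with rfl | hy
  · intro h
    have h1 := h.length_le
    rw [List.length_tail] at h1
    have h2 : 0 < v.length := List.length_pos_iff.2 hv
    omega
  · exact hE.2 y hy

section

variable {M h : ℕ} {P : Laws} {X : (Fin 3 → St) → ℕ → ℕ → ℕ → ℝ} {x : ℝ} {v : T}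
  {Z : Finset T} {A : Multiset T}

theorem c9_G (h2 : SEx) (x0 : 0 ≤ x) (x1 : x ≤ 1) (h : ℕ) (v : T) (Z : Finset T)
    (A : Multiset T) (m t : ℕ) : 0 ≤ Ex x h v Z A 0 0 - Ex x h v Z A m t :=
  sub_nonneg.2 (h2 x x0 x1 h v Z A 0 m 0 t (Nat.zero_le _) (Nat.zero_le _))

theorem c9_frog (h2 : SEx) (h4 : SCFrog) (hh : 1 ≤ h) (hX : Tab M P X) (x0 : 0 ≤ x) (x1 : x ≤ 1)
    (hv : v ≠ []) (hE : Env v Z A) {s : Fin 3 → St} {N : ℕ} (hN : N + 1 ≤ M)
    (i1 : Claim M x (h + 1) v Z (v.tail ::ₘ A) (Val x h v s Z (v.tail ::ₘ A) N) (X s N))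
    (i2 : ∀ i, Claim M x (h + 1) v Z A (Val x h v (Function.update s i (s i).addA) Z A N)
      (X (Function.update s i (s i).addA) N))
    (i3 : ∀ i, s i = St.F → Claim M x (h + 1) v Z A
      (Val x h v (Function.update s i St.FL) Z A (N + 1))
      (X (Function.update s i St.FL) (N + 1))) :
    Claim M x (h + 1) v Z A (Val x h v s Z A (N + 1)) (X s (N + 1)) := by
  rw [c9_claim] at i1 ⊢
  set E := Ex x (h + 1) v Z A 0 0 with hEd
  set G : ℕ → ℕ → ℝ := fun m t => E - Ex x (h + 1) v Z A m t with hG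
  have G0 : ∀ m t, 0 ≤ G m t := fun m t => c9_G h2 x0 x1 (h + 1) v Z A m t
  obtain ⟨L0, Lm⟩ := hX.law s N (by omega)
  -- the exit
  have a1 : c9S M (shf M (X s N)) G ≤ E - wt x v.tail * Val x h v s Z (v.tail ::ₘ A) N := by
    refine (c9S_shf L0 fun m t => ?_).trans ?_
    · exact sub_le_sub_left (h2 x x0 x1 (h + 1) v Z A m (m + 1) t t (Nat.le_succ _) le_rfl) _
    · have w0 := c9_wt x0 v.tail
      have e1 : c9S M (X s N) (fun m t => G (m + 1) t) =
          wt x v.tail * c9S M (X s N) (fun m t => Ex x (h + 1) v Z (v.tail ::ₘ A) 0 0 -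
            Ex x (h + 1) v Z (v.tail ::ₘ A) m t) +
          (∑ m ∈ Finset.range (M + 1), ∑ t ∈ Finset.range 4, X s N m t) *
            (E - wt x v.tail * Ex x (h + 1) v Z (v.tail ::ₘ A) 0 0) := by
        simp only [c9S, Finset.mul_sum, Finset.sum_mul, ← Finset.sum_add_distrib]
        refine Finset.sum_congr rfl fun m _ => Finset.sum_congr rfl fun t _ => ?_
        simp only [hG, c9_Ex_succ]
        ring
      have e2 : 0 ≤ E - wt x v.tail * Ex x (h + 1) v Z (v.tail ::ₘ A) 0 0 := by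
        have := c9_G h2 x0 x1 (h + 1) v Z A 1 0
        rwa [show (1 : ℕ) = 0 + 1 from rfl, c9_Ex_succ] at this
      have e3 := mul_le_mul_of_nonneg_right Lm e2
      have e4 := mul_le_mul_of_nonneg_left i1 w0
      rw [e1]
      linarith
  -- the inequality of the table
  have c0 : (0 : ℝ) < 9 + nF s := by positivity
  have a2 : c9S M (fun m t => (9 + (nF s : ℝ)) * X s (N + 1) m t) G ≤
      c9S M (fun m t => (3 * shf M (X s N) m t +
        2 * ∑ i : Fin 3, X (Function.update s i (s i).addA) N m t) +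
        ∑ i : Fin 3, if s i = St.F then X (Function.update s i St.FL) (N + 1) m t else 0) G :=
    c9S_le G0 fun m t hm ht => hX.frog s N hN m t hm ht
  rw [c9S_smul, c9S_add, c9S_add, c9S_smul, c9S_smul, c9S_fsum, c9S_fsum] at a2
  have a3 : ∑ i : Fin 3, c9S M (X (Function.update s i (s i).addA) N) G ≤
      ∑ i : Fin 3, (E - Val x h v (Function.update s i (s i).addA) Z A N) :=
    Finset.sum_le_sum fun i _ => i2 i
  have a4 : ∑ i : Fin 3, c9S M (fun m t => if s i = St.F then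
      X (Function.update s i St.FL) (N + 1) m t else 0) G ≤
      ∑ i : Fin 3, if s i = St.F then E - Val x h v (Function.update s i St.FL) Z A (N + 1)
        else 0 := by
    refine Finset.sum_le_sum fun i _ => ?_
    by_cases hi : s i = St.F
    · simp only [hi, if_true]
      exact i3 i hi
    · simp only [hi, if_false]
      exact (c9S_zero M G).le
  have a5 : (∑ i : Fin 3, if s i = St.F then
      E - Val x h v (Function.update s i St.FL) Z A (N + 1) else 0) = (nF s : ℝ) * E -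
      ∑ i : Fin 3, if s i = St.F then Val x h v (Function.update s i St.FL) Z A (N + 1) else 0 := by
    have : (nF s : ℝ) * E = ∑ i : Fin 3, if s i = St.F then E else 0 := by
      rw [nF, ← Finset.sum_filter, Finset.sum_const, nsmul_eq_mul]
    rw [this, ← Finset.sum_sub_distrib]
    refine Finset.sum_congr rfl fun i _ => ?_
    split_ifs <;> simp
  have a6 := h4 x x0 x1 h hh v Z A hv hE s N
  have a7 : ∑ i : Fin 3, (E - Val x h v (Function.update s i (s i).addA) Z A N) =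
      3 * E - ∑ i : Fin 3, Val x h v (Function.update s i (s i).addA) Z A N := by
    rw [Finset.sum_sub_distrib]
    simp
  rw [a7] at a3
  rw [a5] at a4
  have a8 : (9 + (nF s : ℝ)) * c9S M (X s (N + 1)) G ≤
      (9 + (nF s : ℝ)) * (E - Val x h v s Z A (N + 1)) := by
    have : (9 + (nF s : ℝ)) * (E - Val x h v s Z A (N + 1)) =
      9 * E + nF s * E - (9 + (nF s : ℝ)) * Val x h v s Z A (N + 1) := by ring
    rw [this]
    linarith
  exact le_of_mul_le_mul_left a8 c0

theorem c9_fin (h2 : SEx) (h3 : SCFin) (hh : 1 ≤ h) (hX : Tab M P X) (x0 : 0 ≤ x) (x1 : x ≤ 1)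
    (hv : v ≠ []) (hE : Env v Z A) {s : Fin 3 → St} (hs : ∀ i, (s i).quiet = true) :
    Claim M x (h + 1) v Z A (Val x h v s Z A 0) (X s 0) := by
  rw [c9_claim]
  have G0 := c9_G h2 x0 x1 (h + 1) v Z A
  have a1 := c9S_le G0 (fun m t (_ : m ≤ M) (_ : t < 4) => hX.fin s hs m t)
  refine a1.trans ?_
  have a2 := h3 x x0 x1 h hh v Z A hv hE s hs
  have hn : nF s < 4 := by
    have : nF s ≤ 3 := (Finset.card_le_univ _).trans (by simp)
    omega
  have a3 : c9S M (fun m t => if m = 0 ∧ t = nF s then (1 : ℝ) else 0)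
      (fun m t => Ex x (h + 1) v Z A 0 0 - Ex x (h + 1) v Z A m t) =
      Ex x (h + 1) v Z A 0 0 - Ex x (h + 1) v Z A 0 (nF s) := by
    rw [c9S, Finset.sum_eq_single 0, Finset.sum_eq_single (nF s)]
    · simp
    · intro t _ ht
      simp [ht]
    · intro h
      exact absurd (Finset.mem_range.2 hn) h
    · intro m _ hm
      simp [hm]
    · simp
  rw [a3]
  linarith

/-- the last step of the rules for pending runs -/
theorem c9_last (h7 : SCD) (x0 : 0 ≤ x) (x1 : x ≤ 1) {s : Fin 3 → St} {i : Fin 3}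
    {L : ℕ → ℕ → ℝ} (hL : IsLaw M L)
    (hc : ∑ R ∈ Finset.range (M + 1), ∑ t ∈ Finset.range 4,
      L R t * (Val x h v (Function.update s i St.D) Z A 0 -
        Val x h v (Function.update s i (St.ofT t)) Z A R) ≤
      Val x h v (Function.update s i St.D) Z A 0 - Val x h v s Z A 0) :
    ∑ R ∈ Finset.range (M + 1), ∑ t ∈ Finset.range 4,
      L R t * (Ex x (h + 1) v Z A 0 0 - Val x h v (Function.update s i (St.ofT t)) Z A R) ≤
      Ex x (h + 1) v Z A 0 0 - Val x h v s Z A 0 := by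
  have e1 : ∑ R ∈ Finset.range (M + 1), ∑ t ∈ Finset.range 4,
      L R t * (Ex x (h + 1) v Z A 0 0 - Val x h v (Function.update s i (St.ofT t)) Z A R) =
      ∑ R ∈ Finset.range (M + 1), ∑ t ∈ Finset.range 4,
        L R t * (Val x h v (Function.update s i St.D) Z A 0 -
          Val x h v (Function.update s i (St.ofT t)) Z A R) +
      (∑ R ∈ Finset.range (M + 1), ∑ t ∈ Finset.range 4, L R t) *
        (Ex x (h + 1) v Z A 0 0 - Val x h v (Function.update s i St.D) Z A 0) := by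
    simp only [Finset.sum_mul, ← Finset.sum_add_distrib]
    refine Finset.sum_congr rfl fun m _ => Finset.sum_congr rfl fun t _ => ?_
    ring
  have e2 : 0 ≤ Ex x (h + 1) v Z A 0 0 - Val x h v (Function.update s i St.D) Z A 0 :=
    sub_nonneg.2 (h7 x x0 x1 h v Z A _ 0).1
  have e3 := mul_le_mul_of_nonneg_right hL.2 e2
  rw [e1]
  linarith

theorem c9_FL (h2 : SEx) (h5 : SCFL) (hh : 1 ≤ h) (x0 : 0 ≤ x) (x1 : x ≤ 1)
    (hv : v ≠ []) (hE : Env v Z A) {s : Fin 3 → St} {i : Fin 3} (hi : s i = St.FL)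
    (hX : ∀ m t, m ≤ M → t < 4 → X s 0 m t ≤ (2 / 3) * X (Function.update s i St.V3A) 0 m t +
      (1 / 3) * X (Function.update s i St.V3) 1 m t)
    (i1 : Claim M x (h + 1) v Z A (Val x h v (Function.update s i St.V3A) Z A 0)
      (X (Function.update s i St.V3A) 0))
    (i2 : Claim M x (h + 1) v Z A (Val x h v (Function.update s i St.V3) Z A 1)
      (X (Function.update s i St.V3) 1)) :
    Claim M x (h + 1) v Z A (Val x h v s Z A 0) (X s 0) := by
  rw [c9_claim] at i1 i2 ⊢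
  have G0 := c9_G h2 x0 x1 (h + 1) v Z A
  have a1 := c9S_le G0 hX
  rw [c9S_add, c9S_smul, c9S_smul] at a1
  have a2 := h5 x x0 x1 h hh v Z A hv hE s 0 i hi
  linarith

/-- the rule for a pending run, all terms -/
theorem c9_run {s : Fin 3 → St} {i : Fin 3} {L : ℕ → ℕ → ℝ} (hL : ∀ m t, 0 ≤ L m t) {k : ℕ}
    (i1 : ∀ R t', R ≤ M → t' < k →
      Claim M x (h + 1) v Z A (Val x h v (Function.update s i (St.ofT t')) Z A R)
        (X (Function.update s i (St.ofT t')) R)) :
    c9S M (fun m t => ∑ R ∈ Finset.range (M + 1), ∑ t' ∈ Finset.range k,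
      L R t' * X (Function.update s i (St.ofT t')) R m t)
      (fun m t => Ex x (h + 1) v Z A 0 0 - Ex x (h + 1) v Z A m t) ≤
    ∑ R ∈ Finset.range (M + 1), ∑ t' ∈ Finset.range k,
      L R t' * (Ex x (h + 1) v Z A 0 0 - Val x h v (Function.update s i (St.ofT t')) Z A R) := by
  rw [c9S_fsum]
  refine Finset.sum_le_sum fun R hR => ?_
  rw [c9S_fsum]
  refine Finset.sum_le_sum fun t' ht => ?_
  rw [c9S_smul]
  exact mul_le_mul_of_nonneg_left
    (i1 R t' (Nat.lt_succ_iff.1 (Finset.mem_range.1 hR)) (Finset.mem_range.1 ht)) (hL R t')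

theorem c9_F (h2 : SEx) (h7 : SCD) (x0 : 0 ≤ x) (x1 : x ≤ 1) {s : Fin 3 → St} {i : Fin 3}
    {L : ℕ → ℕ → ℝ} (hL : IsLaw M L)
    (hX : ∀ m t, m ≤ M → t < 4 → X s 0 m t ≤ ∑ R ∈ Finset.range (M + 1),
      ∑ t' ∈ Finset.range 4, L R t' * X (Function.update s i (St.ofT t')) R m t)
    (i1 : ∀ R t', R ≤ M → t' < 4 →
      Claim M x (h + 1) v Z A (Val x h v (Function.update s i (St.ofT t')) Z A R)
        (X (Function.update s i (St.ofT t')) R))
    (hc : ∑ R ∈ Finset.range (M + 1), ∑ t ∈ Finset.range 4,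
      L R t * (Val x h v (Function.update s i St.D) Z A 0 -
        Val x h v (Function.update s i (St.ofT t)) Z A R) ≤
      Val x h v (Function.update s i St.D) Z A 0 - Val x h v s Z A 0) :
    Claim M x (h + 1) v Z A (Val x h v s Z A 0) (X s 0) := by
  rw [c9_claim]
  exact (c9S_le (c9_G h2 x0 x1 (h + 1) v Z A) hX).trans
    ((c9_run hL.1 i1).trans (c9_last h7 x0 x1 hL hc))

theorem c9_V (h2 : SEx) (h7 : SCD) (x0 : 0 ≤ x) (x1 : x ≤ 1) {s : Fin 3 → St} {i : Fin 3}
    {L : ℕ → ℕ → ℝ} (hL : IsLaw M L) {k : ℕ} (hk : k < 4)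
    (hX : ∀ m t, m ≤ M → t < 4 → X s 0 m t ≤ L 0 k * X (Function.update s i (St.ofT k)) 0 m t +
      ∑ R ∈ Finset.range (M + 1), ∑ t' ∈ Finset.range k,
        L R t' * X (Function.update s i (St.ofT t')) R m t)
    (i0 : Claim M x (h + 1) v Z A (Val x h v (Function.update s i (St.ofT k)) Z A 0)
        (X (Function.update s i (St.ofT k)) 0))
    (i1 : ∀ R t', R ≤ M → t' < k →
      Claim M x (h + 1) v Z A (Val x h v (Function.update s i (St.ofT t')) Z A R)
        (X (Function.update s i (St.ofT t')) R))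
    (hc : ∑ R ∈ Finset.range (M + 1), ∑ t ∈ Finset.range 4,
      L R t * (Val x h v (Function.update s i St.D) Z A 0 -
        Val x h v (Function.update s i (St.ofT t)) Z A R) ≤
      Val x h v (Function.update s i St.D) Z A 0 - Val x h v s Z A 0) :
    Claim M x (h + 1) v Z A (Val x h v s Z A 0) (X s 0) := by
  rw [c9_claim] at i0 ⊢
  have G0 := c9_G h2 x0 x1 (h + 1) v Z A
  have a1 := c9S_le G0 hX
  rw [c9S_add, c9S_smul] at a1
  have a2 := c9_run (X := X) (M := M) (h := h) (Z := Z) (A := A) (v := v) hL.1 i1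
  have a3 := mul_le_mul_of_nonneg_left i0 (hL.1 0 k)
  have a4 := c9_last h7 x0 x1 hL hc
  set a : ℕ → ℕ → ℝ := fun R t => L R t * (Ex x (h + 1) v Z A 0 0 -
    Val x h v (Function.update s i (St.ofT t)) Z A R) with ha
  have ha0 : ∀ R t, 0 ≤ a R t := fun R t =>
    mul_nonneg (hL.1 R t) (sub_nonneg.2 (h7 x x0 x1 h v Z A _ R).1)
  have a5 : a 0 k + ∑ R ∈ Finset.range (M + 1), ∑ t ∈ Finset.range k, a R t ≤
      ∑ R ∈ Finset.range (M + 1), ∑ t ∈ Finset.range 4, a R t := by
    rw [Finset.sum_range_succ' _ M, Finset.sum_range_succ' _ M]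
    have b1 : ∑ R ∈ Finset.range M, ∑ t ∈ Finset.range k, a (R + 1) t ≤
        ∑ R ∈ Finset.range M, ∑ t ∈ Finset.range 4, a (R + 1) t :=
      Finset.sum_le_sum fun R _ => Finset.sum_le_sum_of_subset_of_nonneg
        (Finset.range_subset_range.2 hk.le) fun t _ _ => ha0 _ t
    have b2 : a 0 k + ∑ t ∈ Finset.range k, a 0 t ≤ ∑ t ∈ Finset.range 4, a 0 t := by
      have : ∑ t ∈ Finset.range (k + 1), a 0 t ≤ ∑ t ∈ Finset.range 4, a 0 t :=
        Finset.sum_le_sum_of_subset_of_nonneg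
          (Finset.range_subset_range.2 (by omega)) fun t _ _ => ha0 _ t
      rw [Finset.sum_range_succ] at this
      linarith
    linarith
  refine a1.trans (le_trans ?_ (a5.trans a4))
  exact add_le_add a3 a2

end

end Pool.Agent.H80.T3
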