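import Mathlib

/-!
# MP_2b43a6_pr, project T3: recurrence of the frog model on the ternary tree, definitions

Vertices are lists over `Fin 3` (as in the frozen statement): the children of `y` are `i :: y`, the
parent is `y.tail`, the root is `[]`. `V x Z A` is the value of a lower bound exploration: `Z` is
the set of sleeping vertices, `A` the multiset of the positions of the awake frogs, every arrival
at the root has weight `x`.
-/

set_option autoImplicit false

namespace Pool.Agent.H80.T3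

/-- vertices -/
abbrev T := List (Fin 3)

/-- weight of an arrival at `y` -/
noncomputable def wt (x : ℝ) (y : T) : ℝ := if y = [] then x else 1

/-- value after an arrival at `z` (a sleeping frog at `z` wakes up) -/
noncomputable def arr (x : ℝ) (f : Finset T → Multiset T → ℝ) (Z : Finset T) (A : Multiset T)
    (z : T) : ℝ :=
  wt x z * if z ∈ Z then f (Z.erase z) (z ::ₘ z ::ₘ A) else f Z (z ::ₘ A)

/-- average over the moves of a frog at `y`; `A` are the other awake frogs -/
noncomputable def stp (x : ℝ) (f : Finset T → Multiset T → ℝ) (Z : Finset T) (A : Multiset T)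
    (y : T) : ℝ :=
  if y = [] then (1 / 3) * ∑ i : Fin 3, arr x f Z A [i]
  else (1 / 4) * arr x f Z A y.tail + (1 / 4) * ∑ i : Fin 3, arr x f Z A (i :: y)

/-- value with at most `j` moves -/
noncomputable def Vj (x : ℝ) : ℕ → Finset T → Multiset T → ℝ
  | 0, _, _ => 1
  | j + 1, Z, A => A.toFinset.fold min 1 (fun y => stp x (Vj x j) Z (A.erase y) y)

/-- the value -/
noncomputable def V (x : ℝ) (Z : Finset T) (A : Multiset T) : ℝ := ⨅ j, Vj x j Z A

/-- the value after the vertices of `S` have been woken -/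
noncomputable def Vw (x : ℝ) (S Z : Finset T) (A : Multiset T) : ℝ :=
  V x (Z \ S) (A + (Z ∩ S).val)

/-- law of the set of children with loops -/
noncomputable def pB (B : Finset (Fin 3)) : ℝ :=
  if B.card = 0 then 165 / 220 else if B.card = 1 then 15 / 220 else
    if B.card = 2 then 3 / 220 else 1 / 220

/-- the children of `y` with labels in `B` -/
def ch (y : T) (B : Finset (Fin 3)) : Finset T := B.image (fun i => i :: y)

/-- an absorbed run from `y`: average over the set of the vertices on its geodesic up to height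
`h` and the tops of the loops -/
noncomputable def ab : ℕ → T → (Finset T → ℝ) → ℝ
  | 0, _, G => G ∅
  | h + 1, y, G => ∑ B : Finset (Fin 3), pB B * ((1 / 3) * ∑ i : Fin 3,
      ab h (i :: y) (fun S => G (insert y (ch y B ∪ S))))

/-- the vertices of the subtree of `y` with relative depth less than `h` -/
def Zn : ℕ → T → Finset T
  | 0, _ => ∅
  | h + 1, y => insert y (Finset.univ.biUnion fun i : Fin 3 => Zn h (i :: y))

/-- the first `t` subtrees of children of `y`; `y` has height `h` -/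
def Tt (t h : ℕ) (y : T) : Finset T :=
  (Finset.univ.filter fun i : Fin 3 => (i : ℕ) < t).biUnion fun i => Zn (h - 1) (i :: y)

/-- `Z` and `A` have no vertex in the subtree of `v` -/
def Env (v : T) (Z : Finset T) (A : Multiset T) : Prop :=
  (∀ y ∈ Z, ¬ v <:+ y) ∧ ∀ y ∈ A, ¬ v <:+ y

/-- value if `m` frogs have left the subtree of `v` and `t` subtrees of children are fresh -/
noncomputable def Ex (x : ℝ) (h : ℕ) (v : T) (Z : Finset T) (A : Multiset T) (m t : ℕ) : ℝ :=
  wt x v.tail ^ m * V x (Z ∪ Tt t h v) (A + Multiset.replicate m v.tail)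

/-- the claim: a value is bounded by the average of `Ex` over the law `L`; the missing mass is at
`(0, 0)` -/
def Claim (M : ℕ) (x : ℝ) (h : ℕ) (v : T) (Z : Finset T) (A : Multiset T) (val : ℝ)
    (L : ℕ → ℕ → ℝ) : Prop :=
  ∑ m ∈ Finset.range (M + 1), ∑ t ∈ Finset.range 4,
    L m t * (Ex x h v Z A 0 0 - Ex x h v Z A m t) ≤ Ex x h v Z A 0 0 - val

/-! ### statuses of children -/

/-- statuses of a child: dead; `t` fresh children (and a pending absorbed run); fresh; fresh with
woken top; fresh with one or two pending absorbed runs -/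
inductive St
  | D | V1 | V1A | V2 | V2A | V3 | V3A | F | FL | FA | FAA
  deriving DecidableEq

namespace St

/-- the status after one more absorbed run -/
def addA : St → St
  | D => D
  | V1 => V1A
  | V1A => V1A
  | V2 => V2A
  | V2A => V2A
  | V3 => V3A
  | V3A => V3A
  | F => FA
  | FL => FA
  | FA => FAA
  | FAA => FAA

/-- the status after one more loop -/
def addL : St → St
  | F => FL
  | s => s

/-- the number of fresh children of a visited child, 4 for a fresh child -/
def ty : St → ℕ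
  | D => 0
  | V1 => 1
  | V1A => 1
  | V2 => 2
  | V2A => 2
  | V3 => 3
  | V3A => 3
  | _ => 4

/-- nothing is pending -/
def quiet : St → Bool
  | D => true
  | V1 => true
  | V2 => true
  | V3 => true
  | F => true
  | _ => false

/-- the status of a visited child with `t` fresh children -/
def ofT : ℕ → St
  | 0 => D
  | 1 => V1
  | 2 => V2
  | _ => V3

/-- sleeping vertices of a child `c` of height `h` -/
def bs (h : ℕ) (c : T) : St → Finset T
  | D => ∅
  | V1 => Tt 1 h c
  | V1A => Tt 1 h c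
  | V2 => Tt 2 h c
  | V2A => Tt 2 h c
  | V3 => Tt 3 h c
  | V3A => Tt 3 h c
  | _ => Zn h c

/-- average over the pending vertices -/
noncomputable def op (h : ℕ) (c : T) : St → (Finset T → ℝ) → ℝ
  | FL, G => G {c}
  | FA, G => ab h c G
  | V1A, G => ab h c G
  | V2A, G => ab h c G
  | V3A, G => ab h c G
  | FAA, G => ab h c (fun S => ab h c (fun S' => G (S ∪ S')))
  | _, G => G ∅

end St

/-- sleeping vertices of all children -/
def bas (h : ℕ) (v : T) (s : Fin 3 → St) : Finset T :=
  (s 0).bs h (0 :: v) ∪ ((s 1).bs h (1 :: v) ∪ (s 2).bs h (2 :: v))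

/-- average over all pending vertices -/
noncomputable def ops (h : ℕ) (v : T) (s : Fin 3 → St) (G : Finset T → ℝ) : ℝ :=
  (s 0).op h (0 :: v) fun S0 => (s 1).op h (1 :: v) fun S1 => (s 2).op h (2 :: v) fun S2 =>
    G (S0 ∪ (S1 ∪ S2))

/-- the value of the state `s` with `N` frogs at `v`; the children have height `h` -/
noncomputable def Val (x : ℝ) (h : ℕ) (v : T) (s : Fin 3 → St) (Z : Finset T) (A : Multiset T)
    (N : ℕ) : ℝ :=
  ops h v s (fun S => Vw x S (Z ∪ bas h v s) (A + Multiset.replicate N v))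

/-- number of fresh children -/
def nF (s : Fin 3 → St) : ℕ := (Finset.univ.filter fun i => s i = St.F).card

/-! ### levels -/

/-- the laws of the contexts: one or two absorbed runs into a fresh subtree, one absorbed run into
a visited subtree with `t` fresh subtrees of children -/
structure Laws where
  F1 : ℕ → ℕ → ℝ
  F2 : ℕ → ℕ → ℝ
  Tl : ℕ → ℕ → ℕ → ℝ

/-- a law: nonnegative, total mass at most one -/
def IsLaw (M : ℕ) (L : ℕ → ℕ → ℝ) : Prop :=
  (∀ m t, 0 ≤ L m t) ∧ ∑ m ∈ Finset.range (M + 1), ∑ t ∈ Finset.range 4, L m t ≤ 1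

/-- the laws are valid at height `h` -/
structure Lev (M h : ℕ) (P : Laws) : Prop where
  l1 : IsLaw M P.F1
  l2 : IsLaw M P.F2
  lt : ∀ t, IsLaw M (P.Tl t)
  f1 : ∀ x : ℝ, 0 ≤ x → x ≤ 1 → ∀ (v : T) (Z : Finset T) (A : Multiset T), v ≠ [] → Env v Z A →
    Claim M x h v Z A (ab h v fun S => Vw x S (Z ∪ Zn h v) A) P.F1
  f2 : ∀ x : ℝ, 0 ≤ x → x ≤ 1 → ∀ (v : T) (Z : Finset T) (A : Multiset T), v ≠ [] → Env v Z A →
    Claim M x h v Z A (ab h v fun S => ab h v fun S' => Vw x (S ∪ S') (Z ∪ Zn h v) A) P.F2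
  tl : ∀ t, 1 ≤ t → t ≤ 3 → ∀ x : ℝ, 0 ≤ x → x ≤ 1 → ∀ (v : T) (Z : Finset T) (A : Multiset T),
    v ≠ [] → Env v Z A → Claim M x h v Z A (ab h v fun S => Vw x S (Z ∪ Tt t h v) A) (P.Tl t)

/-- shift of a law by one exit (capped at `M`) -/
def shf (M : ℕ) (L : ℕ → ℕ → ℝ) (m t : ℕ) : ℝ :=
  (if m = 0 then 0 else L (m - 1) t) + if m = M then L M t else 0

/-- the local conditions for a table `X` (state, number of frogs at `v`, exits, type) -/
structure Tab (M : ℕ) (P : Laws) (X : (Fin 3 → St) → ℕ → ℕ → ℕ → ℝ) : Prop where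
  law : ∀ s N, N ≤ M → IsLaw M (X s N)
  fin : ∀ s, (∀ i, (s i).quiet = true) → ∀ m t, X s 0 m t ≤ if m = 0 ∧ t = nF s then 1 else 0
  frog : ∀ s N, N + 1 ≤ M → ∀ m t, m ≤ M → t < 4 →
    (9 + (nF s : ℝ)) * X s (N + 1) m t ≤ 3 * shf M (X s N) m t +
      2 * ∑ i : Fin 3, X (Function.update s i (s i).addA) N m t +
      ∑ i : Fin 3, if s i = St.F then X (Function.update s i St.FL) (N + 1) m t else 0
  proc : ∀ s, (∃ i, (s i).quiet = false) → ∃ i, ∀ m t, m ≤ M → t < 4 →
    (s i = St.FL ∧ X s 0 m t ≤ (2 / 3) * X (Function.update s i St.V3A) 0 m t +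
      (1 / 3) * X (Function.update s i St.V3) 1 m t) ∨
    (s i = St.FA ∧ X s 0 m t ≤ ∑ R ∈ Finset.range (M + 1), ∑ t' ∈ Finset.range 4,
      P.F1 R t' * X (Function.update s i (St.ofT t')) R m t) ∨
    (s i = St.FAA ∧ X s 0 m t ≤ ∑ R ∈ Finset.range (M + 1), ∑ t' ∈ Finset.range 4,
      P.F2 R t' * X (Function.update s i (St.ofT t')) R m t) ∨
    (∃ k, 1 ≤ k ∧ k ≤ 3 ∧ (s i).ty = k ∧ (s i).quiet = false ∧
      X s 0 m t ≤ P.Tl k 0 k * X (Function.update s i (St.ofT k)) 0 m t +
        ∑ R ∈ Finset.range (M + 1), ∑ t' ∈ Finset.range k,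
          P.Tl k R t' * X (Function.update s i (St.ofT t')) R m t)

/-- the start state: `k` fresh children, the other children dead; loops into `B`, absorbed runs
into the children `i` of the list -/
def start (k : ℕ) (l : List (Finset (Fin 3) × Fin 3)) : Fin 3 → St :=
  l.foldr (fun p s => fun j =>
    if j = p.2 then (if j ∈ p.1 then (s j).addL else s j).addA
    else if j ∈ p.1 then (s j).addL else s j)
    (fun j => if (j : ℕ) < k then St.F else St.D)

/-- the laws `P'` of height `h + 1` are bounded by the table -/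
structure Nxt (M : ℕ) (X : (Fin 3 → St) → ℕ → ℕ → ℕ → ℝ) (P' : Laws) : Prop where
  l1 : IsLaw M P'.F1
  l2 : IsLaw M P'.F2
  lt : ∀ t, IsLaw M (P'.Tl t)
  f1 : ∀ m t, m ≤ M → t < 4 → (m ≠ 0 ∨ t ≠ 0) → P'.F1 m t ≤
    ∑ B : Finset (Fin 3), pB B * ((1 / 3) * ∑ i : Fin 3, X (start 3 [(B, i)]) 1 m t)
  f2 : ∀ m t, m ≤ M → t < 4 → (m ≠ 0 ∨ t ≠ 0) → P'.F2 m t ≤
    ∑ B : Finset (Fin 3), pB B * ((1 / 3) * ∑ i : Fin 3,
      ∑ B' : Finset (Fin 3), pB B' * ((1 / 3) * ∑ i' : Fin 3,
        X (start 3 [(B, i), (B', i')]) 1 m t))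
  tl : ∀ k, 1 ≤ k → k ≤ 3 → ∀ m t, m ≤ M → t < 4 → (m ≠ 0 ∨ t ≠ 0) → P'.Tl k m t ≤
    ∑ B : Finset (Fin 3), pB B * ((1 / 3) * ∑ i : Fin 3, X (start k [(B, i)]) 0 m t)

/-! ### the second phase -/

/-- a positive normalized functional on the functions of the number of exits -/
structure PF (L : (ℕ → ℝ) → ℝ) : Prop where
  mono : ∀ f g, (∀ m, f m ≤ g m) → L f ≤ L g
  add : ∀ f g, L (fun m => f m + g m) = L f + L g
  smul : ∀ (c : ℝ) f, L (fun m => c * f m) = c * L f
  one : L (fun _ => 1) = 1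

/-- the functional `L` bounds the context (fresh, one absorbed run) at height `h` -/
def Lv1 (h : ℕ) (L : (ℕ → ℝ) → ℝ) : Prop :=
  PF L ∧ ∀ x : ℝ, 0 ≤ x → x ≤ 1 → ∀ (v : T) (Z : Finset T) (A : Multiset T), v ≠ [] → Env v Z A →
    (ab h v fun S => Vw x S (Z ∪ Zn h v) A) ≤ L (fun m => Ex x h v Z A m 0)

/-- the comparison functions -/
noncomputable def phi (l x : ℝ) : ℝ := Real.exp (-l * (1 - x) + 2 * (1 - x) ^ 2)

/-- the recursion for the generating function: values at the points `x/3 + 2/9`, `x/3 + 4/9`,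
`x/3 + 2/3` -/
noncomputable def Aop (x f0 f1 w : ℝ) : ℝ :=
  (x / 3 + 2 / 3) * w ^ 3 + (1 - w) * ((x / 3 + 2 / 9) * f0 * (1 + w - 2 * f1) +
    2 * (x / 3 + 4 / 9) * f1 ^ 2)

/-- the sleeping vertices of the start: relative depth `1, ..., h` -/
def Zr (h : ℕ) : Finset T := Finset.univ.biUnion fun i : Fin 3 => Zn h [i]

end Pool.Agent.H80.T3
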