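import Pool.Agent.H80.T3.L1
import Pool.Agent.H80.T3.K.FinS
import Pool.Agent.H80.T3.K.D3b
import Pool.Agent.H80.T3.K.D5

/-!
# MP_2b43a6_pr, project T3: the frog model on the ternary tree is recurrent
-/

set_option autoImplicit false

namespace Pool.Agent.H80.T3

/-- the frozen statement -/
theorem frozen : Frozen := by
  obtain ⟨hN, hl, hex, h1, h2, h5⟩ := fa_rows sb01 smono sstep
  exact fa_frozen slink h2 h5
    (K.fs_start h1 (K.fk_chain hN (K.kproc_b K.klaw) K.kst hex hl).1)

end Pool.Agent.H80.T3
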