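import Pool.Agent.H80.T3.Stm

/-!
# MP_2b43a6_pr, project T3, L4: automorphisms of the tree do not change the value
-/

set_option autoImplicit false

namespace Pool.Agent.H80.T3

theorem l4_nil (σ : T ≃ T) (h0 : σ [] = []) (z : T) : σ z = [] ↔ z = [] := by
  constructor
  · intro h
    exact σ.injective (h.trans h0.symm)
  · intro h
    rw [h, h0]

theorem l4_wt (x : ℝ) (σ : T ≃ T) (h0 : σ [] = []) (z : T) : wt x (σ z) = wt x z := by
  unfold wt
  simp only [l4_nil σ h0 z]

theorem l4_sum (σ : T ≃ T) (h0 : σ [] = []) (ht : ∀ y, σ y.tail = (σ y).tail) (y : T)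
    (F : T → ℝ) : ∑ i : Fin 3, F (i :: σ y) = ∑ i : Fin 3, F (σ (i :: y)) := by
  have hex : ∀ i : Fin 3, ∃ k : Fin 3, σ (i :: y) = k :: σ y := by
    intro i
    have h1 : σ (i :: y) ≠ [] := by
      intro h
      exact List.cons_ne_nil _ _ ((l4_nil σ h0 _).1 h)
    obtain ⟨k, l, hk⟩ := List.exists_cons_of_ne_nil h1
    refine ⟨k, ?_⟩
    have h2 := ht (i :: y)
    rw [hk] at h2
    simp only [List.tail_cons] at h2
    rw [hk, h2]
  choose g hg using hex
  have hinj : Function.Injective g := by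
    intro i k hik
    have h1 : σ (i :: y) = σ (k :: y) := by rw [hg i, hg k, hik]
    have h2 := σ.injective h1
    exact (List.cons.inj h2).1
  have hbij : Function.Bijective g := Finite.injective_iff_bijective.1 hinj
  have h3 : ∑ i : Fin 3, F (σ (i :: y)) = ∑ i : Fin 3, (fun k : Fin 3 => F (k :: σ y)) (g i) :=
    Finset.sum_congr rfl fun i _ => by rw [hg i]
  rw [h3]
  exact (hbij.sum_comp (fun k : Fin 3 => F (k :: σ y))).symm

theorem l4_arr (x : ℝ) (σ : T ≃ T) (h0 : σ [] = []) (f : Finset T → Multiset T → ℝ)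
    (hf : ∀ (Z : Finset T) (A : Multiset T), f (Z.map σ.toEmbedding) (A.map σ) = f Z A)
    (Z : Finset T) (A : Multiset T) (z : T) :
    arr x f (Z.map σ.toEmbedding) (A.map σ) (σ z) = arr x f Z A z := by
  unfold arr
  rw [l4_wt x σ h0 z]
  have hm : (σ z ∈ Z.map σ.toEmbedding) ↔ z ∈ Z := by
    have h := Finset.mem_map' σ.toEmbedding (s := Z) (a := z)
    simpa using h
  by_cases hz : z ∈ Z
  · rw [if_pos hz, if_pos (hm.2 hz)]
    have h1 : (Z.map σ.toEmbedding).erase (σ z) = (Z.erase z).map σ.toEmbedding := by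
      have h := Finset.map_erase σ.toEmbedding Z z
      simpa using h.symm
    rw [h1, ← Multiset.map_cons, ← Multiset.map_cons, hf]
  · rw [if_neg hz, if_neg (fun h => hz (hm.1 h)), ← Multiset.map_cons, hf]

theorem l4_stp (x : ℝ) (σ : T ≃ T) (h0 : σ [] = []) (ht : ∀ y, σ y.tail = (σ y).tail)
    (f : Finset T → Multiset T → ℝ)
    (hf : ∀ (Z : Finset T) (A : Multiset T), f (Z.map σ.toEmbedding) (A.map σ) = f Z A)
    (Z : Finset T) (A : Multiset T) (y : T) :
    stp x f (Z.map σ.toEmbedding) (A.map σ) (σ y) = stp x f Z A y := by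
  unfold stp
  by_cases hy : y = []
  · rw [if_pos ((l4_nil σ h0 y).2 hy), if_pos hy]
    have h1 := l4_sum σ h0 ht [] (fun z => arr x f (Z.map σ.toEmbedding) (A.map σ) z)
    rw [h0] at h1
    rw [h1]
    simp only [l4_arr x σ h0 f hf Z A]
  · rw [if_neg (fun h => hy ((l4_nil σ h0 y).1 h)), if_neg hy]
    have h1 := l4_sum σ h0 ht y (fun z => arr x f (Z.map σ.toEmbedding) (A.map σ) z)
    rw [h1, ← ht y]
    simp only [l4_arr x σ h0 f hf Z A]

theorem l4_Vj (x : ℝ) (σ : T ≃ T) (h0 : σ [] = []) (ht : ∀ y, σ y.tail = (σ y).tail) (j : ℕ) :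
    ∀ (Z : Finset T) (A : Multiset T), Vj x j (Z.map σ.toEmbedding) (A.map σ) = Vj x j Z A := by
  induction j with
  | zero => intro Z A; rfl
  | succ j ih =>
    intro Z A
    have h1 : (A.map σ).toFinset = A.toFinset.map σ.toEmbedding := by
      rw [Multiset.toFinset_map, Finset.map_eq_image]
      rfl
    show (A.map σ).toFinset.fold min 1
        (fun y => stp x (Vj x j) (Z.map σ.toEmbedding) ((A.map σ).erase y) y) =
      A.toFinset.fold min 1 (fun y => stp x (Vj x j) Z (A.erase y) y)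
    rw [h1, Finset.fold_map]
    refine Finset.fold_congr ?_
    intro y _
    show stp x (Vj x j) (Z.map σ.toEmbedding) ((A.map σ).erase (σ y)) (σ y) = _
    rw [← Multiset.map_erase σ σ.injective y A]
    exact l4_stp x σ h0 ht (Vj x j) ih Z (A.erase y) y

/-- L4 -/
theorem saut : SAut := by
  intro x _ _ σ h0 ht Z A
  unfold V
  exact iInf_congr fun j => l4_Vj x σ h0 ht j Z A

end Pool.Agent.H80.T3
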