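import Pool.Agent.H80.T3.Stm

/-!
# MP_2b43a6_pr, project T3, row L5: the link between the exploration value and the frog model
-/

set_option autoImplicit false

namespace Pool.Agent.H80.T3

open MeasureTheory ProbabilityTheory

/-- the woken frogs -/
def l5Cl {Ω : Type} (S : T → ℕ → Ω → T) (ω : Ω) : Set T :=
  {v | ∀ A : Set T, [] ∈ A → (∀ v ∈ A, ∀ k, S v k ω ∈ A) → v ∈ A}

/-- the set of the visits of the root by woken frogs -/
def l5S {Ω : Type} (S : T → ℕ → Ω → T) (ω : Ω) : Set (T × ℕ) :=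
  {p | p.1 ∈ l5Cl S ω ∧ S p.1 p.2 ω = []}

/-- at most `m` visits -/
def l5E {Ω : Type} (S : T → ℕ → Ω → T) (m : ℕ) : Set Ω :=
  {ω | (l5S S ω).Finite ∧ (l5S S ω).ncard ≤ m}

/-- the event that the values of the pairs of `I` are prescribed -/
def l5ev {Ω : Type} (ξ : T → ℕ → Ω → Fin 3 × Fin 4) (I : Finset (T × ℕ))
    (a : T × ℕ → Fin 3 × Fin 4) : Set Ω :=
  {ω | ∀ p ∈ I, ξ p.1 p.2 ω = a p}

/-- the move of a frog at `y` -/
def l5mv (y : T) (c : Fin 3 × Fin 4) : T :=
  if y = [] then [c.1] else if c.2 = 0 then y.tail else c.1 :: y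

/-- a pattern: `I` revealed pairs with the values `a`, `Aw` awake frogs, `K w` revealed moves of
the frog `w`, `pos w` its position, `Z` sleeping frogs, `R` arrivals at the root -/
structure L5Pat {Ω : Type} (ξ : T → ℕ → Ω → Fin 3 × Fin 4) (S : T → ℕ → Ω → T)
    (I : Finset (T × ℕ)) (a : T × ℕ → Fin 3 × Fin 4) (Aw : Finset T) (K : T → ℕ) (pos : T → T)
    (Z : Finset T) (R : Finset (T × ℕ)) : Prop where
  hI : ∀ p ∈ I, p.1 ∈ Aw ∧ p.2 < K p.1
  hpos : ∀ ω ∈ l5ev ξ I a, ∀ w ∈ Aw, S w (K w) ω = pos w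
  hcl : ∀ ω ∈ l5ev ξ I a, ∀ w ∈ Aw, w ∈ l5Cl S ω
  hZ : [] ∉ Z
  hd : ∀ z ∈ Z, z ∉ Aw
  hR : ∀ p ∈ R, p.1 ∈ Aw ∧ p.2 ≤ K p.1
  hR' : ∀ ω ∈ l5ev ξ I a, ∀ p ∈ R, S p.1 p.2 ω = []

theorem l5_ev_insert {Ω : Type} (ξ : T → ℕ → Ω → Fin 3 × Fin 4) (I : Finset (T × ℕ))
    (a : T × ℕ → Fin 3 × Fin 4) (q : T × ℕ) (hq : q ∉ I) (c : Fin 3 × Fin 4) :
    l5ev ξ (insert q I) (Function.update a q c) = l5ev ξ I a ∩ {ω | ξ q.1 q.2 ω = c} := by
  ext ω
  simp only [l5ev, Set.mem_ofPred_eq, Set.mem_inter_iff, Finset.mem_insert, forall_eq_or_imp,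
    Function.update_self]
  constructor
  · rintro ⟨h1, h2⟩
    refine ⟨fun p hp => ?_, h1⟩
    have hne : p ≠ q := fun h => hq (h ▸ hp)
    have := h2 p hp
    rwa [Function.update_of_ne hne] at this
  · rintro ⟨h1, h2⟩
    refine ⟨h2, fun p hp => ?_⟩
    have hne : p ≠ q := fun h => hq (h ▸ hp)
    rw [Function.update_of_ne hne]
    exact h1 p hp

theorem l5_map_update (Aw : Finset T) (pos : T → T) (w z : T) (hw : w ∈ Aw) :
    Aw.val.map (Function.update pos w z) = z ::ₘ (Aw.val.map pos).erase (pos w) := by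
  have h1 : Aw.val = w ::ₘ (Aw.erase w).val := by
    rw [Finset.erase_val, Multiset.cons_erase hw]
  rw [h1, Multiset.map_cons, Multiset.map_cons, Multiset.erase_cons_head, Function.update_self]
  congr 1
  refine Multiset.map_congr rfl fun x hx => ?_
  have : x ≠ w := by
    intro h
    subst h
    exact Finset.notMem_erase x Aw hx
  rw [Function.update_of_ne this]

theorem l5_S_succ {Ω : Type} {ξ : T → ℕ → Ω → Fin 3 × Fin 4} {S : T → ℕ → Ω → T}
    (hS : ∀ v k ω, S v (k + 1) ω =
        if S v k ω = [] then [(ξ v k ω).1]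
        else if (ξ v k ω).2 = 0 then (S v k ω).tail
        else (ξ v k ω).1 :: S v k ω) (v : T) (k : ℕ) (ω : Ω) :
    S v (k + 1) ω = l5mv (S v k ω) (ξ v k ω) := by
  rw [hS, l5mv]

/-- the value of a step as an average over 12 values -/
theorem l5_stp (f : Finset T → Multiset T → ℝ) (Z : Finset T) (A : Multiset T) (y : T) :
    stp (1 / 2) f Z A y = ∑ c : Fin 3 × Fin 4, (1 / 12) * arr (1 / 2) f Z A (l5mv y c) := by
  rw [Fintype.sum_prod_type]
  unfold stp
  by_cases hy : y = []
  · rw [if_pos hy]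
    have : ∀ (i : Fin 3) (k : Fin 4), l5mv y (i, k) = [i] := by
      intro i k
      rw [l5mv, if_pos hy]
    simp only [this, Finset.sum_const, Finset.card_univ, Fintype.card_fin, nsmul_eq_mul]
    rw [Finset.mul_sum]
    refine Finset.sum_congr rfl fun i _ => ?_
    push_cast
    ring
  · rw [if_neg hy]
    have h0 : ∀ (i : Fin 3), l5mv y (i, 0) = y.tail := by
      intro i
      simp [l5mv, if_neg hy]
    have h1 : ∀ (i : Fin 3), l5mv y (i, 1) = i :: y := by
      intro i
      simp [l5mv, if_neg hy]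
    have h2 : ∀ (i : Fin 3), l5mv y (i, 2) = i :: y := by
      intro i
      simp [l5mv, if_neg hy]
    have h3 : ∀ (i : Fin 3), l5mv y (i, 3) = i :: y := by
      intro i
      simp [l5mv, if_neg hy]
    simp only [Fin.sum_univ_four, Fin.sum_univ_three, h0, h1, h2, h3]
    ring

/-- one more revealed value: the new position is not asleep -/
theorem l5_pat_neg {Ω : Type} {ξ : T → ℕ → Ω → Fin 3 × Fin 4} {S : T → ℕ → Ω → T}
    (hS : ∀ v k ω, S v (k + 1) ω = l5mv (S v k ω) (ξ v k ω))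
    {I : Finset (T × ℕ)} {a : T × ℕ → Fin 3 × Fin 4} {Aw : Finset T} {K : T → ℕ} {pos : T → T}
    {Z : Finset T} {R : Finset (T × ℕ)} (h : L5Pat ξ S I a Aw K pos Z R) (w : T) (hw : w ∈ Aw)
    (c : Fin 3 × Fin 4) :
    L5Pat ξ S (insert (w, K w) I) (Function.update a (w, K w) c) Aw
      (Function.update K w (K w + 1)) (Function.update pos w (l5mv (pos w) c)) Z
      (if l5mv (pos w) c = [] then insert (w, K w + 1) R else R) := by
  have hq : (w, K w) ∉ I := fun hm => lt_irrefl _ (h.hI _ hm).2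
  have hsub : l5ev ξ (insert (w, K w) I) (Function.update a (w, K w) c) ⊆ l5ev ξ I a := by
    rw [l5_ev_insert ξ I a _ hq]
    exact Set.inter_subset_left
  have hK : ∀ v, K v ≤ Function.update K w (K w + 1) v := by
    intro v
    by_cases hv : v = w
    · subst hv
      rw [Function.update_self]
      omega
    · rw [Function.update_of_ne hv]
  have hnew : ∀ ω ∈ l5ev ξ (insert (w, K w) I) (Function.update a (w, K w) c),
      S w (K w + 1) ω = l5mv (pos w) c := by
    intro ω hω
    have hω2 := hω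
    rw [l5_ev_insert ξ I a _ hq] at hω2
    have h2 : ξ w (K w) ω = c := hω2.2
    rw [hS, h.hpos ω hω2.1 w hw, h2]
  refine ⟨?_, ?_, fun ω hω => h.hcl ω (hsub hω), h.hZ, h.hd, ?_, ?_⟩
  · intro p hp
    rw [Finset.mem_insert] at hp
    rcases hp with hp | hp
    · subst hp
      refine ⟨hw, ?_⟩
      rw [Function.update_self]
      exact Nat.lt_succ_self _
    · exact ⟨(h.hI p hp).1, lt_of_lt_of_le (h.hI p hp).2 (hK _)⟩
  · intro ω hω v hv
    by_cases hvw : v = w
    · subst hvw
      rw [Function.update_self, Function.update_self]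
      exact hnew ω hω
    · rw [Function.update_of_ne hvw, Function.update_of_ne hvw]
      exact h.hpos ω (hsub hω) v hv
  · intro p hp
    split_ifs at hp with hz
    · rw [Finset.mem_insert] at hp
      rcases hp with hp | hp
      · subst hp
        refine ⟨hw, ?_⟩
        rw [Function.update_self]
      · exact ⟨(h.hR p hp).1, le_trans (h.hR p hp).2 (hK _)⟩
    · exact ⟨(h.hR p hp).1, le_trans (h.hR p hp).2 (hK _)⟩
  · intro ω hω p hp
    split_ifs at hp with hz
    · rw [Finset.mem_insert] at hp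
      rcases hp with hp | hp
      · subst hp
        exact (hnew ω hω).trans hz
      · exact h.hR' ω (hsub hω) p hp
    · exact h.hR' ω (hsub hω) p hp

/-- one more revealed value: the frog at the new position wakes up -/
theorem l5_pat_pos {Ω : Type} {ξ : T → ℕ → Ω → Fin 3 × Fin 4} {S : T → ℕ → Ω → T}
    (h0 : ∀ v ω, S v 0 ω = v)
    (hS : ∀ v k ω, S v (k + 1) ω = l5mv (S v k ω) (ξ v k ω))
    {I : Finset (T × ℕ)} {a : T × ℕ → Fin 3 × Fin 4} {Aw : Finset T} {K : T → ℕ} {pos : T → T}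
    {Z : Finset T} {R : Finset (T × ℕ)} (h : L5Pat ξ S I a Aw K pos Z R) (w : T) (hw : w ∈ Aw)
    (c : Fin 3 × Fin 4) (hz : l5mv (pos w) c ∈ Z) :
    L5Pat ξ S (insert (w, K w) I) (Function.update a (w, K w) c) (insert (l5mv (pos w) c) Aw)
      (Function.update (Function.update K w (K w + 1)) (l5mv (pos w) c) 0)
      (Function.update (Function.update pos w (l5mv (pos w) c)) (l5mv (pos w) c)
        (l5mv (pos w) c)) (Z.erase (l5mv (pos w) c)) R := by
  have hz0 : l5mv (pos w) c ≠ [] := fun hh => h.hZ (hh ▸ hz)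
  have hzA : l5mv (pos w) c ∉ Aw := h.hd _ hz
  have hn := l5_pat_neg hS h w hw c
  rw [if_neg hz0] at hn
  have hne : ∀ v ∈ Aw, v ≠ l5mv (pos w) c := fun v hv hh => hzA (hh ▸ hv)
  refine ⟨?_, ?_, ?_, ?_, ?_, ?_, ?_⟩
  · intro p hp
    have := hn.hI p hp
    refine ⟨Finset.mem_insert_of_mem this.1, ?_⟩
    rw [Function.update_of_ne (hne _ this.1)]
    exact this.2
  · intro ω hω v hv
    rw [Finset.mem_insert] at hv
    rcases hv with hv | hv
    · rw [hv, Function.update_self, Function.update_self, h0]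
    · rw [Function.update_of_ne (hne _ hv), Function.update_of_ne (hne _ hv)]
      exact hn.hpos ω hω v hv
  · intro ω hω v hv
    rw [Finset.mem_insert] at hv
    rcases hv with hv | hv
    · have h1 := hn.hpos ω hω w hw
      rw [Function.update_self, Function.update_self] at h1
      have h2 := hn.hcl ω hω w hw
      intro A hA hcA
      rw [hv, ← h1]
      exact hcA w (h2 A hA hcA) _
    · exact hn.hcl ω hω v hv
  · intro hm
    exact h.hZ (Finset.mem_of_mem_erase hm)
  · intro z' hz' hm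
    rw [Finset.mem_insert] at hm
    rcases hm with hm | hm
    · exact (Finset.ne_of_mem_erase hz') hm
    · exact h.hd z' (Finset.mem_of_mem_erase hz') hm
  · intro p hp
    have := hn.hR p hp
    refine ⟨Finset.mem_insert_of_mem this.1, ?_⟩
    rw [Function.update_of_ne (hne _ this.1)]
    exact this.2
  · exact hn.hR'

/-- the measure of a pattern -/
theorem l5_meas {Ω : Type} [MeasurableSpace Ω] (P : Measure Ω) [IsProbabilityMeasure P]
    (ξ : T → ℕ → Ω → Fin 3 × Fin 4)
    (hind : iIndepFun (fun p : T × ℕ => ξ p.1 p.2) P)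
    (h12 : ∀ v k (c : Fin 3 × Fin 4), P (ξ v k ⁻¹' {c}) = 1 / 12)
    (I : Finset (T × ℕ)) (a : T × ℕ → Fin 3 × Fin 4) :
    P.real (l5ev ξ I a) = (1 / 12) ^ I.card := by
  have h1 : l5ev ξ I a = ⋂ p ∈ I, (ξ p.1 p.2) ⁻¹' {a p} := by
    ext ω
    simp [l5ev]
  have h2 := hind.measure_inter_preimage_eq_mul I (sets := fun p => {a p})
    (fun p _ => measurableSet_singleton _)
  rw [h1, Measure.real, h2]
  simp only [h12, Finset.prod_const]
  simp

/-- too many arrivals or a trivial bound -/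
theorem l5_base {Ω : Type} [MeasurableSpace Ω] (P : Measure Ω) [IsProbabilityMeasure P]
    (ξ : T → ℕ → Ω → Fin 3 × Fin 4) (S : T → ℕ → Ω → T)
    (hind : iIndepFun (fun p : T × ℕ => ξ p.1 p.2) P)
    (h12 : ∀ v k (c : Fin 3 × Fin 4), P (ξ v k ⁻¹' {c}) = 1 / 12) (m : ℕ)
    {I : Finset (T × ℕ)} {a : T × ℕ → Fin 3 × Fin 4} {Aw : Finset T} {K : T → ℕ} {pos : T → T}
    {Z : Finset T} {R : Finset (T × ℕ)} (h : L5Pat ξ S I a Aw K pos Z R) :
    P.real (l5E S m ∩ l5ev ξ I a) ≤ (1 / 12) ^ I.card * (2 ^ m * (1 / 2) ^ R.card) := by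
  by_cases hr : R.card ≤ m
  · have h1 : (1 : ℝ) ≤ 2 ^ m * (1 / 2) ^ R.card := by
      obtain ⟨d, rfl⟩ := Nat.exists_eq_add_of_le hr
      rw [pow_add, mul_right_comm, ← mul_pow]
      norm_num
      exact one_le_pow₀ (by norm_num)
    calc P.real (l5E S m ∩ l5ev ξ I a) ≤ P.real (l5ev ξ I a) :=
          measureReal_mono Set.inter_subset_right (measure_ne_top _ _)
      _ = (1 / 12) ^ I.card * 1 := by rw [l5_meas P ξ hind h12, mul_one]
      _ ≤ _ := mul_le_mul_of_nonneg_left h1 (by positivity)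
  · have h1 : l5E S m ∩ l5ev ξ I a = ∅ := by
      rw [Set.eq_empty_iff_forall_notMem]
      rintro ω ⟨⟨hf, hc⟩, hω⟩
      apply hr
      have hsub : (R : Set (T × ℕ)) ⊆ l5S S ω := by
        intro p hp
        exact ⟨h.hcl ω hω _ (h.hR p hp).1, h.hR' ω hω p hp⟩
      have := Set.ncard_le_ncard hsub hf
      rw [Set.ncard_coe_finset] at this
      omega
    rw [h1]
    simp only [measureReal_empty]
    positivity

/-- the main claim -/
theorem l5_main {Ω : Type} [MeasurableSpace Ω] (P : Measure Ω) [IsProbabilityMeasure P]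
    (ξ : T → ℕ → Ω → Fin 3 × Fin 4) (S : T → ℕ → Ω → T)
    (hind : iIndepFun (fun p : T × ℕ => ξ p.1 p.2) P)
    (h12 : ∀ v k (c : Fin 3 × Fin 4), P (ξ v k ⁻¹' {c}) = 1 / 12)
    (h0 : ∀ v ω, S v 0 ω = v)
    (hS : ∀ v k ω, S v (k + 1) ω = l5mv (S v k ω) (ξ v k ω)) (m : ℕ) (j : ℕ) :
    ∀ (I : Finset (T × ℕ)) (a : T × ℕ → Fin 3 × Fin 4) (Aw : Finset T) (K : T → ℕ) (pos : T → T)
    (Z : Finset T) (R : Finset (T × ℕ)), L5Pat ξ S I a Aw K pos Z R →
    P.real (l5E S m ∩ l5ev ξ I a) ≤ (1 / 12) ^ I.card * (2 ^ m * (1 / 2) ^ R.card) *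
      Vj (1 / 2) j Z (Aw.val.map pos) := by
  induction j with
  | zero =>
    intro I a Aw K pos Z R h
    rw [Vj, mul_one]
    exact l5_base P ξ S hind h12 m h
  | succ j ih =>
    intro I a Aw K pos Z R h
    have hC : (0 : ℝ) < (1 / 12) ^ I.card * (2 ^ m * (1 / 2) ^ R.card) := by positivity
    rw [Vj, ← div_le_iff₀' hC, Finset.le_fold_min]
    constructor
    · rw [div_le_iff₀' hC, mul_one]
      exact l5_base P ξ S hind h12 m h
    intro y hy
    rw [Multiset.mem_toFinset, Multiset.mem_map] at hy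
    obtain ⟨w, hw, hwy⟩ := hy
    have hw : w ∈ Aw := hw
    rw [div_le_iff₀' hC, l5_stp, Finset.mul_sum]
    have hq : (w, K w) ∉ I := fun hm => lt_irrefl _ (h.hI _ hm).2
    have hcov : l5E S m ∩ l5ev ξ I a ⊆ ⋃ c ∈ (Finset.univ : Finset (Fin 3 × Fin 4)),
        l5E S m ∩ l5ev ξ (insert (w, K w) I) (Function.update a (w, K w) c) := by
      rintro ω ⟨h1, h2⟩
      simp only [Set.mem_iUnion]
      refine ⟨ξ w (K w) ω, Finset.mem_univ _, h1, ?_⟩
      rw [l5_ev_insert ξ I a _ hq]
      exact ⟨h2, rfl⟩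
    refine le_trans (measureReal_mono hcov (measure_ne_top _ _)) ?_
    refine le_trans (measureReal_biUnion_finset_le _ _) ?_
    refine Finset.sum_le_sum fun c _ => ?_
    have hcard : (insert (w, K w) I).card = I.card + 1 := Finset.card_insert_of_notMem hq
    subst hwy
    by_cases hz : l5mv (pos w) c ∈ Z
    · have hz0 : l5mv (pos w) c ≠ [] := fun hh => h.hZ (hh ▸ hz)
      have hzA : l5mv (pos w) c ∉ Aw := h.hd _ hz
      have h1 := ih _ _ _ _ _ _ _ (l5_pat_pos h0 hS h w hw c hz)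
      have h2 : (insert (l5mv (pos w) c) Aw).val.map
          (Function.update (Function.update pos w (l5mv (pos w) c)) (l5mv (pos w) c)
            (l5mv (pos w) c)) = l5mv (pos w) c ::ₘ l5mv (pos w) c ::ₘ
              (Aw.val.map pos).erase (pos w) := by
        rw [Finset.insert_val_of_notMem hzA, Multiset.map_cons, Function.update_self]
        congr 1
        rw [← l5_map_update Aw pos w _ hw]
        refine Multiset.map_congr rfl fun x hx => ?_
        have : x ≠ l5mv (pos w) c := fun hh => hzA (hh ▸ hx)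
        rw [Function.update_of_ne this]
      rw [h2, hcard] at h1
      refine le_trans h1 (le_of_eq ?_)
      rw [arr, wt, if_neg hz0, if_pos hz, pow_succ]
      ring
    · have h1 := ih _ _ _ _ _ _ _ (l5_pat_neg hS h w hw c)
      rw [l5_map_update Aw pos w _ hw, hcard] at h1
      refine le_trans h1 (le_of_eq ?_)
      rw [arr, wt, if_neg hz]
      by_cases hz0 : l5mv (pos w) c = []
      · have hnR : (w, K w + 1) ∉ R := fun hm => by
          have := (h.hR _ hm).2
          simp only at this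
          omega
        rw [if_pos hz0, if_pos hz0, Finset.card_insert_of_notMem hnR, pow_succ, pow_succ]
        ring
      · rw [if_neg hz0, if_neg hz0, pow_succ]
        ring

/-- L5: the link -/
theorem slink : SLink := by
  intro hV Ω _ P _ ξ _ hind h12 S h0 hS'
  have hS : ∀ v k ω, S v (k + 1) ω = l5mv (S v k ω) (ξ v k ω) := fun v k ω => l5_S_succ hS' v k ω
  have hE : ∀ m, P (l5E S m) = 0 := by
    intro m
    have h1 : P.real (l5E S m) ≤ 0 := by
      refine le_of_forall_pos_le_add fun ε hε => ?_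
      obtain ⟨j, Z, hZ, hj⟩ := hV (ε / 2 ^ m) (by positivity)
      have hp : L5Pat ξ S ∅ (fun _ => (0, 0)) {[]} (fun _ => 0) (fun v => v) Z ∅ := by
        refine ⟨by simp, ?_, ?_, hZ, ?_, by simp, by simp⟩
        · intro ω _ w _
          exact h0 w ω
        · intro ω _ w hw A hA _
          rw [Finset.mem_singleton] at hw
          rw [hw]
          exact hA
        · intro z hz hz'
          rw [Finset.mem_singleton] at hz'
          exact hZ (hz' ▸ hz)
      have h2 := l5_main P ξ S hind h12 h0 hS m j _ _ _ _ _ _ _ hp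
      have h3 : l5ev ξ ∅ (fun _ => (0, 0)) = Set.univ := by
        ext ω
        simp [l5ev]
      rw [h3, Set.inter_univ] at h2
      simp only [Finset.card_empty, pow_zero, one_mul, mul_one, Finset.singleton_val,
        Multiset.map_singleton] at h2
      calc P.real (l5E S m) ≤ 2 ^ m * Vj (1 / 2) j Z {[]} := h2
        _ ≤ 2 ^ m * (ε / 2 ^ m) := mul_le_mul_of_nonneg_left hj (by positivity)
        _ = 0 + ε := by
          field_simp
          ring
    have h4 : P.real (l5E S m) = 0 := le_antisymm h1 measureReal_nonneg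
    rwa [measureReal_eq_zero_iff (measure_ne_top _ _)] at h4
  rw [ae_iff]
  refine measure_mono_null (t := ⋃ m, l5E S m) ?_ (measure_iUnion_null hE)
  intro ω hω
  rw [Set.mem_ofPred_eq, Set.not_infinite] at hω
  rw [Set.mem_iUnion]
  exact ⟨_, hω, le_rfl⟩

end Pool.Agent.H80.T3
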