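import Pool.Agent.H80.T3.Stm

/-!
# MP_2b43a6_pr, project T3: the start of the second phase, the operator, the root
-/

set_option autoImplicit false

namespace Pool.Agent.H80.T3

/-! ### SP1 -/

/-- the functional of a law -/
noncomputable def p1_L (M : ℕ) (F : ℕ → ℕ → ℝ) (f : ℕ → ℝ) : ℝ :=
  (1 - ∑ m ∈ Finset.range (M + 1), ∑ t ∈ Finset.range 4, F m t) * f 0 +
    ∑ m ∈ Finset.range (M + 1), ∑ t ∈ Finset.range 4, F m t * f m

theorem p1_pf (M : ℕ) (F : ℕ → ℕ → ℝ) (hF : IsLaw M F) : PF (p1_L M F) := by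
  refine ⟨?_, ?_, ?_, ?_⟩
  · intro f g hfg
    unfold p1_L
    have h1 : 0 ≤ 1 - ∑ m ∈ Finset.range (M + 1), ∑ t ∈ Finset.range 4, F m t := by
      have := hF.2
      linarith
    have h2 := mul_le_mul_of_nonneg_left (hfg 0) h1
    have h3 : ∑ m ∈ Finset.range (M + 1), ∑ t ∈ Finset.range 4, F m t * f m ≤
        ∑ m ∈ Finset.range (M + 1), ∑ t ∈ Finset.range 4, F m t * g m :=
      Finset.sum_le_sum fun m _ => Finset.sum_le_sum fun t _ =>
        mul_le_mul_of_nonneg_left (hfg m) (hF.1 m t)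
    linarith
  · intro f g
    unfold p1_L
    have h3 : ∑ m ∈ Finset.range (M + 1), ∑ t ∈ Finset.range 4, F m t * (f m + g m) =
        ∑ m ∈ Finset.range (M + 1), ∑ t ∈ Finset.range 4, F m t * f m +
          ∑ m ∈ Finset.range (M + 1), ∑ t ∈ Finset.range 4, F m t * g m := by
      rw [← Finset.sum_add_distrib]
      refine Finset.sum_congr rfl fun m _ => ?_
      rw [← Finset.sum_add_distrib]
      exact Finset.sum_congr rfl fun t _ => mul_add _ _ _
    rw [h3]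
    ring
  · intro c f
    unfold p1_L
    have h3 : ∑ m ∈ Finset.range (M + 1), ∑ t ∈ Finset.range 4, F m t * (c * f m) =
        c * ∑ m ∈ Finset.range (M + 1), ∑ t ∈ Finset.range 4, F m t * f m := by
      rw [Finset.mul_sum]
      refine Finset.sum_congr rfl fun m _ => ?_
      rw [Finset.mul_sum]
      exact Finset.sum_congr rfl fun t _ => by ring
    rw [h3]
    ring
  · unfold p1_L
    simp only [mul_one]
    ring

/-- **P1.** -/
theorem sp1 (_h1 : SB01) (h2 : SEx) : SP1 := by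
  intro M h P hP
  refine ⟨p1_L M P.F1, ⟨p1_pf M P.F1 hP.l1, ?_⟩, ?_⟩
  · intro x hx0 hx1 v Z A hv hE
    have h3 := hP.f1 x hx0 hx1 v Z A hv hE
    unfold Claim at h3
    have h4 : ∑ m ∈ Finset.range (M + 1), ∑ t ∈ Finset.range 4,
        P.F1 m t * (Ex x h v Z A 0 0 - Ex x h v Z A m t) =
        (∑ m ∈ Finset.range (M + 1), ∑ t ∈ Finset.range 4, P.F1 m t) * Ex x h v Z A 0 0 -
          ∑ m ∈ Finset.range (M + 1), ∑ t ∈ Finset.range 4, P.F1 m t * Ex x h v Z A m t := by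
      rw [Finset.sum_mul, ← Finset.sum_sub_distrib]
      refine Finset.sum_congr rfl fun m _ => ?_
      rw [Finset.sum_mul, ← Finset.sum_sub_distrib]
      exact Finset.sum_congr rfl fun t _ => mul_sub _ _ _
    have h5 : ∑ m ∈ Finset.range (M + 1), ∑ t ∈ Finset.range 4, P.F1 m t * Ex x h v Z A m t ≤
        ∑ m ∈ Finset.range (M + 1), ∑ t ∈ Finset.range 4, P.F1 m t * Ex x h v Z A m 0 :=
      Finset.sum_le_sum fun m _ => Finset.sum_le_sum fun t _ =>
        mul_le_mul_of_nonneg_left (h2 x hx0 hx1 h v Z A m m 0 t le_rfl (Nat.zero_le _))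
          (hP.l1.1 m t)
    rw [h4] at h3
    unfold p1_L
    linarith
  · intro x
    unfold p1_L
    show _ * x ^ 0 + _ = _
    rw [pow_zero, mul_one]

/-! ### SP3 -/

theorem p1_w (x f0 f1 w u : ℝ) (hx : 0 ≤ x) (h0 : 0 ≤ f0) (h01 : f0 ≤ f1)
    (h1w : f1 ≤ w) (hwu : w ≤ u) : Aop x f0 f1 w ≤ Aop x f0 f1 u := by
  have key : Aop x f0 f1 u - Aop x f0 f1 w = (u - w) * ((x / 3 + 2 / 3) * (u ^ 2 + u * w + w ^ 2) -
      (x / 3 + 2 / 9) * f0 * (u + w - 2 * f1) - 2 * (x / 3 + 4 / 9) * f1 ^ 2) := by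
    unfold Aop
    ring
  have hf1 : 0 ≤ f1 := h0.trans h01
  have hw : 0 ≤ w := hf1.trans h1w
  have hu : 0 ≤ u := hw.trans hwu
  have hd : 0 ≤ u + w - 2 * f1 := by linarith
  have a : (x / 3 + 2 / 9) * f0 * (u + w - 2 * f1) ≤
      (x / 3 + 2 / 3) * f1 * (u + w - 2 * f1) := by
    refine mul_le_mul_of_nonneg_right ?_ hd
    exact mul_le_mul (by linarith) h01 h0 (by linarith)
  have b : (x / 3 + 4 / 9) * f1 ^ 2 ≤ (x / 3 + 2 / 3) * f1 ^ 2 :=
    mul_le_mul_of_nonneg_right (by linarith) (sq_nonneg _)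
  have c : f1 * (u + w) ≤ u ^ 2 + u * w + w ^ 2 := by
    have c1 : f1 * (u + w) ≤ w * (u + w) := mul_le_mul_of_nonneg_right h1w (by linarith)
    nlinarith [sq_nonneg u]
  have d : (x / 3 + 2 / 3) * (f1 * (u + w)) ≤ (x / 3 + 2 / 3) * (u ^ 2 + u * w + w ^ 2) :=
    mul_le_mul_of_nonneg_left c (by linarith)
  have e : 0 ≤ (x / 3 + 2 / 3) * (u ^ 2 + u * w + w ^ 2) -
      (x / 3 + 2 / 9) * f0 * (u + w - 2 * f1) - 2 * (x / 3 + 4 / 9) * f1 ^ 2 := by
    linarith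
  have := mul_nonneg (sub_nonneg.2 hwu) e
  linarith

theorem p1_1 (x f0 f1 g1 u : ℝ) (hx : 0 ≤ x) (h0 : 0 ≤ f0) (h01 : f0 ≤ f1)
    (h1 : f1 ≤ g1) (hu : u ≤ 1) : Aop x f0 f1 u ≤ Aop x f0 g1 u := by
  have key : Aop x f0 g1 u - Aop x f0 f1 u = (1 - u) * ((g1 - f1) * (2 * ((x / 3 + 4 / 9) *
      (g1 + f1) - (x / 3 + 2 / 9) * f0))) := by
    unfold Aop
    ring
  have a : (x / 3 + 2 / 9) * f0 ≤ (x / 3 + 4 / 9) * (g1 + f1) :=
    mul_le_mul (by linarith) (by linarith) h0 (by linarith)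
  have := mul_nonneg (sub_nonneg.2 hu) (mul_nonneg (sub_nonneg.2 h1)
    (show 0 ≤ 2 * ((x / 3 + 4 / 9) * (g1 + f1) - (x / 3 + 2 / 9) * f0) by linarith))
  linarith

theorem p1_0 (x f0 g0 g1 u : ℝ) (hx : 0 ≤ x) (h0 : f0 ≤ g0) (h1 : g1 ≤ u)
    (hu : u ≤ 1) : Aop x f0 g1 u ≤ Aop x g0 g1 u := by
  have key : Aop x g0 g1 u - Aop x f0 g1 u = (1 - u) * ((x / 3 + 2 / 9) * ((g0 - f0) *
      (1 + u - 2 * g1))) := by
    unfold Aop
    ring
  have := mul_nonneg (sub_nonneg.2 hu) (mul_nonneg (show 0 ≤ x / 3 + 2 / 9 by linarith)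
    (mul_nonneg (sub_nonneg.2 h0) (show 0 ≤ 1 + u - 2 * g1 by linarith)))
  linarith

/-- **P3.** -/
theorem sp3 : SP3 := by
  intro x f0 f1 w g0 g1 u hx _ h0 h01 h1w _ _ hg1 hu hf0 hf1 hwu
  exact (p1_w x f0 f1 w u hx h0 h01 h1w hwu).trans
    ((p1_1 x f0 f1 g1 u hx h0 h01 hf1 hu).trans (p1_0 x f0 g0 g1 u hx hf0 hg1 hu))

/-! ### SP5 -/

theorem p1_Zn (h : ℕ) : ∀ (v y : T), y ∈ Zn h v → v <:+ y := by
  induction h with
  | zero => intro v y hy; simp [Zn] at hy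
  | succ h ih =>
    intro v y hy
    rw [Zn, Finset.mem_insert, Finset.mem_biUnion] at hy
    rcases hy with rfl | ⟨i, -, hy⟩
    · exact List.suffix_refl _
    · exact (List.suffix_cons i v).trans (ih _ _ hy)

theorem p1_one {i j : Fin 3} {y : T} (hi : [i] <:+ y) (hj : [j] <:+ y) : i = j := by
  obtain ⟨s, hs⟩ := hi
  obtain ⟨t, ht⟩ := hj
  have h := List.append_inj' (hs.trans ht.symm) rfl
  exact (List.cons.inj h.2).1

/-- the subtrees of the other children of the root -/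
def p1_Z (h : ℕ) (i : Fin 3) : Finset T :=
  (Finset.univ.filter fun j : Fin 3 => j ≠ i).biUnion fun j => Zn h [j]

theorem p1_union (h : ℕ) (i : Fin 3) : Zr h = p1_Z h i ∪ Zn h [i] := by
  ext y
  unfold Zr p1_Z
  simp only [Finset.mem_union, Finset.mem_biUnion, Finset.mem_univ, true_and, Finset.mem_filter]
  constructor
  · rintro ⟨j, hj⟩
    by_cases hji : j = i
    · right
      rw [← hji]
      exact hj
    · exact Or.inl ⟨j, hji, hj⟩
  · rintro (⟨j, -, hj⟩ | hj)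
    · exact ⟨j, hj⟩
    · exact ⟨i, hj⟩

theorem p1_env (h : ℕ) (i : Fin 3) : Env [i] (p1_Z h i) 0 := by
  refine ⟨fun y hy hs => ?_, fun y hy => ?_⟩
  · unfold p1_Z at hy
    simp only [Finset.mem_biUnion, Finset.mem_univ, true_and, Finset.mem_filter] at hy
    obtain ⟨j, hji, hj⟩ := hy
    exact hji (p1_one (p1_Zn h _ _ hj) hs)
  · simp at hy

/-- **P5.** -/
theorem sp5 (h1 : SB01) (h2 : SRoot) : SP5 := by
  intro h L _ hL x hx0 hx1
  have h3 := h2 x hx0 hx1 h (Zr h) 0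
  have h4 : ∀ i : Fin 3, (ab h [i] fun S => Vw x S (Zr h) 0) ≤ L (fun m => x ^ m) := by
    intro i
    rw [p1_union h i]
    refine (hL.2 x hx0 hx1 [i] (p1_Z h i) 0 (by simp) (p1_env h i)).trans ?_
    refine hL.1.mono _ _ fun m => ?_
    unfold Ex
    have h5 : wt x ([i] : T).tail = x := by
      unfold wt
      exact if_pos rfl
    rw [h5]
    exact mul_le_of_le_one_right (pow_nonneg hx0 m) (h1 x hx0 hx1 _ _).2
  have h5 : ∑ i : Fin 3, (ab h [i] fun S => Vw x S (Zr h) 0) ≤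
      ∑ _i : Fin 3, L (fun m => x ^ m) := Finset.sum_le_sum fun i _ => h4 i
  rw [Finset.sum_const, Finset.card_univ, Fintype.card_fin, nsmul_eq_mul] at h5
  have h6 : ({[]} : Multiset T) = [] ::ₘ 0 := rfl
  rw [h6]
  push_cast at h5
  linarith

end Pool.Agent.H80.T3
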