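import Pool.Agent.H80.T3.P2b

/-!
# MP_2b43a6_pr, project T3, row P2: one more level of the second phase
-/

set_option autoImplicit false

namespace Pool.Agent.H80.T3

theorem p2_wt {x : ℝ} (hx0 : 0 ≤ x) (y : T) : 0 ≤ wt x y := by
  unfold wt
  split_ifs
  · exact hx0
  · exact zero_le_one

theorem p2_extail (x : ℝ) (h : ℕ) (v : T) (Z : Finset T) (A : Multiset T) (m : ℕ) :
    wt x v.tail * Ex x h v Z (v.tail ::ₘ A) m 0 = Ex x h v Z A (m + 1) 0 := by
  unfold Ex
  rw [Multiset.replicate_succ, Multiset.cons_add, Multiset.add_cons, pow_succ]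
  ring

/-- the step in the number of frogs -/
theorem p2_stepN (h2 : SMono) (h3 : SAb) (h5 : SOps) (h6 : SCFrog)
    {x : ℝ} (hx0 : 0 ≤ x) (hx1 : x ≤ 1) {h : ℕ} (hh : 1 ≤ h) {L : (ℕ → ℝ) → ℝ} (hP : PF L)
    (v : T) (hv : v ≠ []) (n N : ℕ)
    (ih : ∀ (s : Fin 3 → St) (Z : Finset T) (A : Multiset T),
      Env v Z A → (∀ i, s i = St.D ∨ s i = St.F ∨ s i = St.FA) → nF s + p2A s = n →
        Val x h v s Z A N ≤ p2St (p2Bs L n) N (nF s) (fun m => Ex x (h + 1) v Z A m 0)) :
    ∀ (s : Fin 3 → St) (Z : Finset T) (A : Multiset T),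
      Env v Z A → (∀ i, s i = St.D ∨ s i = St.F ∨ s i = St.FA) → nF s + p2A s = n →
        Val x h v s Z A (N + 1) ≤
          p2St (p2Bs L n) (N + 1) (nF s) (fun m => Ex x (h + 1) v Z A m 0) := by
  intro s Z A hE hs hn
  have hu := p2_nF3 s
  have hpf := p2_pfst (p2_pfbs hP n) N (nF s) hu
  have r := h6 x hx0 hx1 h hh v Z A hv hE s N
  -- the first term
  have hE2 : Env v Z (v.tail ::ₘ A) := by
    refine ⟨hE.1, fun y hy => ?_⟩
    rcases Multiset.mem_cons.1 hy with rfl | hy
    · intro hc
      have h1 := hc.length_le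
      have h2 : 0 < v.length := List.length_pos_iff.2 hv
      rw [List.length_tail] at h1
      omega
    · exact hE.2 y hy
  have t1 : wt x v.tail * Val x h v s Z (v.tail ::ₘ A) N ≤
      p2St (p2Bs L n) N (nF s) (fun m => Ex x (h + 1) v Z A (m + 1) 0) := by
    have e := mul_le_mul_of_nonneg_left (ih s Z (v.tail ::ₘ A) hE2 hs hn) (p2_wt hx0 v.tail)
    rw [← hpf.smul] at e
    have e2 : (fun m => wt x v.tail * Ex x (h + 1) v Z (v.tail ::ₘ A) m 0) =
        fun m => Ex x (h + 1) v Z A (m + 1) 0 := by
      funext m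
      exact p2_extail x (h + 1) v Z A m
    rw [e2] at e
    exact e
  -- the second term
  have t2 : ∑ i : Fin 3, Val x h v (Function.update s i (s i).addA) Z A N ≤
      (nF s : ℝ) * p2St (p2Bs L n) N (nF s - 1) (fun m => Ex x (h + 1) v Z A m 0) +
        (3 - (nF s : ℝ)) * p2St (p2Bs L n) N (nF s) (fun m => Ex x (h + 1) v Z A m 0) := by
    rw [← p2_sum]
    refine Finset.sum_le_sum (fun i _ => ?_)
    rcases hs i with e | e | e
    · rw [if_neg (by rw [e]; decide), e]
      have e3 : Function.update s i (St.addA St.D) = s := by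
        show Function.update s i St.D = s
        rw [← e, Function.update_eq_self]
      rw [e3]
      exact ih s Z A hE hs hn
    · rw [if_pos e, e]
      show Val x h v (Function.update s i St.FA) Z A N ≤ _
      have c1 : nF (Function.update s i St.FA) + 1 = nF s :=
        p2_cnt_erase s i St.FA St.F (by decide) e
      have c2 : p2A (Function.update s i St.FA) = p2A s + 1 :=
        p2_cnt_insert s i St.FA (by rw [e]; decide)
      have c3 : nF s - 1 = nF (Function.update s i St.FA) := by omega
      rw [c3]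
      refine ih (Function.update s i St.FA) Z A hE (fun j => ?_) (by omega)
      by_cases hj : j = i
      · rw [hj, Function.update_self]
        exact Or.inr (Or.inr rfl)
      · rw [Function.update_of_ne hj]
        exact hs j
    · rw [if_neg (by rw [e]; decide), e]
      show Val x h v (Function.update s i St.FAA) Z A N ≤ _
      refine (p2_faa h2 h3 h5 hx0 hx1 h v s i Z A N).trans ?_
      have e3 : Function.update s i St.FA = s := by
        rw [← e, Function.update_eq_self]
      rw [e3]
      exact ih s Z A hE hs hn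
  -- the third term
  have t3 : (∑ i : Fin 3, if s i = St.F then
      Val x h v (Function.update s i St.FL) Z A (N + 1) else 0) ≤
      (nF s : ℝ) * Val x h v s Z A (N + 1) := by
    have e : (nF s : ℝ) * Val x h v s Z A (N + 1) =
        ∑ i : Fin 3, if s i = St.F then Val x h v s Z A (N + 1) else 0 := by
      rw [p2_sum]
      ring
    rw [e]
    refine Finset.sum_le_sum (fun i _ => ?_)
    by_cases hi : s i = St.F
    · rw [if_pos hi, if_pos hi]
      refine (p2_fl h2 h5 hx0 hx1 h v s i Z A (N + 1)).trans (le_of_eq ?_)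
      have e3 : Function.update s i St.F = s := by
        rw [← hi, Function.update_eq_self]
      rw [e3]
    · rw [if_neg hi, if_neg hi]
  rw [p2_sts]
  linarith

/-- the bound of the values of the states by the functionals -/
theorem p2_main (h2 : SMono) (h3 : SAb) (h5 : SOps) (h6 : SCFrog) (h9 : SEx) (h10 : SCFin)
    {x : ℝ} (hx0 : 0 ≤ x) (hx1 : x ≤ 1) {h : ℕ} (hh : 1 ≤ h) {L : (ℕ → ℝ) → ℝ} (hL : Lv1 h L)
    (v : T) (hv : v ≠ []) : ∀ (n N : ℕ) (s : Fin 3 → St) (Z : Finset T) (A : Multiset T),
      Env v Z A → (∀ i, s i = St.D ∨ s i = St.F ∨ s i = St.FA) → nF s + p2A s = n →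
        Val x h v s Z A N ≤ p2St (p2Bs L n) N (nF s) (fun m => Ex x (h + 1) v Z A m 0) := by
  have hP := hL.1
  intro n
  induction n with
  | zero =>
    intro N
    induction N with
    | zero =>
      intro s Z A hE hs hn
      have hq : ∀ i, (s i).quiet = true := by
        intro i
        rcases hs i with e | e | e
        · rw [e]; rfl
        · rw [e]; rfl
        · exfalso
          have : 0 < p2A s := Finset.card_pos.2 ⟨i, by simp [e]⟩
          omega
      have e1 := h10 x hx0 hx1 h hh v Z A hv hE s hq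
      have e2 := h9 x hx0 hx1 (h + 1) v Z A 0 0 0 (nF s) le_rfl (Nat.zero_le _)
      rw [p2_st0, p2_bs0]
      exact e1.trans e2
    | succ N ihN => exact p2_stepN h2 h3 h5 h6 hx0 hx1 hh hP v hv 0 N ihN
  | succ n ihn =>
    intro N
    induction N with
    | zero =>
      intro s Z A hE hs hn
      by_cases hA : p2A s = 0
      · have hq : ∀ i, (s i).quiet = true := by
          intro i
          rcases hs i with e | e | e
          · rw [e]; rfl
          · rw [e]; rfl
          · exfalso
            have : 0 < p2A s := Finset.card_pos.2 ⟨i, by simp [e]⟩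
            omega
        have e1 := h10 x hx0 hx1 h hh v Z A hv hE s hq
        have e2 := h9 x hx0 hx1 (h + 1) v Z A 0 0 0 (nF s) le_rfl (Nat.zero_le _)
        rw [p2_st0, p2_bss, if_pos (by omega)]
        exact e1.trans e2
      · obtain ⟨i, hi⟩ := Finset.card_pos.1 (Nat.pos_of_ne_zero hA)
        have hi2 : s i = St.FA := (Finset.mem_filter.1 hi).2
        have e1 := p2_proc h3 h5 hx0 hx1 hL v hv Z A hE s i hi2
        have c1 : nF (Function.update s i St.D) = nF s :=
          p2_cnt_other s i St.D St.F (by decide) (by rw [hi2]; decide)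
        have c2 : p2A (Function.update s i St.D) + 1 = p2A s :=
          p2_cnt_erase s i St.D St.FA (by decide) hi2
        rw [p2_st0, p2_bss, if_neg (by omega)]
        refine e1.trans (hP.mono _ _ (fun R => ?_))
        have e2 := ihn R (Function.update s i St.D) Z A hE (fun j => ?_) (by omega)
        · rw [c1] at e2
          exact e2
        · by_cases hj : j = i
          · rw [hj, Function.update_self]
            exact Or.inl rfl
          · rw [Function.update_of_ne hj]
            exact hs j
    | succ N ihN => exact p2_stepN h2 h3 h5 h6 hx0 hx1 hh hP v hv (n + 1) N ihN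

theorem p2_pB (B : Finset (Fin 3)) : 0 ≤ pB B := by
  unfold pB
  split_ifs <;> norm_num

/-- P2: one more level -/
theorem sp2 (_h1 : SB01) (h2 : SMono) (h3 : SAb) (h4 : SAbC) (h5 : SOps) (h6 : SCFrog)
    (_h7 : SCD) (h8 : SCtx1) (h9 : SEx) (h10 : SCFin) : SP2 := by
  intro h L hh hL
  have hP := hL.1
  refine ⟨p2St (p2Bs L 3) 1 2, ⟨p2_pfst (p2_pfbs hP 3) 1 2 (by norm_num), ?_⟩,
    fun x _ _ => p2_v211 hP x⟩
  intro x hx0 hx1 v Z A hv hE
  refine (h8 x hx0 hx1 h hh v Z A hv hE).1.trans ?_
  set R := p2St (p2Bs L 3) 1 2 (fun m => Ex x (h + 1) v Z A m 0) with hR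
  have hval : ∀ (B : Finset (Fin 3)) (i : Fin 3), Val x h v (start 3 [(B, i)]) Z A 1 ≤ R := by
    intro B i
    have d1 : Val x h v (start 3 [(B, i)]) Z A 1 ≤
        Val x h v (fun j => if j = i then St.FA else St.F) Z A 1 := by
      refine p2_drop h2 h5 hx0 hx1 h v _ _ (fun j => ?_) Z A 1
      have hj3 : (j : ℕ) < 3 := j.2
      by_cases hj : j = i
      · left
        by_cases hB : j ∈ B
        · simp [start, hj, hj ▸ hB, St.addL, St.addA]
        · simp [start, hj, hj ▸ hB, St.addL, St.addA]
      · by_cases hB : j ∈ B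
        · right
          simp [start, hj, hB, St.addL]
        · left
          simp [start, hj, hB]
    refine d1.trans ?_
    have c1 : nF (fun j => if j = i then St.FA else St.F) = 2 := by
      unfold nF
      fin_cases i <;> decide
    have c2 : p2A (fun j => if j = i then St.FA else St.F) = 1 := by
      unfold p2A
      fin_cases i <;> decide
    have e := p2_main h2 h3 h5 h6 h9 h10 hx0 hx1 hh hL v hv 3 1
      (fun j => if j = i then St.FA else St.F) Z A hE (fun j => ?_) (by omega)
    · rw [c1] at e
      exact e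
    · by_cases hj : j = i
      · exact Or.inr (Or.inr (if_pos hj))
      · exact Or.inr (Or.inl (if_neg hj))
  have e : R = ∑ B : Finset (Fin 3), pB B * R := by
    rw [← Finset.sum_mul, h4.2, one_mul]
  rw [e]
  refine Finset.sum_le_sum (fun B _ => mul_le_mul_of_nonneg_left ?_ (p2_pB B))
  rw [Fin.sum_univ_three]
  linarith [hval B 0, hval B 1, hval B 2]

end Pool.Agent.H80.T3
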