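import Pool.Agent.H80.T3.Stm

/-!
# MP_2b43a6_pr, project T3, row R1: averages over absorbed runs
-/

set_option autoImplicit false

namespace Pool.Agent.H80.T3

/-- linear functionals on the functions of a finite set of vertices -/
structure RLin (L : (Finset T → ℝ) → ℝ) : Prop where
  add : ∀ f g : Finset T → ℝ, L (fun S => f S + g S) = L f + L g
  smul : ∀ (c : ℝ) (f : Finset T → ℝ), L (fun S => c * f S) = c * L f

theorem RLin.zero {L : (Finset T → ℝ) → ℝ} (hL : RLin L) : L (fun _ => 0) = 0 := by
  have h := hL.smul 0 (fun _ => 0)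
  simpa using h

theorem RLin.sum {L : (Finset T → ℝ) → ℝ} (hL : RLin L) {ι : Type*} (s : Finset ι)
    (F : ι → Finset T → ℝ) : L (fun S => ∑ i ∈ s, F i S) = ∑ i ∈ s, L (F i) := by
  classical
  induction s using Finset.induction_on with
  | empty => simpa using hL.zero
  | insert a s ha ih =>
    have h1 : (fun S => ∑ i ∈ insert a s, F i S) = fun S => F a S + ∑ i ∈ s, F i S := by
      funext S
      rw [Finset.sum_insert ha]
    rw [h1, hL.add, Finset.sum_insert ha, ih]

/-! ### the weights -/

theorem pB_nonneg (B : Finset (Fin 3)) : 0 ≤ pB B := by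
  unfold pB
  split_ifs <;> norm_num

theorem univ_fin3 : (Finset.univ : Finset (Finset (Fin 3))) =
    {∅, {0}, {1}, {2}, {0, 1}, {0, 2}, {1, 2}, {0, 1, 2}} := by decide

theorem pB_sum : ∑ B : Finset (Fin 3), pB B = 1 := by
  have h : ∀ B : Finset (Fin 3), pB B = (if B.card = 0 then 165 / 220 else if B.card = 1 then
    15 / 220 else if B.card = 2 then 3 / 220 else 1 / 220 : ℝ) := fun B => rfl
  have h0 : (∅ : Finset (Fin 3)).card = 0 := by decide
  have h1 : ({0} : Finset (Fin 3)).card = 1 := by decide
  have h2 : ({1} : Finset (Fin 3)).card = 1 := by decide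
  have h3 : ({2} : Finset (Fin 3)).card = 1 := by decide
  have h4 : ({0, 1} : Finset (Fin 3)).card = 2 := by decide
  have h5 : ({0, 2} : Finset (Fin 3)).card = 2 := by decide
  have h6 : ({1, 2} : Finset (Fin 3)).card = 2 := by decide
  have h7 : ({0, 1, 2} : Finset (Fin 3)).card = 3 := by decide
  rw [univ_fin3, Finset.sum_insert (by decide), Finset.sum_insert (by decide),
    Finset.sum_insert (by decide), Finset.sum_insert (by decide), Finset.sum_insert (by decide),
    Finset.sum_insert (by decide), Finset.sum_insert (by decide), Finset.sum_singleton]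
  simp only [h, h0, h1, h2, h3, h4, h5, h6, h7]
  norm_num

/-! ### the averages `ab` -/

theorem ab_zero (y : T) (G : Finset T → ℝ) : ab 0 y G = G ∅ := rfl

theorem ab_succ (h : ℕ) (y : T) (G : Finset T → ℝ) : ab (h + 1) y G =
    ∑ B : Finset (Fin 3), pB B * ((1 / 3) * ∑ i : Fin 3,
      ab h (i :: y) (fun S => G (insert y (ch y B ∪ S)))) := rfl

theorem ab_lin (h : ℕ) : ∀ y : T, RLin (ab h y) := by
  induction h with
  | zero => intro y; exact ⟨fun f g => rfl, fun c f => rfl⟩
  | succ h ih =>
    intro y
    refine ⟨fun f g => ?_, fun c f => ?_⟩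
    · rw [ab_succ, ab_succ, ab_succ, ← Finset.sum_add_distrib]
      refine Finset.sum_congr rfl fun B _ => ?_
      rw [← mul_add, ← mul_add, ← Finset.sum_add_distrib]
      refine congrArg _ (congrArg _ (Finset.sum_congr rfl fun i _ => ?_))
      exact (ih (i :: y)).add (fun S => f (insert y (ch y B ∪ S)))
        (fun S => g (insert y (ch y B ∪ S)))
    · rw [ab_succ, ab_succ, Finset.mul_sum]
      refine Finset.sum_congr rfl fun B _ => ?_
      have h1 : ∑ i : Fin 3, ab h (i :: y) (fun S => c * f (insert y (ch y B ∪ S))) =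
          c * ∑ i : Fin 3, ab h (i :: y) (fun S => f (insert y (ch y B ∪ S))) := by
        rw [Finset.mul_sum]
        exact Finset.sum_congr rfl fun i _ =>
          (ih (i :: y)).smul c (fun S => f (insert y (ch y B ∪ S)))
      rw [h1]
      ring

theorem ab_const (h : ℕ) : ∀ (y : T) (c : ℝ), ab h y (fun _ => c) = c := by
  induction h with
  | zero => intro y c; rfl
  | succ h ih =>
    intro y c
    rw [ab_succ]
    have h1 : ∀ B : Finset (Fin 3), pB B * ((1 / 3) * ∑ i : Fin 3,
        ab h (i :: y) (fun _ => c)) = pB B * c := by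
      intro B
      have h2 : ∑ i : Fin 3, ab h (i :: y) (fun _ => c) = 3 * c := by
        rw [Finset.sum_congr rfl fun i _ => ih (i :: y) c]
        simp
      rw [h2]
      ring
    rw [Finset.sum_congr rfl fun B _ => h1 B, ← Finset.sum_mul, pB_sum, one_mul]

theorem ab_mono (h : ℕ) : ∀ (y : T) (f g : Finset T → ℝ),
    (∀ S, (∀ z ∈ S, y <:+ z) → (1 ≤ h → y ∈ S) → f S ≤ g S) → ab h y f ≤ ab h y g := by
  induction h with
  | zero =>
    intro y f g H
    exact H ∅ (fun z hz => absurd hz (Finset.notMem_empty z)) (fun h0 => absurd h0 (by norm_num))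
  | succ h ih =>
    intro y f g H
    rw [ab_succ, ab_succ]
    refine Finset.sum_le_sum fun B _ => ?_
    refine mul_le_mul_of_nonneg_left ?_ (pB_nonneg B)
    refine mul_le_mul_of_nonneg_left ?_ (by norm_num)
    refine Finset.sum_le_sum fun i _ => ?_
    refine ih (i :: y) _ _ fun S hS _ => ?_
    refine H _ (fun z hz => ?_) (fun _ => Finset.mem_insert_self _ _)
    rcases Finset.mem_insert.1 hz with h1 | h1
    · rw [h1]
    · rcases Finset.mem_union.1 h1 with h2 | h2
      · obtain ⟨k, -, hk⟩ := Finset.mem_image.1 h2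
        rw [← hk]
        exact List.suffix_cons _ _
      · exact (List.suffix_cons i y).trans (hS z h2)

/-- every linear functional commutes with the averages -/
theorem RLin.ab_comm {L : (Finset T → ℝ) → ℝ} (hL : RLin L) (h : ℕ) :
    ∀ (y : T) (G : Finset T → Finset T → ℝ),
      L (fun S => ab h y (fun S' => G S S')) = ab h y (fun S' => L (fun S => G S S')) := by
  induction h with
  | zero => intro y G; rfl
  | succ h ih =>
    intro y G
    rw [ab_succ]
    have h1 : (fun S => ab (h + 1) y (fun S' => G S S')) = fun S =>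
        ∑ B : Finset (Fin 3), pB B * ((1 / 3) * ∑ i : Fin 3,
          ab h (i :: y) (fun S' => G S (insert y (ch y B ∪ S')))) := rfl
    rw [h1, hL.sum]
    refine Finset.sum_congr rfl fun B _ => ?_
    rw [hL.smul, hL.smul, hL.sum]
    refine congrArg _ (congrArg _ (Finset.sum_congr rfl fun i _ => ?_))
    exact ih (i :: y) (fun S S' => G S (insert y (ch y B ∪ S')))

theorem sab : SAb := fun h y =>
  ⟨ab_mono h y, (ab_lin h y).add, (ab_lin h y).smul, ab_const h y⟩

theorem sabc : SAbC :=
  ⟨fun h h' y y' G => (ab_lin h y).ab_comm h' y' G, pB_sum⟩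

/-! ### the averages `op` -/

theorem op_lin (h : ℕ) (c : T) (s : St) : RLin (s.op h c) := by
  have h0 : ∀ S : Finset T, RLin (fun G : Finset T → ℝ => G S) := fun S =>
    ⟨fun f g => rfl, fun c f => rfl⟩
  have h2 : RLin (fun G : Finset T → ℝ => ab h c (fun S => ab h c (fun S' => G (S ∪ S')))) := by
    refine ⟨fun f g => ?_, fun a f => ?_⟩
    · have h3 : (fun S => ab h c (fun S' => f (S ∪ S') + g (S ∪ S'))) =
          fun S => ab h c (fun S' => f (S ∪ S')) + ab h c (fun S' => g (S ∪ S')) := by
        funext S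
        exact (ab_lin h c).add (fun S' => f (S ∪ S')) (fun S' => g (S ∪ S'))
      show ab h c (fun S => ab h c (fun S' => f (S ∪ S') + g (S ∪ S'))) = _
      rw [h3]
      exact (ab_lin h c).add _ _
    · have h3 : (fun S => ab h c (fun S' => a * f (S ∪ S'))) =
          fun S => a * ab h c (fun S' => f (S ∪ S')) := by
        funext S
        exact (ab_lin h c).smul a (fun S' => f (S ∪ S'))
      show ab h c (fun S => ab h c (fun S' => a * f (S ∪ S'))) = _
      rw [h3]
      exact (ab_lin h c).smul _ _
  cases s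
  case D => exact h0 ∅
  case V1 => exact h0 ∅
  case V1A => exact ab_lin h c
  case V2 => exact h0 ∅
  case V2A => exact ab_lin h c
  case V3 => exact h0 ∅
  case V3A => exact ab_lin h c
  case F => exact h0 ∅
  case FL => exact h0 {c}
  case FA => exact ab_lin h c
  case FAA => exact h2

theorem op_const (h : ℕ) (c : T) (s : St) (a : ℝ) : s.op h c (fun _ => a) = a := by
  cases s
  case V1A => exact ab_const h c a
  case V2A => exact ab_const h c a
  case V3A => exact ab_const h c a
  case FA => exact ab_const h c a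
  case FAA =>
    show ab h c (fun _ => ab h c (fun _ => a)) = a
    rw [ab_const, ab_const]
  all_goals rfl

theorem op_mono (h : ℕ) (c : T) (s : St) (f g : Finset T → ℝ)
    (H : ∀ S, (∀ z ∈ S, c <:+ z) → f S ≤ g S) : s.op h c f ≤ s.op h c g := by
  have h0 : f ∅ ≤ g ∅ := H ∅ (fun z hz => absurd hz (Finset.notMem_empty z))
  have h1 : ab h c f ≤ ab h c g := ab_mono h c f g fun S hS _ => H S hS
  cases s
  case D => exact h0
  case V1 => exact h0
  case V1A => exact h1
  case V2 => exact h0
  case V2A => exact h1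
  case V3 => exact h0
  case V3A => exact h1
  case F => exact h0
  case FL =>
    refine H {c} (fun z hz => ?_)
    rw [Finset.mem_singleton.1 hz]
  case FA => exact h1
  case FAA =>
    refine ab_mono h c _ _ fun S hS _ => ?_
    refine ab_mono h c _ _ fun S' hS' _ => ?_
    refine H _ fun z hz => ?_
    rcases Finset.mem_union.1 hz with h2 | h2
    · exact hS z h2
    · exact hS' z h2

theorem RLin.op_comm {L : (Finset T → ℝ) → ℝ} (hL : RLin L) (h : ℕ) (c : T) (s : St)
    (G : Finset T → Finset T → ℝ) :
    L (fun S => s.op h c (fun S' => G S S')) = s.op h c (fun S' => L (fun S => G S S')) := by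
  have h1 := hL.ab_comm h c G
  cases s
  case V1A => exact h1
  case V2A => exact h1
  case V3A => exact h1
  case FA => exact h1
  case FAA =>
    have h2 := hL.ab_comm h c (fun S S1 => ab h c (fun S2 => G S (S1 ∪ S2)))
    refine Eq.trans h2 ?_
    refine congrArg (ab h c) (funext fun S1 => ?_)
    exact hL.ab_comm h c (fun S S2 => G S (S1 ∪ S2))
  all_goals rfl

/-! ### the averages `ops` -/

theorem ops_lin (h : ℕ) (v : T) (s : Fin 3 → St) : RLin (ops h v s) := by
  refine ⟨fun f g => ?_, fun a f => ?_⟩
  · unfold ops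
    rw [← (op_lin h (0 :: v) (s 0)).add]
    refine congrArg _ (funext fun S0 => ?_)
    rw [← (op_lin h (1 :: v) (s 1)).add]
    refine congrArg _ (funext fun S1 => ?_)
    exact (op_lin h (2 :: v) (s 2)).add _ _
  · unfold ops
    rw [← (op_lin h (0 :: v) (s 0)).smul]
    refine congrArg _ (funext fun S0 => ?_)
    rw [← (op_lin h (1 :: v) (s 1)).smul]
    refine congrArg _ (funext fun S1 => ?_)
    exact (op_lin h (2 :: v) (s 2)).smul _ _

theorem ops_const (h : ℕ) (v : T) (s : Fin 3 → St) (a : ℝ) : ops h v s (fun _ => a) = a := by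
  unfold ops
  simp only [op_const]

theorem ops_mono (h : ℕ) (v : T) (s : Fin 3 → St) (f g : Finset T → ℝ)
    (H : ∀ S, (∀ z ∈ S, ∃ i : Fin 3, (i :: v) <:+ z) → f S ≤ g S) :
    ops h v s f ≤ ops h v s g := by
  unfold ops
  refine op_mono h _ _ _ _ fun S0 h0 => op_mono h _ _ _ _ fun S1 h1 =>
    op_mono h _ _ _ _ fun S2 h2 => H _ fun z hz => ?_
  rcases Finset.mem_union.1 hz with h3 | h3
  · exact ⟨0, h0 z h3⟩
  · rcases Finset.mem_union.1 h3 with h4 | h4
    · exact ⟨1, h1 z h4⟩
    · exact ⟨2, h2 z h4⟩

theorem ops_inner (h : ℕ) (v : T) (s : Fin 3 → St) (i : Fin 3) (G : Finset T → ℝ) :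
    ops h v s G = ops h v (Function.update s i St.D)
      (fun S' => (s i).op h (i :: v) (fun S => G (S ∪ S'))) := by
  have e3 : i = 0 ∨ i = 1 ∨ i = 2 := by
    fin_cases i
    · exact Or.inl rfl
    · exact Or.inr (Or.inl rfl)
    · exact Or.inr (Or.inr rfl)
  have d0 : ∀ (c : T) (G' : Finset T → ℝ), St.D.op h c G' = G' ∅ := fun _ _ => rfl
  rcases e3 with rfl | rfl | rfl
  · unfold ops
    rw [Function.update_self, Function.update_of_ne (by decide), Function.update_of_ne (by decide),
      d0]
    simp only [Finset.empty_union]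
    rw [← (op_lin h (1 :: v) (s 1)).op_comm h (0 :: v) (s 0)
      (fun S1 S0 => (s 2).op h (2 :: v) fun S2 => G (S0 ∪ (S1 ∪ S2)))]
    refine congrArg _ (funext fun S1 => ?_)
    rw [← (op_lin h (2 :: v) (s 2)).op_comm h (0 :: v) (s 0)
      (fun S2 S0 => G (S0 ∪ (S1 ∪ S2)))]
  · unfold ops
    rw [Function.update_self, Function.update_of_ne (by decide), Function.update_of_ne (by decide)]
    refine congrArg _ (funext fun S0 => ?_)
    rw [d0, ← (op_lin h (2 :: v) (s 2)).op_comm h (1 :: v) (s 1)
      (fun S2 S1 => G (S0 ∪ (S1 ∪ S2)))]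
    refine congrArg _ (funext fun S2 => ?_)
    refine congrArg _ (funext fun S1 => ?_)
    rw [Finset.empty_union, Finset.union_left_comm]
  · unfold ops
    rw [Function.update_self, Function.update_of_ne (by decide), Function.update_of_ne (by decide)]
    refine congrArg _ (funext fun S0 => ?_)
    refine congrArg _ (funext fun S1 => ?_)
    rw [d0]
    refine congrArg _ (funext fun S2 => ?_)
    rw [Finset.union_empty, ← Finset.union_assoc, Finset.union_comm]

theorem ops_mono_ne (h : ℕ) (v : T) (s : Fin 3 → St) (i : Fin 3) (f g : Finset T → ℝ)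
    (H : ∀ S, (∀ z ∈ S, ∃ j : Fin 3, j ≠ i ∧ (j :: v) <:+ z) → f S ≤ g S) :
    ops h v (Function.update s i St.D) f ≤ ops h v (Function.update s i St.D) g := by
  have key : ∀ (j : Fin 3) (f' g' : Finset T → ℝ),
      (∀ S, (∀ z ∈ S, j ≠ i ∧ (j :: v) <:+ z) → f' S ≤ g' S) →
      (Function.update s i St.D j).op h (j :: v) f' ≤
        (Function.update s i St.D j).op h (j :: v) g' := by
    intro j f' g' H'
    by_cases hj : j = i
    · subst hj
      rw [Function.update_self]
      exact H' ∅ fun z hz => absurd hz (Finset.notMem_empty z)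
    · exact op_mono h _ _ _ _ fun S hS => H' S fun z hz => ⟨hj, hS z hz⟩
  unfold ops
  refine key 0 _ _ fun S0 h0 => key 1 _ _ fun S1 h1 => key 2 _ _ fun S2 h2 => H _ fun z hz => ?_
  rcases Finset.mem_union.1 hz with h3 | h3
  · exact ⟨0, h0 z h3⟩
  · rcases Finset.mem_union.1 h3 with h4 | h4
    · exact ⟨1, h1 z h4⟩
    · exact ⟨2, h2 z h4⟩

theorem bas_eq (h : ℕ) (v : T) (s : Fin 3 → St) (i : Fin 3) :
    bas h v s = (s i).bs h (i :: v) ∪ bas h v (Function.update s i St.D) := by
  have e3 : i = 0 ∨ i = 1 ∨ i = 2 := by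
    fin_cases i
    · exact Or.inl rfl
    · exact Or.inr (Or.inl rfl)
    · exact Or.inr (Or.inr rfl)
  have d0 : ∀ c : T, St.D.bs h c = ∅ := fun _ => rfl
  unfold bas
  rcases e3 with rfl | rfl | rfl
  · rw [Function.update_self, Function.update_of_ne (by decide), Function.update_of_ne (by decide),
      d0, Finset.empty_union]
  · rw [Function.update_self, Function.update_of_ne (by decide), Function.update_of_ne (by decide),
      d0, Finset.empty_union, Finset.union_left_comm]
  · rw [Function.update_self, Function.update_of_ne (by decide), Function.update_of_ne (by decide),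
      d0, Finset.union_empty, ← Finset.union_assoc, Finset.union_comm]

theorem ops_comm (h : ℕ) (v : T) (s : Fin 3 → St) (h' : ℕ) (y : T)
    (G : Finset T → Finset T → ℝ) :
    ops h v s (fun S => ab h' y (fun S' => G S S')) =
      ab h' y (fun S' => ops h v s (fun S => G S S')) :=
  (ops_lin h v s).ab_comm h' y G

theorem sops : SOps := fun h v s =>
  ⟨ops_mono h v s, (ops_lin h v s).add, (ops_lin h v s).smul, ops_const h v s, ops_inner h v s,
    ops_mono_ne h v s, bas_eq h v s, ops_comm h v s⟩

end Pool.Agent.H80.T3
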