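import Pool.Agent.H80.T3.Stm

/-!
# MP_2b43a6_pr, project T3, row R2: a frog without waking
-/

set_option autoImplicit false

namespace Pool.Agent.H80.T3

theorem r2_wt_nonneg (x : ℝ) (hx : 0 ≤ x) (y : T) : 0 ≤ wt x y := by
  unfold wt
  split_ifs
  · exact hx
  · norm_num

theorem r2_arr_le (h2 : SMono) (x : ℝ) (hx : 0 ≤ x) (hx1 : x ≤ 1) (Z : Finset T)
    (A : Multiset T) (z : T) : arr x (V x) Z A z ≤ wt x z * V x Z (z ::ₘ A) := by
  unfold arr
  apply mul_le_mul_of_nonneg_left _ (r2_wt_nonneg x hx z)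
  split_ifs with hz
  · apply h2 x hx hx1 Z (Z.erase z) {z} (z ::ₘ A) (z ::ₘ z ::ₘ A)
    · simpa using hz
    · have : (z ::ₘ A) + ({z} : Finset T).val = z ::ₘ z ::ₘ A := by
        rw [Finset.singleton_val, add_comm, Multiset.singleton_add]
      rw [this]
    · intro w hw
      rw [Finset.mem_sdiff, Finset.mem_singleton] at hw
      exact Finset.mem_erase.2 ⟨hw.2, hw.1⟩
  · exact le_rfl

theorem r2_step (h2 : SMono) (h3 : SStep) (x : ℝ) (hx : 0 ≤ x) (hx1 : x ≤ 1) (Z : Finset T)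
    (A : Multiset T) (u : T) (hu : u ≠ []) :
    V x Z (u ::ₘ A) ≤ (1 / 4) * (wt x u.tail * V x Z (u.tail ::ₘ A)) +
      (1 / 4) * ∑ i : Fin 3, V x Z ((i :: u) ::ₘ A) := by
  have h := h3 x hx hx1 Z A u
  unfold stp at h
  rw [if_neg hu] at h
  have h4 := r2_arr_le h2 x hx hx1 Z A u.tail
  have h5 : ∑ i : Fin 3, arr x (V x) Z A (i :: u) ≤ ∑ i : Fin 3, V x Z ((i :: u) ::ₘ A) := by
    apply Finset.sum_le_sum
    intro i _
    have h6 := r2_arr_le h2 x hx hx1 Z A (i :: u)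
    have h7 : wt x (i :: u) = 1 := by
      unfold wt
      rw [if_neg (List.cons_ne_nil _ _)]
    rw [h7, one_mul] at h6
    exact h6
  linarith

theorem r2_claim (h2 : SMono) (h3 : SStep) (x : ℝ) (hx : 0 ≤ x) (hx1 : x ≤ 1)
    (Z : Finset T) (A : Multiset T) (k : ℕ) : ∃ r : ℝ, 0 ≤ r ∧ r ≤ 1 / 3 ∧
      1 / 3 - r ≤ (1 / 3 : ℝ) ^ (k + 1) ∧ ∀ u : T, u ≠ [] →
      V x Z (u ::ₘ A) ≤ (1 - r) * V x Z A + r * (wt x u.tail * V x Z (u.tail ::ₘ A)) := by
  induction k with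
  | zero =>
    refine ⟨0, le_rfl, by norm_num, by norm_num, fun u _ => ?_⟩
    have h := h2 x hx hx1 Z Z ∅ A (u ::ₘ A) (Finset.empty_subset _)
      (by simpa using Multiset.le_cons_self A u) (by simp)
    linarith
  | succ k ih =>
    obtain ⟨r, hr0, hr1, hr2, hr⟩ := ih
    have hd : (0 : ℝ) < 4 - 3 * r := by linarith
    have hd3 : (3 : ℝ) ≤ 4 - 3 * r := by linarith
    refine ⟨1 / (4 - 3 * r), by positivity, ?_, ?_, ?_⟩
    · rw [div_le_div_iff₀ hd (by norm_num)]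
      linarith
    · have h6 : 1 / 3 - 1 / (4 - 3 * r) = (1 / 3 - r) / (4 - 3 * r) := by
        field_simp
        ring
      rw [h6, div_le_iff₀ hd]
      have h7 : (1 / 3 : ℝ) ^ (k + 1 + 1) = (1 / 3 : ℝ) ^ (k + 1) * (1 / 3) := pow_succ _ _
      have h8 : (0 : ℝ) ≤ (1 / 3 : ℝ) ^ (k + 1) := by positivity
      rw [h7]
      nlinarith
    · intro u hu
      have h := r2_step h2 h3 x hx hx1 Z A u hu
      have h5 : ∑ i : Fin 3, V x Z ((i :: u) ::ₘ A) ≤
          ∑ _i : Fin 3, ((1 - r) * V x Z A + r * V x Z (u ::ₘ A)) := by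
        apply Finset.sum_le_sum
        intro i _
        have h6 := hr (i :: u) (List.cons_ne_nil _ _)
        have h7 : wt x u = 1 := by
          unfold wt
          rw [if_neg hu]
        rw [List.tail_cons, h7, one_mul] at h6
        exact h6
      rw [Finset.sum_const, Finset.card_univ, Fintype.card_fin, nsmul_eq_mul] at h5
      push_cast at h5
      have h9 : (4 - 3 * r) * V x Z (u ::ₘ A) ≤ 3 * (1 - r) * V x Z A +
          wt x u.tail * V x Z (u.tail ::ₘ A) := by nlinarith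
      have h10 : (1 - 1 / (4 - 3 * r)) * V x Z A +
          1 / (4 - 3 * r) * (wt x u.tail * V x Z (u.tail ::ₘ A)) =
          (3 * (1 - r) * V x Z A + wt x u.tail * V x Z (u.tail ::ₘ A)) / (4 - 3 * r) := by
        field_simp
        ring
      rw [h10, le_div_iff₀ hd]
      linarith

/-- R2: a frog in a region without sleeping frogs -/
theorem srun0 (h1 : SB01) (h2 : SMono) (h3 : SStep) : SRun0 := by
  intro x hx hx1 Z A y hy
  apply le_of_forall_pos_le_add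
  intro ε hε
  obtain ⟨k, hk⟩ := exists_pow_lt_of_lt_one hε (by norm_num : (1 / 3 : ℝ) < 1)
  obtain ⟨r, hr0, hr1, hr2, hr⟩ := r2_claim h2 h3 x hx hx1 Z A k
  have h := hr y hy
  have hA := (h1 x hx hx1 Z A).2
  have hA0 := (h1 x hx hx1 Z A).1
  have hW : 0 ≤ wt x y.tail * V x Z (y.tail ::ₘ A) :=
    mul_nonneg (r2_wt_nonneg x hx _) (h1 x hx hx1 Z _).1
  have h7 : (1 / 3 : ℝ) ^ (k + 1) = (1 / 3 : ℝ) ^ k * (1 / 3) := pow_succ _ _
  have h8 : (0 : ℝ) ≤ (1 / 3 : ℝ) ^ k := by positivity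
  have h9 : 1 / 3 - r ≤ ε := by linarith
  have h10 : (1 / 3 - r) * (V x Z A - wt x y.tail * V x Z (y.tail ::ₘ A)) ≤ (1 / 3 - r) * 1 :=
    mul_le_mul_of_nonneg_left (by linarith) (by linarith)
  nlinarith

end Pool.Agent.H80.T3
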