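import Pool.Agent.H80.T3.Stm

/-!
# MP_2b43a6_pr, project T3, row R3: the run of a frog
-/

set_option autoImplicit false

namespace Pool.Agent.H80.T3

/-- the sum over the subsets of `Fin 3` -/
theorem r3_sum8 (f : Finset (Fin 3) → ℝ) :
    ∑ B : Finset (Fin 3), f B = f ∅ + (f {0} + (f {1} + (f {2} + (f {0, 1} + (f {0, 2} +
      (f {1, 2} + f {0, 1, 2})))))) := by
  have h : (Finset.univ : Finset (Finset (Fin 3))) =
      {∅, {0}, {1}, {2}, {0, 1}, {0, 2}, {1, 2}, {0, 1, 2}} := by decide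
  rw [h]
  rw [Finset.sum_insert (by decide), Finset.sum_insert (by decide), Finset.sum_insert (by decide),
    Finset.sum_insert (by decide), Finset.sum_insert (by decide), Finset.sum_insert (by decide),
    Finset.sum_insert (by decide), Finset.sum_singleton]

/-- the value after waking `S` is the value after waking the sleeping vertices of `S` -/
theorem r3_Vw_empty (x : ℝ) (Z : Finset T) (A : Multiset T) : Vw x ∅ Z A = V x Z A := by
  unfold Vw
  simp

/-- waking in two steps -/
theorem r3_Vw_Vw (x : ℝ) (S S' Z : Finset T) (A : Multiset T) :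
    Vw x S (Z \ S') (A + (Z ∩ S').val) = Vw x (S' ∪ S) Z A := by
  unfold Vw
  have h1 : (Z \ S') \ S = Z \ (S' ∪ S) := by
    ext z; simp only [Finset.mem_sdiff, Finset.mem_union]; tauto
  have h2 : (Z ∩ S').val + ((Z \ S') ∩ S).val = (Z ∩ (S' ∪ S)).val := by
    have hd : Disjoint (Z ∩ S') ((Z \ S') ∩ S) := by
      rw [Finset.disjoint_left]
      intro z hz hz'
      simp only [Finset.mem_inter, Finset.mem_sdiff] at hz hz'
      exact hz'.1.2 hz.2
    have h3 : Z ∩ (S' ∪ S) = (Z ∩ S').disjUnion ((Z \ S') ∩ S) hd := by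
      ext z
      simp only [Finset.mem_inter, Finset.mem_union, Finset.mem_disjUnion, Finset.mem_sdiff]
      tauto
    rw [h3]; rfl
  rw [h1, add_assoc, h2]

/-- more woken vertices make the value smaller -/
theorem r3_Vw_mono (h2 : SMono) {x : ℝ} (hx0 : 0 ≤ x) (hx1 : x ≤ 1) {S S' Z : Finset T}
    (A : Multiset T) (h : Z ∩ S ⊆ S') : Vw x S' Z A ≤ Vw x S Z A := by
  unfold Vw
  refine h2 x hx0 hx1 (Z \ S) (Z \ S') ((Z ∩ S') \ S) (A + (Z ∩ S).val) (A + (Z ∩ S').val) ?_ ?_ ?_
  · intro z hz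
    simp only [Finset.mem_sdiff, Finset.mem_inter] at hz ⊢
    exact ⟨hz.1.1, hz.2⟩
  · rw [add_assoc]
    refine add_le_add_right ?_ A
    have hd : Disjoint (Z ∩ S) ((Z ∩ S') \ S) := by
      rw [Finset.disjoint_left]
      intro z hz hz'
      simp only [Finset.mem_inter, Finset.mem_sdiff] at hz hz'
      exact hz'.2 hz.2
    have h3 : (Z ∩ S).disjUnion ((Z ∩ S') \ S) hd = Z ∩ S' := by
      ext z
      simp only [Finset.mem_inter, Finset.mem_disjUnion, Finset.mem_sdiff]
      constructor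
      · rintro (hz | hz)
        · exact ⟨hz.1, h (Finset.mem_inter.2 hz)⟩
        · exact hz.1
      · intro hz
        by_cases hs : z ∈ S
        · exact Or.inl ⟨hz.1, hs⟩
        · exact Or.inr ⟨hz, hs⟩
    have h4 : (Z ∩ S).val + ((Z ∩ S') \ S).val = (Z ∩ S').val := congrArg Finset.val h3
    exact le_of_eq h4
  · intro z hz
    simp only [Finset.mem_sdiff, Finset.mem_inter] at hz ⊢
    exact ⟨hz.1.1, fun hz' => hz.2 ⟨⟨hz.1.1, hz'⟩, hz.1.2⟩⟩

/-- an arrival after waking `S` -/
theorem r3_arr (x : ℝ) (S Z : Finset T) (A : Multiset T) (z : T) :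
    arr x (V x) (Z \ S) (A + (Z ∩ S).val) z = wt x z * Vw x (insert z S) Z (z ::ₘ A) := by
  unfold arr Vw
  by_cases hz : z ∈ Z \ S
  · rw [if_pos hz]
    have hz' := Finset.mem_sdiff.1 hz
    have h1 : (Z \ S).erase z = Z \ insert z S := by
      ext w
      simp only [Finset.mem_erase, Finset.mem_sdiff, Finset.mem_insert]
      tauto
    have h2 : Z ∩ insert z S = insert z (Z ∩ S) := by
      rw [Finset.inter_insert_of_mem hz'.1]
    have h3 : z ∉ Z ∩ S := fun h => hz'.2 (Finset.mem_inter.1 h).2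
    rw [h1, h2, Finset.insert_val_of_notMem h3, Multiset.add_cons, Multiset.cons_add]
  · rw [if_neg hz]
    have h1 : Z \ insert z S = Z \ S := by
      ext w
      simp only [Finset.mem_sdiff, Finset.mem_insert] at hz ⊢
      constructor
      · rintro ⟨a, b⟩
        exact ⟨a, fun h => b (Or.inr h)⟩
      · rintro ⟨a, b⟩
        refine ⟨a, ?_⟩
        rintro (h | h)
        · exact hz ⟨h ▸ a, h ▸ b⟩
        · exact b h
    have h2 : Z ∩ insert z S = Z ∩ S := by
      ext w
      simp only [Finset.mem_sdiff, Finset.mem_inter, Finset.mem_insert] at hz ⊢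
      constructor
      · rintro ⟨a, h | h⟩
        · refine ⟨a, ?_⟩
          by_contra hb
          exact hz ⟨h ▸ a, h ▸ hb⟩
        · exact ⟨a, h⟩
      · rintro ⟨a, b⟩
        exact ⟨a, Or.inr b⟩
    rw [h1, h2, Multiset.cons_add]

/-- nonnegative weight -/
theorem r3_wt_nonneg {x : ℝ} (hx0 : 0 ≤ x) (y : T) : 0 ≤ wt x y := by
  unfold wt
  split_ifs
  · exact hx0
  · exact zero_le_one

/-- a vertex that is not the root has weight one -/
theorem r3_wt_one (x : ℝ) {y : T} (h : y ≠ []) : wt x y = 1 := if_neg h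

/-- the children of `y` with one more label -/
theorem r3_ch_insert (y : T) (i : Fin 3) (B : Finset (Fin 3)) :
    ch y (insert i B) = insert (i :: y) (ch y B) := by
  unfold ch
  rw [Finset.image_insert]

/-- one move of the frog at `y` after the children with labels in `B` have been woken, then runs
of height `h` -/
theorem r3_step (h2 : SMono) (h3 : SStep) (h4 : SAb) {x : ℝ} (hx0 : 0 ≤ x) (hx1 : x ≤ 1) (h : ℕ)
    (ih : ∀ (Z : Finset T) (A : Multiset T) (y : T), y ≠ [] → y ∉ Z →
      V x Z (y ::ₘ A) ≤ (2 / 3) * ab h y (fun S => Vw x S Z A) +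
        (1 / 3) * (wt x y.tail * V x Z (y.tail ::ₘ A)))
    (Z : Finset T) (A : Multiset T) (y : T) (hy : y ≠ []) (hZ : y ∉ Z) (B : Finset (Fin 3)) :
    Vw x (ch y B) Z (y ::ₘ A) ≤ (1 / 4) * (wt x y.tail * V x Z (y.tail ::ₘ A)) +
      (1 / 6) * ∑ i : Fin 3, ab h (i :: y) (fun S => Vw x (insert y (ch y B ∪ S)) Z A) +
      (1 / 12) * ∑ i : Fin 3, Vw x (ch y (insert i B)) Z (y ::ₘ A) := by
  have e1 : Vw x (ch y B) Z (y ::ₘ A) ≤
      (1 / 4) * (wt x y.tail * Vw x (insert y.tail (ch y B)) Z (y.tail ::ₘ A)) +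
        (1 / 4) * ∑ i : Fin 3, wt x (i :: y) * Vw x (insert (i :: y) (ch y B)) Z ((i :: y) ::ₘ A) := by
    have h := h3 x hx0 hx1 (Z \ ch y B) (A + (Z ∩ ch y B).val) y
    unfold stp at h
    rw [if_neg hy] at h
    simp only [r3_arr] at h
    have hv : Vw x (ch y B) Z (y ::ₘ A) = V x (Z \ ch y B) (y ::ₘ (A + (Z ∩ ch y B).val)) := by
      unfold Vw
      rw [Multiset.cons_add]
    rw [hv]
    exact h
  have e2 : wt x y.tail * Vw x (insert y.tail (ch y B)) Z (y.tail ::ₘ A) ≤
      wt x y.tail * V x Z (y.tail ::ₘ A) := by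
    refine mul_le_mul_of_nonneg_left ?_ (r3_wt_nonneg hx0 _)
    have h := r3_Vw_mono h2 hx0 hx1 (S := ∅) (S' := insert y.tail (ch y B)) (Z := Z)
      (y.tail ::ₘ A) (by simp)
    rwa [r3_Vw_empty] at h
  have e3 : ∀ i : Fin 3, wt x (i :: y) * Vw x (insert (i :: y) (ch y B)) Z ((i :: y) ::ₘ A) ≤
      (2 / 3) * ab h (i :: y) (fun S => Vw x (insert y (ch y B ∪ S)) Z A) +
        (1 / 3) * Vw x (ch y (insert i B)) Z (y ::ₘ A) := by
    intro i
    rw [r3_wt_one x (List.cons_ne_nil i y), one_mul, ← r3_ch_insert]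
    have hv : ∀ z : T, Vw x (ch y (insert i B)) Z (z ::ₘ A) =
        V x (Z \ ch y (insert i B)) (z ::ₘ (A + (Z ∩ ch y (insert i B)).val)) := by
      intro z
      unfold Vw
      rw [Multiset.cons_add]
    have hm : (i :: y) ∉ Z \ ch y (insert i B) := by
      intro hc
      refine (Finset.mem_sdiff.1 hc).2 ?_
      unfold ch
      exact Finset.mem_image.2 ⟨i, Finset.mem_insert_self i B, rfl⟩
    have h5 := ih (Z \ ch y (insert i B)) (A + (Z ∩ ch y (insert i B)).val) (i :: y)
      (List.cons_ne_nil i y) hm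
    rw [List.tail_cons, r3_wt_one x hy, one_mul, ← hv, ← hv] at h5
    simp only [r3_Vw_Vw] at h5
    refine h5.trans (add_le_add (mul_le_mul_of_nonneg_left ?_ (by norm_num)) le_rfl)
    refine (h4 h (i :: y)).1 _ _ ?_
    intro S _ _
    refine r3_Vw_mono h2 hx0 hx1 A ?_
    intro z hz
    have hz' := Finset.mem_inter.1 hz
    rcases Finset.mem_insert.1 hz'.2 with h | h
    · exact absurd (h ▸ hz'.1) hZ
    · rcases Finset.mem_union.1 h with h | h
      · refine Finset.mem_union_left _ ?_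
        rw [r3_ch_insert]
        exact Finset.mem_insert_of_mem h
      · exact Finset.mem_union_right _ h
  have e4 := Finset.sum_le_sum (fun i (_ : i ∈ (Finset.univ : Finset (Fin 3))) => e3 i)
  rw [Finset.sum_add_distrib, ← Finset.mul_sum, ← Finset.mul_sum] at e4
  linarith

/-- R3: the run of a frog -/
theorem srun (_h1 : SB01) (h2 : SMono) (h3 : SStep) (h4 : SAb) (h5 : SRun0) : SRun := by
  intro x hx0 hx1 h
  induction h with
  | zero =>
    intro Z A y hy _
    have h := h5 x hx0 hx1 Z A y hy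
    change V x Z (y ::ₘ A) ≤ (2 / 3) * Vw x ∅ Z A + (1 / 3) * (wt x y.tail * V x Z (y.tail ::ₘ A))
    rwa [r3_Vw_empty]
  | succ h ih =>
    intro Z A y hy hZ
    have hs := r3_step h2 h3 h4 hx0 hx1 h ih Z A y hy hZ
    have hab : ab (h + 1) y (fun S => Vw x S Z A) = ∑ B : Finset (Fin 3), pB B * ((1 / 3) *
        ∑ i : Fin 3, ab h (i :: y) (fun S => Vw x (insert y (ch y B ∪ S)) Z A)) := rfl
    have h0 : V x Z (y ::ₘ A) = Vw x (ch y ∅) Z (y ::ₘ A) := by
      have : ch y ∅ = ∅ := rfl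
      rw [this, r3_Vw_empty]
    rw [hab, h0]
    generalize hpi : wt x y.tail * V x Z (y.tail ::ₘ A) = pi at hs ⊢
    generalize hb : (fun B : Finset (Fin 3) => Vw x (ch y B) Z (y ::ₘ A)) = b
    generalize ha : (fun B : Finset (Fin 3) => ∑ i : Fin 3, ab h (i :: y)
      (fun S => Vw x (insert y (ch y B ∪ S)) Z A)) = a
    have hb' : ∀ B, Vw x (ch y B) Z (y ::ₘ A) = b B := fun B => congrFun hb B
    have ha' : ∀ B, ∑ i : Fin 3, ab h (i :: y) (fun S => Vw x (insert y (ch y B ∪ S)) Z A) = a B :=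
      fun B => congrFun ha B
    simp only [hb', ha'] at hs ⊢
    rw [r3_sum8]
    simp only [Fin.sum_univ_three] at hs
    have p0 : pB (∅ : Finset (Fin 3)) = 165 / 220 := by unfold pB; rw [if_pos (by decide)]
    have p1 : ∀ i : Fin 3, pB ({i} : Finset (Fin 3)) = 15 / 220 := by
      intro i; unfold pB; rw [Finset.card_singleton]; norm_num
    have p01 : pB ({0, 1} : Finset (Fin 3)) = 3 / 220 := by
      unfold pB; rw [show ({0, 1} : Finset (Fin 3)).card = 2 by decide]; norm_num
    have p02 : pB ({0, 2} : Finset (Fin 3)) = 3 / 220 := by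
      unfold pB; rw [show ({0, 2} : Finset (Fin 3)).card = 2 by decide]; norm_num
    have p12 : pB ({1, 2} : Finset (Fin 3)) = 3 / 220 := by
      unfold pB; rw [show ({1, 2} : Finset (Fin 3)).card = 2 by decide]; norm_num
    have p3 : pB ({0, 1, 2} : Finset (Fin 3)) = 1 / 220 := by
      unfold pB; rw [show ({0, 1, 2} : Finset (Fin 3)).card = 3 by decide]; norm_num
    rw [p0, p1, p1, p1, p01, p02, p12, p3]
    have s0 := hs ∅
    have s1 := hs {0}
    have s2 := hs {1}
    have s3 := hs {2}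
    have s4 := hs {0, 1}
    have s5 := hs {0, 2}
    have s6 := hs {1, 2}
    have s7 := hs {0, 1, 2}
    rw [show insert (0 : Fin 3) (∅ : Finset (Fin 3)) = {0} by decide,
      show insert (1 : Fin 3) (∅ : Finset (Fin 3)) = {1} by decide,
      show insert (2 : Fin 3) (∅ : Finset (Fin 3)) = {2} by decide] at s0
    rw [show insert (0 : Fin 3) ({0} : Finset (Fin 3)) = {0} by decide,
      show insert (1 : Fin 3) ({0} : Finset (Fin 3)) = {0, 1} by decide,
      show insert (2 : Fin 3) ({0} : Finset (Fin 3)) = {0, 2} by decide] at s1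
    rw [show insert (0 : Fin 3) ({1} : Finset (Fin 3)) = {0, 1} by decide,
      show insert (1 : Fin 3) ({1} : Finset (Fin 3)) = {1} by decide,
      show insert (2 : Fin 3) ({1} : Finset (Fin 3)) = {1, 2} by decide] at s2
    rw [show insert (0 : Fin 3) ({2} : Finset (Fin 3)) = {0, 2} by decide,
      show insert (1 : Fin 3) ({2} : Finset (Fin 3)) = {1, 2} by decide,
      show insert (2 : Fin 3) ({2} : Finset (Fin 3)) = {2} by decide] at s3
    rw [show insert (0 : Fin 3) ({0, 1} : Finset (Fin 3)) = {0, 1} by decide,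
      show insert (1 : Fin 3) ({0, 1} : Finset (Fin 3)) = {0, 1} by decide,
      show insert (2 : Fin 3) ({0, 1} : Finset (Fin 3)) = {0, 1, 2} by decide] at s4
    rw [show insert (0 : Fin 3) ({0, 2} : Finset (Fin 3)) = {0, 2} by decide,
      show insert (1 : Fin 3) ({0, 2} : Finset (Fin 3)) = {0, 1, 2} by decide,
      show insert (2 : Fin 3) ({0, 2} : Finset (Fin 3)) = {0, 2} by decide] at s5
    rw [show insert (0 : Fin 3) ({1, 2} : Finset (Fin 3)) = {0, 1, 2} by decide,
      show insert (1 : Fin 3) ({1, 2} : Finset (Fin 3)) = {1, 2} by decide,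
      show insert (2 : Fin 3) ({1, 2} : Finset (Fin 3)) = {1, 2} by decide] at s6
    rw [show insert (0 : Fin 3) ({0, 1, 2} : Finset (Fin 3)) = {0, 1, 2} by decide,
      show insert (1 : Fin 3) ({0, 1, 2} : Finset (Fin 3)) = {0, 1, 2} by decide,
      show insert (2 : Fin 3) ({0, 1, 2} : Finset (Fin 3)) = {0, 1, 2} by decide] at s7
    linarith

end Pool.Agent.H80.T3
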