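import Pool.Agent.H80.T3.Stm

/-!
# MP_2b43a6_pr, project T3, row R4: one move of a frog, then runs in the subtrees (helper64)
-/

set_option autoImplicit false

namespace Pool.Agent.H80.T3

theorem r4_count {α : Type} [DecidableEq α] (s : Finset α) (a : α) :
    Multiset.count a s.val = if a ∈ s then 1 else 0 := by
  split_ifs with h
  · exact Multiset.count_eq_one_of_mem s.nodup h
  · exact Multiset.count_eq_zero.2 h

/-- The configuration after the arrival at `z`. -/
theorem r4_arr (x : ℝ) (f : Finset T → Multiset T → ℝ) (Z : Finset T) (A : Multiset T) (z : T) :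
    arr x f Z A z = wt x z * f (Z \ {z}) (z ::ₘ (A + (Z ∩ {z}).val)) := by
  unfold arr
  congr 1
  split_ifs with h
  · have h1 : Z \ {z} = Z.erase z := Finset.sdiff_singleton_eq_erase z Z
    have h2 : Z ∩ {z} = {z} := Finset.inter_singleton_of_mem h
    rw [h1, h2]
    congr 2
    rw [Finset.singleton_val, add_comm, Multiset.singleton_add]
  · have h1 : Z \ {z} = Z := by rw [Finset.sdiff_singleton_eq_erase, Finset.erase_eq_of_notMem h]
    have h2 : Z ∩ {z} = ∅ := Finset.inter_singleton_of_notMem h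
    rw [h1, h2, Finset.empty_val, add_zero]

/-- Waking the vertices of `S'` makes the value smaller. -/
theorem r4_wake (h2 : SMono) (x : ℝ) (hx0 : 0 ≤ x) (hx1 : x ≤ 1) (Z : Finset T) (A : Multiset T)
    (z : T) : V x (Z \ {z}) (A + (Z ∩ {z}).val) ≤ V x Z A := by
  refine h2 x hx0 hx1 Z (Z \ {z}) (Z ∩ {z}) A _ Finset.inter_subset_left le_rfl ?_
  intro a ha
  rw [Finset.mem_sdiff] at ha ⊢
  refine ⟨ha.1, fun h => ha.2 ?_⟩
  rw [Finset.mem_inter]
  exact ⟨ha.1, h⟩

theorem r4_wt (x : ℝ) (hx0 : 0 ≤ x) (z : T) : 0 ≤ wt x z := by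
  unfold wt
  split_ifs
  · exact hx0
  · exact zero_le_one

/-- Arrival at a child, then a run. -/
theorem r4_child (h5 : SRun) (x : ℝ) (hx0 : 0 ≤ x) (hx1 : x ≤ 1) (h : ℕ) (Z : Finset T)
    (A : Multiset T) (v : T) (i : Fin 3) :
    arr x (V x) Z A (i :: v) ≤
      (2 / 3) * ab h (i :: v) (fun S => Vw x S (Z \ {i :: v}) (A + (Z ∩ {i :: v}).val)) +
      (1 / 3) * (wt x v * V x (Z \ {i :: v}) (v ::ₘ (A + (Z ∩ {i :: v}).val))) := by
  have h1 := h5 x hx0 hx1 h (Z \ {i :: v}) (A + (Z ∩ {i :: v}).val) (i :: v) (by simp) (by simp)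
  rw [List.tail_cons] at h1
  have h2 : wt x (i :: v) = 1 := by
    unfold wt
    rw [if_neg (by simp)]
  rw [r4_arr, h2, one_mul]
  exact h1

/-- The value after `c` and then `S` have been woken, `c ∈ S`. -/
theorem r4_mem (x : ℝ) (Z : Finset T) (A : Multiset T) (c : T) (S : Finset T) (hc : c ∈ S) :
    Vw x S (Z \ {c}) (A + (Z ∩ {c}).val) = Vw x S Z A := by
  unfold Vw
  have h1 : (Z \ {c}) \ S = Z \ S := by
    ext a
    simp only [Finset.mem_sdiff, Finset.mem_singleton]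
    constructor
    · rintro ⟨⟨h1, _⟩, h3⟩
      exact ⟨h1, h3⟩
    · rintro ⟨h1, h3⟩
      exact ⟨⟨h1, fun h => h3 (h ▸ hc)⟩, h3⟩
  have h2 : A + (Z ∩ {c}).val + ((Z \ {c}) ∩ S).val = A + (Z ∩ S).val := by
    ext a
    simp only [Multiset.count_add, r4_count, Finset.mem_inter, Finset.mem_sdiff,
      Finset.mem_singleton]
    by_cases hac : a = c
    · subst hac
      simp [hc]
    · simp [hac]
  rw [h1, h2]

/-- The value after `c` and then `S` have been woken. -/
theorem r4_le (h2 : SMono) (x : ℝ) (hx0 : 0 ≤ x) (hx1 : x ≤ 1) (Z : Finset T) (A : Multiset T)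
    (c : T) (S : Finset T) :
    Vw x S (Z \ {c}) (A + (Z ∩ {c}).val) ≤ Vw x S Z A := by
  by_cases hc : c ∈ S
  · exact (r4_mem x Z A c S hc).le
  · unfold Vw
    refine h2 x hx0 hx1 (Z \ S) ((Z \ {c}) \ S) (Z ∩ {c}) _ _ ?_ ?_ ?_
    · intro a ha
      rw [Finset.mem_inter, Finset.mem_singleton] at ha
      rw [Finset.mem_sdiff]
      exact ⟨ha.1, ha.2 ▸ hc⟩
    · rw [Multiset.le_iff_count]
      intro a
      simp only [Multiset.count_add, r4_count, Finset.mem_inter, Finset.mem_sdiff,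
        Finset.mem_singleton]
      by_cases hac : a = c
      · subst hac
        simp [hc]
      · simp [hac]
    · intro a ha
      simp only [Finset.mem_sdiff, Finset.mem_inter, Finset.mem_singleton] at ha ⊢
      tauto

/-- R4: one move of a frog at `v`, then runs in the subtrees of the children -/
theorem sflag (h1 : SB01) (h2 : SMono) (h3 : SStep) (h4 : SAb) (h5 : SRun) : SFlag := by
  intro x hx0 hx1 h hh Z A v hv hvZ
  have e1 := h3 x hx0 hx1 Z A v
  unfold stp at e1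
  rw [if_neg hv] at e1
  have e2 : arr x (V x) Z A v.tail ≤ wt x v.tail * V x Z (v.tail ::ₘ A) := by
    rw [r4_arr]
    refine mul_le_mul_of_nonneg_left ?_ (r4_wt x hx0 _)
    rw [← Multiset.cons_add]
    exact r4_wake h2 x hx0 hx1 Z (v.tail ::ₘ A) v.tail
  have e3 : ∀ i : Fin 3, arr x (V x) Z A (i :: v) ≤
      (2 / 3) * ab h (i :: v) (fun S => Vw x S Z A) + (1 / 3) * Vw x {i :: v} Z (v ::ₘ A) := by
    intro i
    refine (r4_child h5 x hx0 hx1 h Z A v i).trans ?_
    have e4 : ab h (i :: v) (fun S => Vw x S (Z \ {i :: v}) (A + (Z ∩ {i :: v}).val)) ≤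
        ab h (i :: v) (fun S => Vw x S Z A) :=
      (h4 h (i :: v)).1 _ _ fun S _ hS => (r4_mem x Z A (i :: v) S (hS hh)).le
    have e5 : wt x v * V x (Z \ {i :: v}) (v ::ₘ (A + (Z ∩ {i :: v}).val)) =
        Vw x {i :: v} Z (v ::ₘ A) := by
      unfold wt Vw
      rw [if_neg hv, one_mul, Multiset.cons_add]
    rw [e5]
    linarith
  have e6 : (1 / 4 : ℝ) * ∑ i : Fin 3, arr x (V x) Z A (i :: v) ≤
      ∑ i : Fin 3, ((1 / 6) * ab h (i :: v) (fun S => Vw x S Z A) +
        (1 / 12) * Vw x {i :: v} Z (v ::ₘ A)) := by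
    rw [Finset.mul_sum]
    refine Finset.sum_le_sum fun i _ => ?_
    have := e3 i
    linarith
  linarith

/-- R5: the frog at the root -/
theorem sroot (h1 : SB01) (h2 : SMono) (h3 : SStep) (h4 : SAb) (h5 : SRun) : SRoot := by
  intro x hx0 hx1 h Z A
  have e1 := h3 x hx0 hx1 Z A []
  unfold stp at e1
  rw [if_pos rfl] at e1
  have e3 : ∀ i : Fin 3, arr x (V x) Z A [i] ≤
      (2 / 3) * ab h [i] (fun S => Vw x S Z A) + (1 / 3) * V x Z ([] ::ₘ A) := by
    intro i
    refine (r4_child h5 x hx0 hx1 h Z A [] i).trans ?_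
    have e4 : ab h [i] (fun S => Vw x S (Z \ {[i]}) (A + (Z ∩ {[i]}).val)) ≤
        ab h [i] (fun S => Vw x S Z A) :=
      (h4 h [i]).1 _ _ fun S _ _ => r4_le h2 x hx0 hx1 Z A [i] S
    have e5 : wt x [] * V x (Z \ {[i]}) ([] ::ₘ (A + (Z ∩ {[i]}).val)) ≤ V x Z ([] ::ₘ A) := by
      have e6 : V x (Z \ {[i]}) ([] ::ₘ (A + (Z ∩ {[i]}).val)) ≤ V x Z ([] ::ₘ A) := by
        rw [← Multiset.cons_add]
        exact r4_wake h2 x hx0 hx1 Z ([] ::ₘ A) [i]
      have e7 := (h1 x hx0 hx1 (Z \ {[i]}) ([] ::ₘ (A + (Z ∩ {[i]}).val))).1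
      have e8 : wt x [] = x := by
        unfold wt
        rw [if_pos rfl]
      rw [e8]
      exact (mul_le_of_le_one_left e7 hx1).trans e6
    linarith
  have e6 : ∑ i : Fin 3, arr x (V x) Z A [i] ≤
      ∑ i : Fin 3, ((2 / 3) * ab h [i] (fun S => Vw x S Z A) + (1 / 3) * V x Z ([] ::ₘ A)) :=
    Finset.sum_le_sum fun i _ => e3 i
  rw [Finset.sum_add_distrib, ← Finset.mul_sum, Finset.sum_const, Finset.card_univ,
    Fintype.card_fin, nsmul_eq_mul] at e6
  push_cast at e6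
  linarith

end Pool.Agent.H80.T3
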