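import Pool.Agent.H80.T3.C2
import Pool.Agent.H80.T3.C4
import Pool.Agent.H80.T3.C5
import Pool.Agent.H80.T3.C9
import Pool.Agent.H80.T3.C10
import Pool.Agent.H80.T3.L4
import Pool.Agent.H80.T3.L5
import Pool.Agent.H80.T3.P1
import Pool.Agent.H80.T3.P2
import Pool.Agent.H80.T3.R2
import Pool.Agent.H80.T3.R3
import Pool.Agent.H80.T3.R4
import Pool.Agent.H80.T3.C1
import Pool.Agent.H80.T3.C3
import Pool.Agent.H80.T3.C6
import Pool.Agent.H80.T3.C7
import Pool.Agent.H80.T3.C8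
import Pool.Agent.H80.T3.R1
import Pool.Agent.H2.Frog.Ph2

/-!
# MP_2b43a6_pr, project T3: assembly of the second phase
-/

set_option autoImplicit false

namespace Pool.Agent.H80.T3

open Pool.Agent.H2.Frog

/-- the start of the second phase -/
def SStart : Prop := ∃ L, Lv1 60 L ∧ ∀ x : ℝ, 1 / 3 ≤ x → x ≤ 1 →
  L (fun m => x ^ m) ≤ Real.exp (-9 * (1 - x) + 3 * (1 - x) ^ 2)

theorem fa_pow_nonneg {L : (ℕ → ℝ) → ℝ} (hL : PF L) (x : ℝ) (hx : 0 ≤ x) :
    0 ≤ L (fun m => x ^ m) := by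
  have h0 : L (fun _ => 0) = 0 := by
    have := hL.smul 0 (fun _ => 1)
    simpa using this
  rw [← h0]
  exact hL.mono _ _ fun m => pow_nonneg hx m

theorem fa_pow_mono {L : (ℕ → ℝ) → ℝ} (hL : PF L) (x y : ℝ) (hx : 0 ≤ x) (hxy : x ≤ y) :
    L (fun m => x ^ m) ≤ L (fun m => y ^ m) :=
  hL.mono _ _ fun m => pow_le_pow_left₀ hx hxy m

theorem fa_phase2 (h2 : SP2) (hs : SStart) (k : ℕ) : ∃ L, Lv1 (60 + k) L ∧
    ∀ x : ℝ, 1 / 3 ≤ x → x ≤ 1 → L (fun m => x ^ m) ≤ GG (9 + k / 20) x := by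
  induction k with
  | zero =>
    obtain ⟨L, hL, hx⟩ := hs
    refine ⟨L, hL, fun x h0 h1 => ?_⟩
    have : (9 : ℝ) + ((0 : ℕ) : ℝ) / 20 = 9 := by simp
    rw [this]
    exact hx x h0 h1
  | succ k ih =>
    obtain ⟨L, hL, hx⟩ := ih
    obtain ⟨L', hL', e⟩ := h2 (60 + k) L (by omega) hL
    refine ⟨L', hL', fun x h0 h1 => ?_⟩
    rw [e x (by linarith) h1]
    have hl : (9 : ℝ) ≤ 9 + (k : ℝ) / 20 := by
      have : (0 : ℝ) ≤ (k : ℝ) := Nat.cast_nonneg k
      linarith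
    have e1 : Aop x (L fun m => (x / 3 + 2 / 9) ^ m) (L fun m => (x / 3 + 4 / 9) ^ m)
        (L fun m => (x / 3 + 2 / 3) ^ m) = FF (fun y => L fun m => y ^ m) x := by
      rw [FF_eq]
      unfold Aop core
      ring
    rw [e1]
    refine (FF_mono (fun y => L fun m => y ^ m) (GG (9 + k / 20)) x h0 h1
      (fun y hy0 hy1 => fa_pow_nonneg hL.1 y (by linarith))
      (fun y z hy hyz hz => fa_pow_mono hL.1 y z (by linarith) hyz)
      (fun y hy0 hy1 => GG_le_one (by linarith) hy0 hy1)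
      (fun y z hy hyz hz => GG_mono (by linarith) hy hyz hz) hx).trans ?_
    have e2 : (9 : ℝ) + ((k + 1 : ℕ) : ℝ) / 20 = (9 + (k : ℝ) / 20) + 1 / 20 := by
      push_cast
      ring
    rw [e2]
    exact FF_GG _ hl x h0 h1

theorem fa_nil (h : ℕ) : [] ∉ Zr h := by
  unfold Zr
  rw [Finset.mem_biUnion]
  rintro ⟨i, -, hi⟩
  have := p1_Zn h [i] [] hi
  simp at this

/-- the second phase and the link -/
theorem fa_frozen (hL : SLink) (h2 : SP2) (h5 : SP5) (hs : SStart) : Frozen := by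
  apply hL
  intro ε hε
  have ht : Filter.Tendsto (fun k : ℕ => GG (9 + k / 20) (1 / 2)) Filter.atTop (nhds 0) := by
    unfold GG
    apply Real.tendsto_exp_atBot.comp
    have h1 : Filter.Tendsto (fun h : ℕ => (h : ℝ)) Filter.atTop Filter.atTop :=
      tendsto_natCast_atTop_atTop
    have h2 : Filter.Tendsto (fun h : ℕ => (-(1 / 40 : ℝ)) * (h : ℝ)) Filter.atTop
        Filter.atBot := h1.const_mul_atTop_of_neg (by norm_num)
    have h3 := Filter.tendsto_atBot_add_const_right Filter.atTop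
      (-9 * (1 - 1 / 2) + 3 * (1 - 1 / 2 : ℝ) ^ 2) h2
    refine h3.congr ?_
    intro h
    ring
  obtain ⟨k, hk⟩ := (ht.eventually (gt_mem_nhds hε)).exists
  obtain ⟨L, hL1, hx⟩ := fa_phase2 h2 hs k
  have h6 := h5 (60 + k) L (by omega) hL1 (1 / 2) (by norm_num) (by norm_num)
  have h7 : V (1 / 2) (Zr (60 + k)) {[]} < ε :=
    (h6.trans (hx (1 / 2) (by norm_num) (by norm_num))).trans_lt hk
  unfold V at h7
  obtain ⟨j, hj⟩ := exists_lt_of_ciInf_lt h7
  exact ⟨j, Zr (60 + k), fa_nil _, hj.le⟩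

/-- all rows of the first phase except the kernel part -/
theorem fa_rows (hB : SB01) (hM : SMono) (hS : SStep) :
    SNext ∧ SLev1 ∧ SEx ∧ SP1 ∧ SP2 ∧ SP5 := by
  have hr0 : SRun0 := srun0 hB hM hS
  have hr : SRun := srun hB hM hS sab hr0
  have hfl : SFlag := sflag hB hM hS sab hr
  have hro : SRoot := sroot hB hM hS sab hr
  have hex : SEx := sex hB hM
  have hfin : SCFin := scfin hB hM saut
  have hfrog : SCFrog := scfrog hB hM sab sabc sops hfl
  have hscfl : SCFL := scfl hB hM sab sops hr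
  have hproc : SCProc := scproc hB hM sab sops
  have hd : SCD := scd hB hM sab sops
  have hc1 : SCtx1 := sctx1 hB hM sab sops
  have hc2 : SCtx2 := sctx2 hB hM sab sabc sops
  have hso : SSound := ssound1 hB hex hfin hfrog hscfl hproc hd
  exact ⟨snext hso hex hc1 hc2 sabc, slev1 hB hM hr0, hex, sp1 hB hex,
    sp2 hB hM sab sabc sops hfrog hd hc1 hex hfin, sp5 hB hro⟩

end Pool.Agent.H80.T3
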