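import Mathlib

/-!
# MP_2b43a6_pr, project T3: start of the second phase

If all prefix sums of `c m = (m + 1) p (m + 1) - 3 p m - 6 p (m - 1)` are nonnegative, then the
generating function `f` of the law `p` satisfies `f' ≥ (3 + 6 x) f` on `[0, 1]`, so that
`f x ≤ exp (- 9 (1 - x) + 3 (1 - x) ^ 2)`.
-/

set_option autoImplicit false

namespace Pool.Agent.H80.T3

open Finset

/-- the coefficients of `f' - (3 + 6 x) f` -/
noncomputable def cP0 (p : ℕ → ℝ) : ℕ → ℝ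
  | 0 => p 1 - 3 * p 0
  | m + 1 => (m + 2) * p (m + 2) - 3 * p (m + 1) - 6 * p m

lemma p0_abel (c : ℕ → ℝ) (x : ℝ) (h0 : 0 ≤ x) (h1 : x ≤ 1) (N : ℕ)
    (hc : ∀ k ≤ N, 0 ≤ ∑ m ∈ range k, c m) :
    x ^ N * ∑ m ∈ range N, c m ≤ ∑ m ∈ range N, c m * x ^ m := by
  induction N with
  | zero => simp
  | succ N ih =>
    have h2 := ih (fun k hk => hc k (by omega))
    have h3 := hc (N + 1) le_rfl
    rw [sum_range_succ (fun m => c m * x ^ m)]
    have h4 : x ^ (N + 1) * ∑ m ∈ range (N + 1), c m ≤ x ^ N * ∑ m ∈ range (N + 1), c m := by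
      apply mul_le_mul_of_nonneg_right _ h3
      exact pow_le_pow_of_le_one h0 h1 (by omega)
    rw [sum_range_succ] at h4 ⊢
    nlinarith

lemma p0_abel_nonneg (c : ℕ → ℝ) (x : ℝ) (h0 : 0 ≤ x) (h1 : x ≤ 1) (N : ℕ)
    (hc : ∀ k ≤ N, 0 ≤ ∑ m ∈ range k, c m) :
    0 ≤ ∑ m ∈ range N, c m * x ^ m :=
  (mul_nonneg (pow_nonneg h0 N) (hc N le_rfl)).trans (p0_abel c x h0 h1 N hc)

/-- the identity `f' - (3 + 6 x) f = ∑ c m x ^ m` -/
lemma p0_ident (n : ℕ) (p : ℕ → ℝ) (hz : ∀ m, n < m → p m = 0) (x : ℝ) :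
    ∑ m ∈ range (n + 2), cP0 p m * x ^ m =
      ∑ m ∈ range (n + 1), p m * (m * x ^ (m - 1)) -
        (3 + 6 * x) * ∑ m ∈ range (n + 1), p m * x ^ m := by
  rw [sum_range_succ']
  have e1 : ∑ m ∈ range (n + 1), cP0 p (m + 1) * x ^ (m + 1) =
      ∑ m ∈ range (n + 1), (((m + 1 : ℕ) : ℝ) + 1) * p (m + 2) * x ^ (m + 1) -
        3 * ∑ m ∈ range (n + 1), p (m + 1) * x ^ (m + 1) -
        6 * x * ∑ m ∈ range (n + 1), p m * x ^ m := by
    rw [mul_sum, mul_sum, ← sum_sub_distrib, ← sum_sub_distrib]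
    refine sum_congr rfl fun m _ => ?_
    simp only [cP0]
    push_cast
    ring
  have e2 : ∑ m ∈ range (n + 1), (((m + 1 : ℕ) : ℝ) + 1) * p (m + 2) * x ^ (m + 1) + p 1 =
      ∑ m ∈ range (n + 1), p m * (m * x ^ (m - 1)) := by
    have a1 : ∑ m ∈ range (n + 3), p m * ((m : ℝ) * x ^ (m - 1)) =
        ∑ m ∈ range (n + 1), p m * ((m : ℝ) * x ^ (m - 1)) := by
      rw [sum_range_succ, sum_range_succ, hz (n + 2) (by omega), hz (n + 1) (by omega)]
      ring
    rw [← a1, sum_range_succ' _ (n + 2), sum_range_succ' _ (n + 1)]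
    simp only [zero_add, Nat.cast_one, Nat.cast_zero, Nat.sub_self, pow_zero, mul_one,
      Nat.add_sub_cancel, zero_mul, mul_zero, add_zero]
    congr 1
    refine sum_congr rfl fun m _ => ?_
    push_cast
    ring
  have e3 : ∑ m ∈ range (n + 1), p (m + 1) * x ^ (m + 1) + p 0 =
      ∑ m ∈ range (n + 1), p m * x ^ m := by
    have a1 : ∑ m ∈ range (n + 2), p m * x ^ m = ∑ m ∈ range (n + 1), p m * x ^ m := by
      rw [sum_range_succ, hz (n + 1) (by omega)]
      ring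
    rw [← a1, sum_range_succ' (fun m => p m * x ^ m) (n + 1)]
    simp only [pow_zero, mul_one]
  rw [e1, ← e2]
  simp only [cP0, pow_zero, mul_one]
  linear_combination (-3 : ℝ) * e3

/-- **P0: start of the second phase.** -/
theorem sp0 (n : ℕ) (p : ℕ → ℝ) (hp : ∀ m, 0 ≤ p m) (hz : ∀ m, n < m → p m = 0)
    (hs : ∑ m ∈ range (n + 1), p m = 1)
    (hc : ∀ k ≤ n + 2, 0 ≤ ∑ m ∈ range k, cP0 p m) (x : ℝ) (h0 : 0 ≤ x) (h1 : x ≤ 1) :
    ∑ m ∈ range (n + 1), p m * x ^ m ≤ Real.exp (-9 * (1 - x) + 3 * (1 - x) ^ 2) := by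
  set f : ℝ → ℝ := fun x => ∑ m ∈ range (n + 1), p m * x ^ m with hf
  set f' : ℝ → ℝ := fun x => ∑ m ∈ range (n + 1), p m * (m * x ^ (m - 1)) with hf'
  have hd : ∀ x, HasDerivAt f (f' x) x := by
    intro x
    have := HasDerivAt.fun_sum (u := range (n + 1)) (A := fun m x => p m * x ^ m)
      (A' := fun m => p m * (m * x ^ (m - 1))) (x := x)
      (fun m _ => (hasDerivAt_pow m x).const_mul (p m))
    exact this
  set E : ℝ → ℝ := fun x => Real.exp (-3 * x - 3 * x ^ 2) with hE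
  have hdE : ∀ x, HasDerivAt E (Real.exp (-3 * x - 3 * x ^ 2) * (-3 - 6 * x)) x := by
    intro x
    have a1 : HasDerivAt (fun x : ℝ => -3 * x - 3 * x ^ 2) (-3 - 6 * x) x := by
      have b1 := (hasDerivAt_id' x).const_mul (-3 : ℝ)
      have b2 := (hasDerivAt_pow 2 x).const_mul (3 : ℝ)
      have b3 := b1.sub b2
      refine (b3.congr_deriv ?_)
      push_cast
      ring
    exact a1.exp
  have hg : ∀ x, HasDerivAt (fun x => f x * E x)
      (f' x * E x + f x * (Real.exp (-3 * x - 3 * x ^ 2) * (-3 - 6 * x))) x :=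
    fun x => (hd x).mul (hdE x)
  have hmono : MonotoneOn (fun x => f x * E x) (Set.Icc 0 1) := by
    refine monotoneOn_of_deriv_nonneg (convex_Icc 0 1)
      (fun x _ => (hg x).continuousAt.continuousWithinAt)
      (fun x _ => (hg x).differentiableAt.differentiableWithinAt) ?_
    intro x hx
    rw [interior_Icc] at hx
    rw [(hg x).deriv]
    have h2 := p0_abel_nonneg (cP0 p) x hx.1.le hx.2.le (n + 2) hc
    rw [p0_ident n p hz x] at h2
    have h3 : f' x * E x + f x * (Real.exp (-3 * x - 3 * x ^ 2) * (-3 - 6 * x)) =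
        (f' x - (3 + 6 * x) * f x) * Real.exp (-3 * x - 3 * x ^ 2) := by
      simp only [hE]; ring
    rw [h3]
    exact mul_nonneg h2 (Real.exp_pos _).le
  have h4 := hmono ⟨h0, h1⟩ (Set.right_mem_Icc.2 zero_le_one) h1
  have h5 : f 1 = 1 := by simp only [hf, one_pow, mul_one]; exact hs
  simp only [h5, one_mul, hE] at h4
  have h6 : Real.exp (-9 * (1 - x) + 3 * (1 - x) ^ 2) =
      Real.exp (-3 * 1 - 3 * 1 ^ 2) * Real.exp (-(-3 * x - 3 * x ^ 2)) := by
    rw [← Real.exp_add]; congr 1; ring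
  have h7 : f x = f x * Real.exp (-3 * x - 3 * x ^ 2) * Real.exp (-(-3 * x - 3 * x ^ 2)) := by
    rw [mul_assoc, ← Real.exp_add, add_neg_cancel, Real.exp_zero, mul_one]
  change f x ≤ _
  rw [h7, h6]
  exact mul_le_mul_of_nonneg_right h4 (Real.exp_pos _).le

end Pool.Agent.H80.T3
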