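import Pool.Agent.H80.T3.Stm

/-!
# MP_2b43a6_pr, project T3, row L1: the value `V`: bounds, monotonicity, one move

`sb01 : SB01`, `smono : SMono`, `sstep : SStep`.
-/

set_option autoImplicit false

namespace Pool.Agent.H80.T3

open Filter Topology

theorem l1_wt_nonneg {x : ℝ} (hx : 0 ≤ x) (y : T) : 0 ≤ wt x y := by
  unfold wt
  split_ifs
  · exact hx
  · exact zero_le_one

theorem l1_wt_le_one {x : ℝ} (hx : x ≤ 1) (y : T) : wt x y ≤ 1 := by
  unfold wt
  split_ifs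
  · exact hx
  · exact le_rfl

/-- comparison of two steps, arrival by arrival -/
theorem l1_stp_le {x : ℝ} {f g : Finset T → Multiset T → ℝ} {Z Z' : Finset T}
    {A A' : Multiset T} (y : T) (h : ∀ z, arr x f Z A z ≤ arr x g Z' A' z) :
    stp x f Z A y ≤ stp x g Z' A' y := by
  unfold stp
  have hs1 : ∑ i : Fin 3, arr x f Z A [i] ≤ ∑ i : Fin 3, arr x g Z' A' [i] :=
    Finset.sum_le_sum fun i _ => h [i]
  have hs2 : ∑ i : Fin 3, arr x f Z A (i :: y) ≤ ∑ i : Fin 3, arr x g Z' A' (i :: y) :=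
    Finset.sum_le_sum fun i _ => h (i :: y)
  have h3 := h y.tail
  split_ifs
  · linarith
  · linarith

/-- `arr` is monotone in the function -/
theorem l1_arr_mono_f {x : ℝ} (hx : 0 ≤ x) {f g : Finset T → Multiset T → ℝ}
    (h : ∀ Z A, f Z A ≤ g Z A) (Z : Finset T) (A : Multiset T) (z : T) :
    arr x f Z A z ≤ arr x g Z A z := by
  unfold arr
  refine mul_le_mul_of_nonneg_left ?_ (l1_wt_nonneg hx z)
  split_ifs
  · exact h _ _
  · exact h _ _

/-- `stp` is monotone in the function -/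
theorem l1_stp_mono_f {x : ℝ} (hx : 0 ≤ x) {f g : Finset T → Multiset T → ℝ}
    (h : ∀ Z A, f Z A ≤ g Z A) (Z : Finset T) (A : Multiset T) (y : T) :
    stp x f Z A y ≤ stp x g Z A y :=
  l1_stp_le y fun z => l1_arr_mono_f hx h Z A z

theorem l1_arr_nonneg {x : ℝ} (hx : 0 ≤ x) {f : Finset T → Multiset T → ℝ}
    (h : ∀ Z A, 0 ≤ f Z A) (Z : Finset T) (A : Multiset T) (z : T) :
    0 ≤ arr x f Z A z := by
  unfold arr
  refine mul_nonneg (l1_wt_nonneg hx z) ?_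
  split_ifs
  · exact h _ _
  · exact h _ _

theorem l1_stp_nonneg {x : ℝ} (hx : 0 ≤ x) {f : Finset T → Multiset T → ℝ}
    (h : ∀ Z A, 0 ≤ f Z A) (Z : Finset T) (A : Multiset T) (y : T) :
    0 ≤ stp x f Z A y := by
  unfold stp
  have hs1 : 0 ≤ ∑ i : Fin 3, arr x f Z A [i] :=
    Finset.sum_nonneg fun i _ => l1_arr_nonneg hx h Z A [i]
  have hs2 : 0 ≤ ∑ i : Fin 3, arr x f Z A (i :: y) :=
    Finset.sum_nonneg fun i _ => l1_arr_nonneg hx h Z A (i :: y)
  have h3 := l1_arr_nonneg hx h Z A y.tail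
  split_ifs
  · linarith
  · linarith

theorem l1_Vj_zero (x : ℝ) (Z : Finset T) (A : Multiset T) : Vj x 0 Z A = 1 := rfl

theorem l1_Vj_succ (x : ℝ) (j : ℕ) (Z : Finset T) (A : Multiset T) :
    Vj x (j + 1) Z A = A.toFinset.fold min 1 (fun y => stp x (Vj x j) Z (A.erase y) y) := rfl

theorem l1_Vj_le_one (x : ℝ) (j : ℕ) (Z : Finset T) (A : Multiset T) : Vj x j Z A ≤ 1 := by
  cases j with
  | zero => exact le_of_eq (l1_Vj_zero x Z A)
  | succ j =>
    rw [l1_Vj_succ]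
    exact (Finset.fold_min_le (1 : ℝ)).2 (Or.inl le_rfl)

theorem l1_Vj_nonneg {x : ℝ} (hx : 0 ≤ x) (j : ℕ) : ∀ (Z : Finset T) (A : Multiset T),
    0 ≤ Vj x j Z A := by
  induction j with
  | zero => intro Z A; rw [l1_Vj_zero]; exact zero_le_one
  | succ j ih =>
    intro Z A
    rw [l1_Vj_succ]
    exact (Finset.le_fold_min (0 : ℝ)).2 ⟨zero_le_one, fun y _ => l1_stp_nonneg hx ih Z _ y⟩

/-- one move -/
theorem l1_Vj_succ_le {x : ℝ} {j : ℕ} {Z : Finset T} {A : Multiset T} {y : T} (hy : y ∈ A) :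
    Vj x (j + 1) Z A ≤ stp x (Vj x j) Z (A.erase y) y := by
  rw [l1_Vj_succ]
  exact (Finset.fold_min_le _).2 (Or.inr ⟨y, Multiset.mem_toFinset.2 hy, le_rfl⟩)

/-- more moves make the value smaller -/
theorem l1_Vj_succ_le_self {x : ℝ} (hx : 0 ≤ x) (j : ℕ) : ∀ (Z : Finset T) (A : Multiset T),
    Vj x (j + 1) Z A ≤ Vj x j Z A := by
  induction j with
  | zero => intro Z A; rw [l1_Vj_zero]; exact l1_Vj_le_one x 1 Z A
  | succ j ih =>
    intro Z A
    conv_rhs => rw [l1_Vj_succ]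
    refine (Finset.le_fold_min _).2 ⟨l1_Vj_le_one x _ Z A, fun y hy => ?_⟩
    exact (l1_Vj_succ_le (Multiset.mem_toFinset.1 hy)).trans (l1_stp_mono_f hx ih Z _ y)

theorem l1_Vj_antitone {x : ℝ} (hx : 0 ≤ x) (Z : Finset T) (A : Multiset T) :
    Antitone fun j => Vj x j Z A :=
  antitone_nat_of_succ_le fun j => l1_Vj_succ_le_self hx j Z A

theorem l1_erase_val {W : Finset T} {z : T} (hz : z ∈ W) (A : Multiset T) :
    z ::ₘ A + (W.erase z).val = A + W.val := by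
  rw [Finset.erase_val, Multiset.cons_add, ← Multiset.add_cons, Multiset.cons_erase]
  exact hz

/-- monotonicity of an arrival, from the monotonicity of `f` -/
theorem l1_arr_mono {x : ℝ} (hx : 0 ≤ x) {f : Finset T → Multiset T → ℝ}
    (hf : ∀ (Z Z' W : Finset T) (A A' : Multiset T), W ⊆ Z → A + W.val ≤ A' → Z \ W ⊆ Z' →
      f Z' A' ≤ f Z A)
    {Z Z' W : Finset T} {A A' : Multiset T} (hW : W ⊆ Z) (hA : A + W.val ≤ A')
    (hZ : Z \ W ⊆ Z') (z : T) : arr x f Z' A' z ≤ arr x f Z A z := by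
  unfold arr
  refine mul_le_mul_of_nonneg_left ?_ (l1_wt_nonneg hx z)
  have hA1 : z ::ₘ A + W.val ≤ z ::ₘ A' := by
    rw [Multiset.cons_add]
    exact Multiset.cons_le_cons z hA
  have hA2 : z ::ₘ z ::ₘ A + W.val ≤ z ::ₘ z ::ₘ A' := by
    rw [Multiset.cons_add]
    exact Multiset.cons_le_cons z hA1
  by_cases hzZ : z ∈ Z
  · by_cases hzW : z ∈ W
    · have hW' : W.erase z ⊆ Z.erase z := Finset.erase_subset_erase z hW
      have hA3 : z ::ₘ z ::ₘ A + (W.erase z).val ≤ z ::ₘ A' := by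
        rw [l1_erase_val hzW]
        exact hA1
      have hZ3 : Z.erase z \ W.erase z ⊆ Z' := by
        intro u hu
        have hu1 := Finset.mem_sdiff.1 hu
        have hu2 := Finset.mem_erase.1 hu1.1
        refine hZ (Finset.mem_sdiff.2 ⟨hu2.2, fun h => hu1.2 (Finset.mem_erase.2 ⟨hu2.1, h⟩)⟩)
      by_cases hzZ' : z ∈ Z'
      · rw [if_pos hzZ', if_pos hzZ]
        refine hf (Z.erase z) (Z'.erase z) (W.erase z) _ _ hW'
          (hA3.trans (Multiset.le_cons_self _ z)) ?_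
        intro u hu
        have hu1 := Finset.mem_sdiff.1 hu
        exact Finset.mem_erase.2 ⟨(Finset.mem_erase.1 hu1.1).1, hZ3 hu⟩
      · rw [if_neg hzZ', if_pos hzZ]
        exact hf (Z.erase z) Z' (W.erase z) _ _ hW' hA3 hZ3
    · have hzZ' : z ∈ Z' := hZ (Finset.mem_sdiff.2 ⟨hzZ, hzW⟩)
      rw [if_pos hzZ', if_pos hzZ]
      refine hf (Z.erase z) (Z'.erase z) W _ _ ?_ hA2 ?_
      · intro u hu
        refine Finset.mem_erase.2 ⟨fun h => hzW (h ▸ hu), hW hu⟩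
      · intro u hu
        have hu1 := Finset.mem_sdiff.1 hu
        have hu2 := Finset.mem_erase.1 hu1.1
        exact Finset.mem_erase.2 ⟨hu2.1, hZ (Finset.mem_sdiff.2 ⟨hu2.2, hu1.2⟩)⟩
  · rw [if_neg hzZ]
    by_cases hzZ' : z ∈ Z'
    · rw [if_pos hzZ']
      refine hf Z (Z'.erase z) W _ _ hW (hA1.trans (Multiset.le_cons_self _ z)) ?_
      intro u hu
      refine Finset.mem_erase.2 ⟨fun h => hzZ ?_, hZ hu⟩
      rw [← h]
      exact (Finset.mem_sdiff.1 hu).1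
    · rw [if_neg hzZ']
      exact hf Z Z' W _ _ hW hA1 hZ

theorem l1_Vj_mono {x : ℝ} (hx : 0 ≤ x) (j : ℕ) : ∀ (Z Z' W : Finset T) (A A' : Multiset T),
    W ⊆ Z → A + W.val ≤ A' → Z \ W ⊆ Z' → Vj x j Z' A' ≤ Vj x j Z A := by
  induction j with
  | zero => intro Z Z' W A A' _ _ _; rw [l1_Vj_zero, l1_Vj_zero]
  | succ j ih =>
    intro Z Z' W A A' hW hA hZ
    conv_rhs => rw [l1_Vj_succ]
    refine (Finset.le_fold_min _).2 ⟨l1_Vj_le_one x _ Z' A', fun y hy => ?_⟩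
    have hyA : y ∈ A := Multiset.mem_toFinset.1 hy
    have hyA' : y ∈ A' := Multiset.mem_of_le hA (Multiset.mem_add.2 (Or.inl hyA))
    refine (l1_Vj_succ_le hyA').trans (l1_stp_le y fun z => ?_)
    refine l1_arr_mono hx ih hW ?_ hZ z
    rw [← Multiset.erase_add_left_pos _ hyA]
    exact Multiset.erase_le_erase y hA

theorem l1_bdd {x : ℝ} (hx : 0 ≤ x) (Z : Finset T) (A : Multiset T) :
    BddBelow (Set.range fun j => Vj x j Z A) := by
  refine ⟨0, ?_⟩
  rintro _ ⟨j, rfl⟩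
  exact l1_Vj_nonneg hx j Z A

theorem l1_V_le_Vj {x : ℝ} (hx : 0 ≤ x) (j : ℕ) (Z : Finset T) (A : Multiset T) :
    V x Z A ≤ Vj x j Z A :=
  ciInf_le (l1_bdd hx Z A) j

theorem l1_tendsto {x : ℝ} (hx : 0 ≤ x) (Z : Finset T) (A : Multiset T) :
    Tendsto (fun j => Vj x j Z A) atTop (𝓝 (V x Z A)) :=
  tendsto_atTop_ciInf (l1_Vj_antitone hx Z A) (l1_bdd hx Z A)

theorem l1_tendsto_arr {x : ℝ} (hx : 0 ≤ x) (Z : Finset T) (A : Multiset T) (z : T) :
    Tendsto (fun j => arr x (Vj x j) Z A z) atTop (𝓝 (arr x (V x) Z A z)) := by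
  unfold arr
  refine Tendsto.const_mul _ ?_
  by_cases hz : z ∈ Z
  · simp only [if_pos hz]
    exact l1_tendsto hx _ _
  · simp only [if_neg hz]
    exact l1_tendsto hx _ _

theorem l1_tendsto_stp {x : ℝ} (hx : 0 ≤ x) (Z : Finset T) (A : Multiset T) (y : T) :
    Tendsto (fun j => stp x (Vj x j) Z A y) atTop (𝓝 (stp x (V x) Z A y)) := by
  unfold stp
  by_cases hy : y = []
  · simp only [if_pos hy]
    exact Tendsto.const_mul _ (tendsto_finsetSum _ fun i _ => l1_tendsto_arr hx Z A [i])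
  · simp only [if_neg hy]
    exact Tendsto.add (Tendsto.const_mul _ (l1_tendsto_arr hx Z A y.tail))
      (Tendsto.const_mul _ (tendsto_finsetSum _ fun i _ => l1_tendsto_arr hx Z A (i :: y)))

/-- row L1, bounds -/
theorem sb01 : SB01 := by
  intro x hx _ Z A
  exact ⟨Real.iInf_nonneg fun j => l1_Vj_nonneg hx j Z A,
    (l1_V_le_Vj hx 0 Z A).trans (le_of_eq (l1_Vj_zero x Z A))⟩

/-- row L2, monotonicity -/
theorem smono : SMono := by
  intro x hx _ Z Z' W A A' hW hA hZ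
  exact ciInf_mono (l1_bdd hx Z' A') fun j => l1_Vj_mono hx j Z Z' W A A' hW hA hZ

/-- row L3, one move -/
theorem sstep : SStep := by
  intro x hx _ Z A y
  refine ge_of_tendsto' (l1_tendsto_stp hx Z A y) fun j => ?_
  have h := l1_Vj_succ_le (x := x) (j := j) (Z := Z) (Multiset.mem_cons_self y A)
  rw [Multiset.erase_cons_head] at h
  exact (l1_V_le_Vj hx (j + 1) Z (y ::ₘ A)).trans h

end Pool.Agent.H80.T3
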