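import Pool.Agent.H80.T3.Stm

/-!
# MP_2b43a6_pr, project T3, row P2, first file: the functionals `T(u, q, N)`

`p2St B N u` is `T(u, n - u, N)` with the boundary values `B u = T(u, n - u, 0)`; `p2Bs L n` are the
boundary values.
-/

set_option autoImplicit false

namespace Pool.Agent.H80.T3

/-- the functionals with `N` frogs at `v` -/
noncomputable def p2St (B : ℕ → (ℕ → ℝ) → ℝ) : ℕ → ℕ → (ℕ → ℝ) → ℝ
  | 0, u, F => B u F
  | N + 1, u, F => (1 / 3) * p2St B N u (fun m => F (m + 1)) +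
      (2 / 9) * ((u : ℝ) * p2St B N (u - 1) F + (3 - (u : ℝ)) * p2St B N u F)

/-- the functionals without frogs at `v`; `n` children are not dead, `u` of them are untouched -/
noncomputable def p2Bs (L : (ℕ → ℝ) → ℝ) : ℕ → ℕ → (ℕ → ℝ) → ℝ
  | 0, _, F => F 0
  | n + 1, u, F => if u = n + 1 then F 0 else L (fun R => p2St (p2Bs L n) R u F)

theorem p2_st0 (B : ℕ → (ℕ → ℝ) → ℝ) (u : ℕ) (F : ℕ → ℝ) : p2St B 0 u F = B u F := rfl

theorem p2_sts (B : ℕ → (ℕ → ℝ) → ℝ) (N u : ℕ) (F : ℕ → ℝ) : p2St B (N + 1) u F =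
    (1 / 3) * p2St B N u (fun m => F (m + 1)) +
      (2 / 9) * ((u : ℝ) * p2St B N (u - 1) F + (3 - (u : ℝ)) * p2St B N u F) := rfl

theorem p2_bs0 (L : (ℕ → ℝ) → ℝ) (u : ℕ) (F : ℕ → ℝ) : p2Bs L 0 u F = F 0 := rfl

theorem p2_bss (L : (ℕ → ℝ) → ℝ) (n u : ℕ) (F : ℕ → ℝ) : p2Bs L (n + 1) u F =
    if u = n + 1 then F 0 else L (fun R => p2St (p2Bs L n) R u F) := rfl

theorem p2_ev : PF (fun F : ℕ → ℝ => F 0) :=
  ⟨fun _ _ h => h 0, fun _ _ => rfl, fun _ _ => rfl, rfl⟩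

theorem p2_pfst {B : ℕ → (ℕ → ℝ) → ℝ} (hB : ∀ u, u ≤ 3 → PF (B u)) (N : ℕ) :
    ∀ u, u ≤ 3 → PF (p2St B N u) := by
  induction N with
  | zero => intro u hu; exact hB u hu
  | succ N ih =>
    intro u hu
    have h1 := ih u hu
    have h2 := ih (u - 1) (by omega)
    have hu0 : (0 : ℝ) ≤ (u : ℝ) := Nat.cast_nonneg u
    have hu3 : (0 : ℝ) ≤ 3 - (u : ℝ) := by
      have : (u : ℝ) ≤ 3 := by exact_mod_cast hu
      linarith
    refine ⟨?_, ?_, ?_, ?_⟩
    · intro f g hfg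
      rw [p2_sts, p2_sts]
      have e1 := h1.mono (fun m => f (m + 1)) (fun m => g (m + 1)) (fun m => hfg (m + 1))
      have e2 := mul_le_mul_of_nonneg_left (h2.mono f g hfg) hu0
      have e3 := mul_le_mul_of_nonneg_left (h1.mono f g hfg) hu3
      linarith
    · intro f g
      rw [p2_sts, p2_sts, p2_sts, h1.add f g, h2.add f g,
        h1.add (fun m => f (m + 1)) (fun m => g (m + 1))]
      ring
    · intro c f
      rw [p2_sts, p2_sts, h1.smul c f, h2.smul c f, h1.smul c (fun m => f (m + 1))]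
      ring
    · rw [p2_sts, h1.one, h2.one]
      ring

theorem p2_pfbs {L : (ℕ → ℝ) → ℝ} (hL : PF L) (n : ℕ) : ∀ u, u ≤ 3 → PF (p2Bs L n u) := by
  induction n with
  | zero => intro u _; exact p2_ev
  | succ n ih =>
    intro u hu
    by_cases h : u = n + 1
    · have e : p2Bs L (n + 1) u = fun F => F 0 := by
        funext F
        rw [p2_bss, if_pos h]
      rw [e]
      exact p2_ev
    · have e : p2Bs L (n + 1) u = fun F => L (fun R => p2St (p2Bs L n) R u F) := by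
        funext F
        rw [p2_bss, if_neg h]
      rw [e]
      have hS := fun R => p2_pfst ih R u hu
      refine ⟨?_, ?_, ?_, ?_⟩
      · intro f g hfg
        exact hL.mono _ _ (fun R => (hS R).mono f g hfg)
      · intro f g
        have e2 : (fun R => p2St (p2Bs L n) R u (fun m => f m + g m)) =
            fun R => p2St (p2Bs L n) R u f + p2St (p2Bs L n) R u g := by
          funext R
          exact (hS R).add f g
        show L (fun R => p2St (p2Bs L n) R u (fun m => f m + g m)) = _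
        rw [e2, hL.add]
      · intro c f
        have e2 : (fun R => p2St (p2Bs L n) R u (fun m => c * f m)) =
            fun R => c * p2St (p2Bs L n) R u f := by
          funext R
          exact (hS R).smul c f
        show L (fun R => p2St (p2Bs L n) R u (fun m => c * f m)) = _
        rw [e2, hL.smul]
      · have e2 : (fun R => p2St (p2Bs L n) R u (fun _ => 1)) = fun _ => 1 := by
          funext R
          exact (hS R).one
        show L (fun R => p2St (p2Bs L n) R u (fun _ => 1)) = _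
        rw [e2, hL.one]

/-- the recursion on powers -/
theorem p2_pow {B : ℕ → (ℕ → ℝ) → ℝ} (hB : ∀ u, u ≤ 3 → PF (B u)) (x : ℝ) (N u : ℕ) (hu : u ≤ 3) :
    p2St B (N + 1) u (fun m => x ^ m) = (x / 3 + (2 / 9) * (3 - (u : ℝ))) *
      p2St B N u (fun m => x ^ m) + (2 / 9) * (u : ℝ) * p2St B N (u - 1) (fun m => x ^ m) := by
  have e : (fun m : ℕ => x ^ (m + 1)) = fun m => x * x ^ m := by
    funext m
    ring
  rw [p2_sts, e, (p2_pfst hB N u hu).smul x]
  ring

section values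

variable {L : (ℕ → ℝ) → ℝ} (hL : PF L) (x : ℝ)

include hL

/-- `T(0, n, N)` -/
theorem p2_v0 (n : ℕ) : ∀ N, p2St (p2Bs L n) N 0 (fun m => x ^ m) =
    (x / 3 + 2 / 3) ^ N * (L fun m => (x / 3 + 2 / 3) ^ m) ^ n := by
  induction n with
  | zero =>
    intro N
    induction N with
    | zero => rw [p2_st0, p2_bs0]; norm_num
    | succ N ih =>
      rw [p2_pow (p2_pfbs hL 0) x N 0 (by norm_num), ih]
      push_cast
      ring
  | succ n ihn =>
    intro N
    induction N with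
    | zero =>
      rw [p2_st0, p2_bss, if_neg (by omega)]
      have e : (fun R => p2St (p2Bs L n) R 0 (fun m => x ^ m)) = fun R =>
          (L fun m => (x / 3 + 2 / 3) ^ m) ^ n * (x / 3 + 2 / 3) ^ R := by
        funext R
        rw [ihn R]
        ring
      rw [e, hL.smul]
      ring
    | succ N ih =>
      rw [p2_pow (p2_pfbs hL (n + 1)) x N 0 (by norm_num), ih]
      push_cast
      ring

/-- `T(1, 0, N)` -/
theorem p2_v10 (N : ℕ) : p2St (p2Bs L 1) N 1 (fun m => x ^ m) =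
    (x / 3 + 4 / 9) ^ N + ((x / 3 + 2 / 3) ^ N - (x / 3 + 4 / 9) ^ N) *
      (L fun m => (x / 3 + 2 / 3) ^ m) := by
  induction N with
  | zero => rw [p2_st0, p2_bss, if_pos rfl]; norm_num
  | succ N ih =>
    rw [p2_pow (p2_pfbs hL 1) x N 1 (by norm_num), ih, Nat.sub_self, p2_v0 hL x 1 N]
    push_cast
    ring

/-- `T(1, 1, N)` -/
theorem p2_v11 (N : ℕ) : p2St (p2Bs L 2) N 1 (fun m => x ^ m) =
    (x / 3 + 4 / 9) ^ N * ((L fun m => (x / 3 + 4 / 9) ^ m) +
      ((L fun m => (x / 3 + 2 / 3) ^ m) - L fun m => (x / 3 + 4 / 9) ^ m) *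
        (L fun m => (x / 3 + 2 / 3) ^ m)) +
      ((x / 3 + 2 / 3) ^ N - (x / 3 + 4 / 9) ^ N) * (L fun m => (x / 3 + 2 / 3) ^ m) ^ 2 := by
  induction N with
  | zero =>
    rw [p2_st0, p2_bss, if_neg (by norm_num)]
    have e : (fun R => p2St (p2Bs L 1) R 1 (fun m => x ^ m)) = fun R =>
        (1 - (L fun m => (x / 3 + 2 / 3) ^ m)) * (x / 3 + 4 / 9) ^ R +
          (L fun m => (x / 3 + 2 / 3) ^ m) * (x / 3 + 2 / 3) ^ R := by
      funext R
      rw [p2_v10 hL x R]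
      ring
    rw [e, hL.add, hL.smul, hL.smul]
    ring
  | succ N ih =>
    rw [p2_pow (p2_pfbs hL 2) x N 1 (by norm_num), ih, Nat.sub_self, p2_v0 hL x 2 N]
    push_cast
    ring

/-- `T(2, 0, N)` -/
theorem p2_v20 (N : ℕ) : p2St (p2Bs L 2) N 2 (fun m => x ^ m) =
    (x / 3 + 2 / 9) ^ N + 2 * ((x / 3 + 4 / 9) ^ N - (x / 3 + 2 / 9) ^ N) *
      ((L fun m => (x / 3 + 4 / 9) ^ m) +
      ((L fun m => (x / 3 + 2 / 3) ^ m) - L fun m => (x / 3 + 4 / 9) ^ m) *
        (L fun m => (x / 3 + 2 / 3) ^ m)) +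
      ((x / 3 + 2 / 3) ^ N - 2 * (x / 3 + 4 / 9) ^ N + (x / 3 + 2 / 9) ^ N) *
        (L fun m => (x / 3 + 2 / 3) ^ m) ^ 2 := by
  induction N with
  | zero => rw [p2_st0, p2_bss, if_pos rfl]; norm_num
  | succ N ih =>
    rw [p2_pow (p2_pfbs hL 2) x N 2 (by norm_num), ih]
    rw [show 2 - 1 = 1 from rfl, p2_v11 hL x N]
    push_cast
    ring

/-- the value of `T(2, 1, 1)` -/
theorem p2_v211 : p2St (p2Bs L 3) 1 2 (fun m => x ^ m) =
    Aop x (L fun m => (x / 3 + 2 / 9) ^ m) (L fun m => (x / 3 + 4 / 9) ^ m)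
      (L fun m => (x / 3 + 2 / 3) ^ m) := by
  have e1 : p2St (p2Bs L 3) 0 2 (fun m => x ^ m) = L (fun R => p2St (p2Bs L 2) R 2 (fun m => x ^ m)) := by
    rw [p2_st0, p2_bss, if_neg (by norm_num)]
  have e2 : p2St (p2Bs L 3) 0 1 (fun m => x ^ m) = L (fun R => p2St (p2Bs L 2) R 1 (fun m => x ^ m)) := by
    rw [p2_st0, p2_bss, if_neg (by norm_num)]
  rw [p2_pow (p2_pfbs hL 3) x 0 2 (by norm_num), show 2 - 1 = 1 from rfl, e1, e2]
  set w := L fun m => (x / 3 + 2 / 3) ^ m with hw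
  set f1 := L fun m => (x / 3 + 4 / 9) ^ m with hf1
  have e3 : (fun R => p2St (p2Bs L 2) R 2 (fun m => x ^ m)) = fun R =>
      ((1 - 2 * (f1 + (w - f1) * w) + w ^ 2) * (x / 3 + 2 / 9) ^ R +
        (2 * (f1 + (w - f1) * w) - 2 * w ^ 2) * (x / 3 + 4 / 9) ^ R) +
        w ^ 2 * (x / 3 + 2 / 3) ^ R := by
    funext R
    rw [p2_v20 hL x R]
    ring
  have e4 : (fun R => p2St (p2Bs L 2) R 1 (fun m => x ^ m)) = fun R =>
      ((f1 + (w - f1) * w) - w ^ 2) * (x / 3 + 4 / 9) ^ R + w ^ 2 * (x / 3 + 2 / 3) ^ R := by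
    funext R
    rw [p2_v11 hL x R]
    ring
  rw [e3, e4, hL.add, hL.add, hL.add, hL.smul, hL.smul, hL.smul, hL.smul, ← hw, ← hf1]
  unfold Aop
  push_cast
  ring

end values

end Pool.Agent.H80.T3
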