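import Pool.Agent.H80.T3.P2a

/-!
# MP_2b43a6_pr, project T3, row P2, second file: the values of the states
-/

set_option autoImplicit false

namespace Pool.Agent.H80.T3

/-! ### geometry -/

theorem p2_zn (h : ℕ) : ∀ (y z : T), z ∈ Zn h y → y <:+ z := by
  induction h with
  | zero => intro y z hz; simp [Zn] at hz
  | succ h ih =>
    intro y z hz
    rw [Zn, Finset.mem_insert, Finset.mem_biUnion] at hz
    rcases hz with rfl | ⟨i, _, hz⟩
    · exact List.suffix_refl _
    · exact (List.suffix_cons i y).trans (ih (i :: y) z hz)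

theorem p2_tt (t h : ℕ) (y z : T) (hz : z ∈ Tt t h y) : y <:+ z := by
  rw [Tt, Finset.mem_biUnion] at hz
  obtain ⟨i, _, hz⟩ := hz
  exact (List.suffix_cons i y).trans (p2_zn (h - 1) (i :: y) z hz)

theorem p2_bs (h : ℕ) (c z : T) (a : St) (hz : z ∈ a.bs h c) : c <:+ z := by
  cases a
  · exact absurd hz (by simp [St.bs])
  · exact p2_tt 1 h c z hz
  · exact p2_tt 1 h c z hz
  · exact p2_tt 2 h c z hz
  · exact p2_tt 2 h c z hz
  · exact p2_tt 3 h c z hz
  · exact p2_tt 3 h c z hz
  · exact p2_zn h c z hz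
  · exact p2_zn h c z hz
  · exact p2_zn h c z hz
  · exact p2_zn h c z hz

theorem p2_bas (h : ℕ) (v z : T) (s : Fin 3 → St) (i : Fin 3)
    (hz : z ∈ bas h v (Function.update s i St.D)) : ∃ j : Fin 3, j ≠ i ∧ (j :: v) <:+ z := by
  have key : ∀ j : Fin 3, z ∈ (Function.update s i St.D j).bs h (j :: v) →
      ∃ j : Fin 3, j ≠ i ∧ (j :: v) <:+ z := by
    intro j hj
    by_cases hji : j = i
    · rw [hji, Function.update_self] at hj
      exact absurd hj (by simp [St.bs])
    · exact ⟨j, hji, p2_bs h _ z _ hj⟩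
  rw [bas, Finset.mem_union, Finset.mem_union] at hz
  rcases hz with hz | hz | hz
  · exact key 0 hz
  · exact key 1 hz
  · exact key 2 hz

theorem p2_ne {v z : T} {i j : Fin 3} (hi : (i :: v) <:+ z) (hj : (j :: v) <:+ z) : j = i := by
  have h := List.suffix_of_suffix_length_le hi hj (by simp)
  have h2 : i :: v = j :: v := h.eq_of_length (by simp)
  exact ((List.cons.inj h2).1).symm

theorem p2_val_union {s t : Finset T} (h : Disjoint s t) : (s ∪ t).val = s.val + t.val := by
  rw [← Finset.disjUnion_eq_union s t h]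
  rfl

/-! ### monotonicity -/

theorem p2_vw (h2 : SMono) {x : ℝ} (hx0 : 0 ≤ x) (hx1 : x ≤ 1) (W : Finset T) (A : Multiset T)
    {S S' : Finset T} (h : S ⊆ S') : Vw x S' W A ≤ Vw x S W A := by
  have e : (W ∩ S').val = (W ∩ S).val + ((W ∩ S') \ S).val := by
    rw [← p2_val_union]
    · congr 1
      ext z
      simp only [Finset.mem_union, Finset.mem_inter, Finset.mem_sdiff]
      constructor
      · rintro ⟨a, b⟩
        by_cases hz : z ∈ S
        · exact Or.inl ⟨a, hz⟩
        · exact Or.inr ⟨⟨a, b⟩, hz⟩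
      · rintro (⟨a, b⟩ | ⟨⟨a, b⟩, _⟩)
        · exact ⟨a, h b⟩
        · exact ⟨a, b⟩
    · rw [Finset.disjoint_left]
      intro z hz hz'
      exact (Finset.mem_sdiff.1 hz').2 (Finset.mem_inter.1 hz).2
  refine h2 x hx0 hx1 (W \ S) (W \ S') ((W ∩ S') \ S) (A + (W ∩ S).val) (A + (W ∩ S').val) ?_ ?_ ?_
  · intro z hz
    rw [Finset.mem_sdiff, Finset.mem_inter] at hz
    exact Finset.mem_sdiff.2 ⟨hz.1.1, hz.2⟩
  · rw [e, add_assoc]
  · intro z hz
    simp only [Finset.mem_sdiff, Finset.mem_inter, not_and, not_not] at hz ⊢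
    exact ⟨hz.1.1, fun hz' => hz.1.2 (hz.2 ⟨hz.1.1, hz'⟩)⟩

theorem p2_upd (h5 : SOps) (x : ℝ) (h : ℕ) (v : T) (s : Fin 3 → St) (i : Fin 3) (a : St)
    (Z : Finset T) (A : Multiset T) (N : ℕ) :
    Val x h v (Function.update s i a) Z A N = ops h v (Function.update s i St.D)
      (fun S' => a.op h (i :: v) (fun S => Vw x (S ∪ S')
        (Z ∪ (a.bs h (i :: v) ∪ bas h v (Function.update s i St.D)))
          (A + Multiset.replicate N v))) := by
  obtain ⟨_, _, _, _, c5, _, c7, _⟩ := h5 h v (Function.update s i a)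
  unfold Val
  rw [c5 i, c7 i, Function.update_idem, Function.update_self]

theorem p2_stat (h2 : SMono) (h5 : SOps) {x : ℝ} (hx0 : 0 ≤ x) (hx1 : x ≤ 1) (h : ℕ) (v : T)
    (s : Fin 3 → St) (i : Fin 3) (a a' : St) (Z : Finset T) (A : Multiset T) (N : ℕ)
    (hb : a'.bs h (i :: v) = a.bs h (i :: v))
    (ho : ∀ H : Finset T → ℝ, (∀ S S', S ⊆ S' → H S' ≤ H S) →
      a'.op h (i :: v) H ≤ a.op h (i :: v) H) :
    Val x h v (Function.update s i a') Z A N ≤ Val x h v (Function.update s i a) Z A N := by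
  rw [p2_upd h5, p2_upd h5, hb]
  refine (h5 h v (Function.update s i St.D)).1 _ _ (fun S' _ => ho _ (fun S S'' hS => ?_))
  exact p2_vw h2 hx0 hx1 _ _ (Finset.union_subset_union_left hS)

theorem p2_fl (h2 : SMono) (h5 : SOps) {x : ℝ} (hx0 : 0 ≤ x) (hx1 : x ≤ 1) (h : ℕ) (v : T)
    (s : Fin 3 → St) (i : Fin 3) (Z : Finset T) (A : Multiset T) (N : ℕ) :
    Val x h v (Function.update s i St.FL) Z A N ≤ Val x h v (Function.update s i St.F) Z A N :=
  p2_stat h2 h5 hx0 hx1 h v s i St.F St.FL Z A N rfl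
    (fun _ hH => hH _ _ (Finset.empty_subset _))

theorem p2_faa (h2 : SMono) (h3 : SAb) (h5 : SOps) {x : ℝ} (hx0 : 0 ≤ x) (hx1 : x ≤ 1) (h : ℕ)
    (v : T) (s : Fin 3 → St) (i : Fin 3) (Z : Finset T) (A : Multiset T) (N : ℕ) :
    Val x h v (Function.update s i St.FAA) Z A N ≤ Val x h v (Function.update s i St.FA) Z A N := by
  refine p2_stat h2 h5 hx0 hx1 h v s i St.FA St.FAA Z A N rfl (fun H hH => ?_)
  obtain ⟨c1, _, _, c4⟩ := h3 h (i :: v)
  refine c1 _ _ (fun S _ _ => ?_)
  have e : H S = ab h (i :: v) (fun _ => H S) := (c4 (H S)).symm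
  rw [e]
  exact c1 _ _ (fun S' _ _ => hH _ _ Finset.subset_union_left)

theorem p2_drop (h2 : SMono) (h5 : SOps) {x : ℝ} (hx0 : 0 ≤ x) (hx1 : x ≤ 1) (h : ℕ) (v : T)
    (s s' : Fin 3 → St) (hs : ∀ j, s' j = s j ∨ (s' j = St.F ∧ s j = St.FL)) (Z : Finset T)
    (A : Multiset T) (N : ℕ) : Val x h v s Z A N ≤ Val x h v s' Z A N := by
  have step : ∀ (q : Fin 3 → St) (j : Fin 3), q j = s j →
      Val x h v q Z A N ≤ Val x h v (Function.update q j (s' j)) Z A N := by
    intro q j hq
    rcases hs j with e | ⟨e1, e2⟩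
    · rw [e, ← hq, Function.update_eq_self]
    · have hq2 : Function.update q j St.FL = q := by
        rw [← e2, ← hq, Function.update_eq_self]
      rw [e1]
      calc Val x h v q Z A N = Val x h v (Function.update q j St.FL) Z A N := by rw [hq2]
        _ ≤ _ := p2_fl h2 h5 hx0 hx1 h v q j Z A N
  have s0 := step s 0 rfl
  have s1 := step (Function.update s 0 (s' 0)) 1 (by simp)
  have s2 := step (Function.update (Function.update s 0 (s' 0)) 1 (s' 1)) 2 (by simp)
  have e : Function.update (Function.update (Function.update s 0 (s' 0)) 1 (s' 1)) 2 (s' 2) = s' := by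
    funext j
    fin_cases j <;> simp
  rw [e] at s2
  exact s0.trans (s1.trans s2)

/-! ### functionals and averages -/

theorem p2_lsum {L : (ℕ → ℝ) → ℝ} (hL : PF L) {ι : Type} (t : Finset ι) (f : ι → ℕ → ℝ) :
    L (fun m => ∑ i ∈ t, f i m) = ∑ i ∈ t, L (f i) := by
  classical
  induction t using Finset.induction_on with
  | empty =>
    have := hL.smul 0 (fun _ => 1)
    simpa using this
  | insert a t ha ih =>
    have e : (fun m => ∑ i ∈ insert a t, f i m) = fun m => f a m + ∑ i ∈ t, f i m := by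
      funext m
      rw [Finset.sum_insert ha]
    rw [e, hL.add (f a) (fun m => ∑ i ∈ t, f i m), ih, Finset.sum_insert ha]

theorem p2_labL {L : (ℕ → ℝ) → ℝ} (hL : PF L) (h : ℕ) : ∀ (y : T) (G : ℕ → Finset T → ℝ),
    ab h y (fun S => L (fun m => G m S)) = L (fun m => ab h y (G m)) := by
  induction h with
  | zero => intro y G; rfl
  | succ h ih =>
    intro y G
    have e : (fun m => ab (h + 1) y (G m)) = fun m => ∑ B : Finset (Fin 3), pB B *
        ((1 / 3) * ∑ i : Fin 3, ab h (i :: y) (fun S => G m (insert y (ch y B ∪ S)))) := rfl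
    rw [e, p2_lsum hL]
    show (∑ B : Finset (Fin 3), pB B * ((1 / 3) * ∑ i : Fin 3,
      ab h (i :: y) (fun S => L (fun m => G m (insert y (ch y B ∪ S)))))) = _
    refine Finset.sum_congr rfl (fun B _ => ?_)
    rw [hL.smul, hL.smul, p2_lsum hL]
    refine congrArg₂ _ rfl (congrArg₂ _ rfl (Finset.sum_congr rfl (fun i _ => ?_)))
    exact ih (i :: y) (fun m S => G m (insert y (ch y B ∪ S)))

theorem p2_lopL {L : (ℕ → ℝ) → ℝ} (hL : PF L) (h : ℕ) (c : T) (a : St)
    (G : ℕ → Finset T → ℝ) :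
    a.op h c (fun S => L (fun m => G m S)) = L (fun m => a.op h c (G m)) := by
  cases a
  · rfl
  · rfl
  · exact p2_labL hL h c G
  · rfl
  · exact p2_labL hL h c G
  · rfl
  · exact p2_labL hL h c G
  · rfl
  · rfl
  · exact p2_labL hL h c G
  · show ab h c (fun S => ab h c (fun S' => L (fun m => G m (S ∪ S')))) =
      L (fun m => ab h c (fun S => ab h c (fun S' => G m (S ∪ S'))))
    have e : (fun S => ab h c (fun S' => L (fun m => G m (S ∪ S')))) = fun S =>
        L (fun m => ab h c (fun S' => G m (S ∪ S'))) := by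
      funext S
      exact p2_labL hL h c (fun m S' => G m (S ∪ S'))
    rw [e]
    exact p2_labL hL h c (fun m S => ab h c (fun S' => G m (S ∪ S')))

theorem p2_lopsL {L : (ℕ → ℝ) → ℝ} (hL : PF L) (h : ℕ) (v : T) (s : Fin 3 → St)
    (G : ℕ → Finset T → ℝ) :
    ops h v s (fun S => L (fun m => G m S)) = L (fun m => ops h v s (G m)) := by
  unfold ops
  rw [← p2_lopL hL h (0 :: v) (s 0)]
  congr 1
  funext S0
  rw [← p2_lopL hL h (1 :: v) (s 1)]
  congr 1
  funext S1
  rw [← p2_lopL hL h (2 :: v) (s 2)]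

/-! ### the rule for a pending absorbed run -/

theorem p2_proc (h3 : SAb) (h5 : SOps) {x : ℝ} (hx0 : 0 ≤ x) (hx1 : x ≤ 1) {h : ℕ}
    {L : (ℕ → ℝ) → ℝ} (hL : Lv1 h L) (v : T) (hv : v ≠ []) (Z : Finset T) (A : Multiset T)
    (hE : Env v Z A) (s : Fin 3 → St) (i : Fin 3) (hi : s i = St.FA) :
    Val x h v s Z A 0 ≤ L (fun R => Val x h v (Function.update s i St.D) Z A R) := by
  obtain ⟨hP, hL2⟩ := hL
  have e0 : Function.update s i St.FA = s := by rw [← hi, Function.update_eq_self]
  have e1 := p2_upd h5 x h v s i St.FA Z A 0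
  rw [e0] at e1
  rw [e1]
  set s' := Function.update s i St.D with hs'
  set B := bas h v s' with hB
  have e2 : (fun R => Val x h v s' Z A R) = fun R => ops h v s'
      (fun S' => Vw x S' (Z ∪ B) (A + Multiset.replicate R v)) := rfl
  rw [e2, ← p2_lopsL hP]
  refine (h5 h v s).2.2.2.2.2.1 i _ _ (fun S' hS' => ?_)
  show ab h (i :: v) (fun S => Vw x (S ∪ S') (Z ∪ (Zn h (i :: v) ∪ B))
    (A + Multiset.replicate 0 v)) ≤ L (fun m => Vw x S' (Z ∪ B) (A + Multiset.replicate m v))
  have hd : ∀ z, (i :: v) <:+ z → z ∉ S' := by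
    intro z hz hzS
    obtain ⟨j, hj, hz2⟩ := hS' z hzS
    exact hj (p2_ne hz hz2)
  have hEB : ∀ y ∈ Z ∪ B, ¬ (i :: v) <:+ y := by
    intro y hy hy2
    rw [Finset.mem_union] at hy
    rcases hy with hy | hy
    · exact hE.1 y hy ((List.suffix_cons i v).trans hy2)
    · obtain ⟨j, hj, hz2⟩ := p2_bas h v y s i hy
      exact hj (p2_ne hy2 hz2)
  have hEnv : Env (i :: v) ((Z ∪ B) \ S') (A + ((Z ∪ B) ∩ S').val) := by
    refine ⟨fun y hy => hEB y (Finset.mem_sdiff.1 hy).1, fun y hy => ?_⟩
    rw [Multiset.mem_add] at hy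
    rcases hy with hy | hy
    · exact fun hy2 => hE.2 y hy ((List.suffix_cons i v).trans hy2)
    · exact hEB y (Finset.mem_inter.1 hy).1
  have key := hL2 x hx0 hx1 (i :: v) ((Z ∪ B) \ S') (A + ((Z ∪ B) ∩ S').val) (by simp) hEnv
  have e3 : (fun m => Ex x h (i :: v) ((Z ∪ B) \ S') (A + ((Z ∪ B) ∩ S').val) m 0) =
      fun m => Vw x S' (Z ∪ B) (A + Multiset.replicate m v) := by
    funext m
    have ht : Tt 0 h (i :: v) = ∅ := by
      unfold Tt
      simp
    have hw : wt x (i :: v).tail = 1 := by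
      unfold wt
      rw [if_neg (by simpa using hv)]
    unfold Ex Vw
    rw [ht, hw, Finset.union_empty, one_pow, one_mul, List.tail_cons, add_right_comm]
  rw [e3] at key
  refine le_trans ?_ key
  refine (h3 h (i :: v)).1 _ _ (fun S hS _ => le_of_eq ?_)
  unfold Vw
  have hSS : ∀ z ∈ S, z ∉ S' := fun z hz => hd z (hS z hz)
  have e4 : (Z ∪ (Zn h (i :: v) ∪ B)) \ (S ∪ S') = ((Z ∪ B) \ S' ∪ Zn h (i :: v)) \ S := by
    ext z
    simp only [Finset.mem_sdiff, Finset.mem_union]
    have := fun hz : z ∈ Zn h (i :: v) => hd z (p2_zn h _ z hz)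
    tauto
  have e5 : ((Z ∪ (Zn h (i :: v) ∪ B)) ∩ (S ∪ S')).val =
      ((Z ∪ B) ∩ S').val + (((Z ∪ B) \ S' ∪ Zn h (i :: v)) ∩ S).val := by
    rw [← p2_val_union]
    · congr 1
      ext z
      simp only [Finset.mem_sdiff, Finset.mem_union, Finset.mem_inter]
      have h1 := fun hz : z ∈ Zn h (i :: v) => hd z (p2_zn h _ z hz)
      have h2 := hSS z
      tauto
    · rw [Finset.disjoint_left]
      intro z hz hz'
      exact hSS z (Finset.mem_inter.1 hz').2 (Finset.mem_inter.1 hz).2
  rw [e4, e5, Multiset.replicate_zero, add_zero, add_assoc]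

/-! ### counting -/

/-- number of pending children -/
def p2A (s : Fin 3 → St) : ℕ := (Finset.univ.filter fun i => s i = St.FA).card

theorem p2_cnt_erase (s : Fin 3 → St) (i : Fin 3) (a b : St) (hab : a ≠ b) (hs : s i = b) :
    (Finset.univ.filter fun j => Function.update s i a j = b).card + 1 =
      (Finset.univ.filter fun j => s j = b).card := by
  have e : (Finset.univ.filter fun j => Function.update s i a j = b) =
      (Finset.univ.filter fun j => s j = b).erase i := by
    ext j
    simp only [Finset.mem_filter, Finset.mem_univ, true_and, Finset.mem_erase]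
    by_cases hj : j = i
    · rw [hj, Function.update_self]
      simp [hab]
    · rw [Function.update_of_ne hj]
      simp [hj]
  rw [e]
  exact Finset.card_erase_add_one (by simp [hs])

theorem p2_cnt_insert (s : Fin 3 → St) (i : Fin 3) (b : St) (hs : s i ≠ b) :
    (Finset.univ.filter fun j => Function.update s i b j = b).card =
      (Finset.univ.filter fun j => s j = b).card + 1 := by
  have e : (Finset.univ.filter fun j => Function.update s i b j = b) =
      insert i (Finset.univ.filter fun j => s j = b) := by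
    ext j
    simp only [Finset.mem_filter, Finset.mem_univ, true_and, Finset.mem_insert]
    by_cases hj : j = i
    · rw [hj, Function.update_self]
      simp
    · rw [Function.update_of_ne hj]
      simp [hj]
  rw [e]
  exact Finset.card_insert_of_notMem (by simp [hs])

theorem p2_cnt_other (s : Fin 3 → St) (i : Fin 3) (a b : St) (hab : a ≠ b) (hs : s i ≠ b) :
    (Finset.univ.filter fun j => Function.update s i a j = b).card =
      (Finset.univ.filter fun j => s j = b).card := by
  congr 1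
  ext j
  simp only [Finset.mem_filter, Finset.mem_univ, true_and]
  by_cases hj : j = i
  · rw [hj, Function.update_self]
    simp [hab, hs]
  · rw [Function.update_of_ne hj]

theorem p2_nF3 (s : Fin 3 → St) : nF s ≤ 3 := by
  have := Finset.card_filter_le (Finset.univ : Finset (Fin 3)) (fun i => s i = St.F)
  simpa [nF] using this

theorem p2_sum (s : Fin 3 → St) (a b : ℝ) :
    (∑ i : Fin 3, if s i = St.F then a else b) = (nF s : ℝ) * a + (3 - (nF s : ℝ)) * b := by
  rw [Finset.sum_ite, Finset.sum_const, Finset.sum_const, nsmul_eq_mul, nsmul_eq_mul]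
  have h : (Finset.univ.filter fun i : Fin 3 => s i = St.F).card +
      (Finset.univ.filter fun i : Fin 3 => ¬ s i = St.F).card = 3 := by
    have := Finset.card_filter_add_card_filter_not (s := (Finset.univ : Finset (Fin 3)))
      (fun i => s i = St.F)
    simpa using this
  have h2 : ((Finset.univ.filter fun i : Fin 3 => ¬ s i = St.F).card : ℝ) = 3 - (nF s : ℝ) := by
    have h3 : ((Finset.univ.filter fun i : Fin 3 => s i = St.F).card : ℝ) +
      ((Finset.univ.filter fun i : Fin 3 => ¬ s i = St.F).card : ℝ) = 3 := by exact_mod_cast h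
    unfold nF
    linarith
  rw [h2]
  rfl

end Pool.Agent.H80.T3
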