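import Pool.Agent.H80.T3.Stm

/-!
# T3-P4: the comparison functions
-/

set_option autoImplicit false

namespace Pool.Agent.H80.T3

open Real

theorem p4_exp_le (a c : ℝ) (ha : 0 ≤ a)
    (h : 1 ≤ c * (1 + a / 32 + (a / 32) ^ 2 / 2) ^ 32) : Real.exp (-a) ≤ c := by
  have h1 : 1 + a / 32 + (a / 32) ^ 2 / 2 ≤ Real.exp (a / 32) :=
    Real.quadratic_le_exp_of_nonneg (by positivity)
  have h2 : Real.exp a = Real.exp (a / 32) ^ 32 := by
    rw [← Real.exp_nat_mul]
    congr 1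
    push_cast
    ring
  have h3 : (1 + a / 32 + (a / 32) ^ 2 / 2) ^ 32 ≤ Real.exp a := by
    rw [h2]
    exact pow_le_pow_left₀ (by positivity) h1 32
  have hc : 0 ≤ c := by
    by_contra hc
    push Not at hc
    have : c * (1 + a / 32 + (a / 32) ^ 2 / 2) ^ 32 ≤ 0 :=
      mul_nonpos_of_nonpos_of_nonneg hc.le (by positivity)
    linarith
  have h4 : 1 ≤ c * Real.exp a := h.trans (mul_le_mul_of_nonneg_left h3 hc)
  rw [Real.exp_neg, inv_le_comm₀ (Real.exp_pos a) (by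
    rcases hc.lt_or_eq with h5 | h5
    · exact h5
    · rw [← h5] at h4; norm_num at h4)]
  rw [inv_le_iff_one_le_mul₀ (by
    rcases hc.lt_or_eq with h5 | h5
    · exact h5
    · rw [← h5] at h4; norm_num at h4)]
  linarith

/-- exponents at `l` -/
noncomputable def p4E0 (l y : ℝ) : ℝ :=
  -l * (4 / 9 - 2 * y / 3) + y / 20 + (32 / 81 + 16 * y / 27 - 16 / 9 * y ^ 2)

noncomputable def p4E1 (l y : ℝ) : ℝ :=
  -l * (4 / 9 - y / 3) + y / 20 + (16 / 81 + 16 * y / 27 - 14 / 9 * y ^ 2)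

/-- The reduction to exponentials. -/
theorem p4_red (l y : ℝ) (hl : 10 ≤ l) (hy : 0 ≤ y) (hy2 : y ≤ 2 / 3) (A B : ℝ)
    (hA : 1 - Real.exp (-l * (y / 3) + 2 * (y / 3) ^ 2) ≤ A)
    (hB : 1 - Real.exp (-l * (y / 3) + 2 * (y / 3) ^ 2) ^ 2 ≤ B)
    (h : (1 - y / 3) * Real.exp (y / 20 - 4 / 3 * y ^ 2) + B * (5 / 9 - y / 3) *
      Real.exp (p4E0 l y) + 2 * A * (7 / 9 - y / 3) * Real.exp (p4E1 l y) ≤ 1) :
    Aop (1 - y) (phi l ((1 - y) / 3 + 2 / 9)) (phi l ((1 - y) / 3 + 4 / 9))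
      (phi l ((1 - y) / 3 + 2 / 3)) ≤ phi (l + 1 / 20) (1 - y) := by
  set w := Real.exp (-l * (y / 3) + 2 * (y / 3) ^ 2) with hw
  have hwe : phi l ((1 - y) / 3 + 2 / 3) = w := by
    unfold phi
    rw [hw]
    congr 1
    ring
  have hw0 : 0 < w := Real.exp_pos _
  have hw1 : w ≤ 1 := by
    rw [hw]
    apply Real.exp_le_one_iff.2
    nlinarith
  set P := phi (l + 1 / 20) (1 - y) with hP
  have hP0 : 0 < P := Real.exp_pos _
  have h3 : w ^ 3 = P * Real.exp (y / 20 - 4 / 3 * y ^ 2) := by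
    rw [hw, hP, ← Real.exp_nat_mul]
    unfold phi
    rw [← Real.exp_add]
    congr 1
    push_cast
    ring
  have h0 : phi l ((1 - y) / 3 + 2 / 9) = P * Real.exp (p4E0 l y) := by
    rw [hP]
    unfold phi p4E0
    rw [← Real.exp_add]
    congr 1
    ring
  have h1 : phi l ((1 - y) / 3 + 4 / 9) ^ 2 = P * Real.exp (p4E1 l y) := by
    rw [hP]
    unfold phi p4E1
    rw [← Real.exp_nat_mul, ← Real.exp_add]
    congr 1
    push_cast
    ring
  have hf1 : 0 < phi l ((1 - y) / 3 + 4 / 9) := Real.exp_pos _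
  unfold Aop
  rw [hwe, h3, h1, h0]
  set f1 := phi l ((1 - y) / 3 + 4 / 9)
  set r := Real.exp (y / 20 - 4 / 3 * y ^ 2)
  set r0 := Real.exp (p4E0 l y) with hr0
  set r1 := Real.exp (p4E1 l y) with hr1
  have hr0p : 0 < r0 := Real.exp_pos _
  have hr1p : 0 < r1 := Real.exp_pos _
  have k1 : (1 - w) * (((1 - y) / 3 + 2 / 9) * (P * r0) * (1 + w - 2 * f1)) ≤
      P * (B * (5 / 9 - y / 3) * r0) := by
    have e1 : (1 - w) * (1 + w - 2 * f1) ≤ B := by nlinarith
    have e2 : 0 ≤ (5 / 9 - y / 3) * (P * r0) := by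
      apply mul_nonneg (by linarith) (by positivity)
    have := mul_le_mul_of_nonneg_left e1 e2
    nlinarith [this]
  have k2 : (1 - w) * (2 * ((1 - y) / 3 + 4 / 9) * (P * r1)) ≤
      P * (2 * A * (7 / 9 - y / 3) * r1) := by
    have e2 : 0 ≤ 2 * (7 / 9 - y / 3) * (P * r1) := by
      apply mul_nonneg (by linarith) (by positivity)
    have := mul_le_mul_of_nonneg_left hA e2
    nlinarith [this]
  have k3 := mul_le_mul_of_nonneg_left h hP0.le
  have k4 : ((1 - y) / 3 + 2 / 3) * (P * r) = P * ((1 - y / 3) * r) := by ring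
  rw [k4, mul_add (1 - w)]
  nlinarith [k1, k2, k3]

theorem p4_E0 (l y b : ℝ) (hl : 10 ≤ l) (hy : 0 ≤ y) (hyb : y ≤ b) (hb : b ≤ 2 / 3) :
    p4E0 l y ≤ p4E0 10 b := by
  unfold p4E0
  have h1 : 0 ≤ (l - 10) * (4 / 9 - 2 * y / 3) := mul_nonneg (by linarith) (by linarith)
  have h2 : 0 ≤ (b - y) * (4 - b - y) := mul_nonneg (by linarith) (by linarith)
  nlinarith [h1, h2]

theorem p4_E1 (l y b : ℝ) (hl : 10 ≤ l) (hy : 0 ≤ y) (hyb : y ≤ b) (hb : b ≤ 2 / 3) :
    p4E1 l y ≤ p4E1 10 b := by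
  unfold p4E1
  have h1 : 0 ≤ (l - 10) * (4 / 9 - y / 3) := mul_nonneg (by linarith) (by linarith)
  have h2 : 0 ≤ (b - y) * (2 - b - y) := mul_nonneg (by linarith) (by linarith)
  nlinarith [h1, h2]

/-- the interval lemma away from zero -/
theorem p4_regB (l y a b c0 c1 cm A0 A1 Am : ℝ) (hl : 10 ≤ l) (ha : 1 / 5 ≤ a) (hay : a ≤ y)
    (hyb : y ≤ b) (hb : b ≤ 2 / 3)
    (h0 : Real.exp (-A0) ≤ c0) (h1 : Real.exp (-A1) ≤ c1) (hm : Real.exp (-Am) ≤ cm)
    (e0 : p4E0 10 b ≤ -A0) (e1 : p4E1 10 b ≤ -A1) (em : a / 20 - 4 / 3 * a ^ 2 ≤ -Am)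
    (hs : (1 - a / 3) * cm + (5 / 9 - a / 3) * c0 + 2 * (7 / 9 - a / 3) * c1 ≤ 1) :
    Aop (1 - y) (phi l ((1 - y) / 3 + 2 / 9)) (phi l ((1 - y) / 3 + 4 / 9))
      (phi l ((1 - y) / 3 + 2 / 3)) ≤ phi (l + 1 / 20) (1 - y) := by
  have hy : 0 ≤ y := by linarith
  refine p4_red l y hl hy (by linarith) 1 1 ?_ ?_ ?_
  · have := Real.exp_pos (-l * (y / 3) + 2 * (y / 3) ^ 2)
    linarith
  · have := Real.exp_pos (-l * (y / 3) + 2 * (y / 3) ^ 2)
    nlinarith
  have g0 : Real.exp (p4E0 l y) ≤ c0 :=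
    (Real.exp_le_exp.2 ((p4_E0 l y b hl hy hyb hb).trans e0)).trans h0
  have g1 : Real.exp (p4E1 l y) ≤ c1 :=
    (Real.exp_le_exp.2 ((p4_E1 l y b hl hy hyb hb).trans e1)).trans h1
  have gm : Real.exp (y / 20 - 4 / 3 * y ^ 2) ≤ cm := by
    refine (Real.exp_le_exp.2 ?_).trans hm
    refine le_trans ?_ em
    nlinarith
  have p0 := Real.exp_pos (p4E0 l y)
  have p1 := Real.exp_pos (p4E1 l y)
  have pm := Real.exp_pos (y / 20 - 4 / 3 * y ^ 2)
  have q0 : (5 / 9 - y / 3) * Real.exp (p4E0 l y) ≤ (5 / 9 - a / 3) * c0 :=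
    mul_le_mul (by linarith) g0 p0.le (by linarith)
  have q1 : (7 / 9 - y / 3) * Real.exp (p4E1 l y) ≤ (7 / 9 - a / 3) * c1 :=
    mul_le_mul (by linarith) g1 p1.le (by linarith)
  have qm : (1 - y / 3) * Real.exp (y / 20 - 4 / 3 * y ^ 2) ≤ (1 - a / 3) * cm :=
    mul_le_mul (by linarith) gm pm.le (by linarith)
  nlinarith [q0, q1, qm]

/-- `l e^{-l c}` is decreasing for `l ≥ 10` if `c ≥ 1/10` -/
theorem p4_lexp (l c e : ℝ) (hl : 10 ≤ l) (hc : 1 / 10 ≤ c) :
    l * Real.exp (-l * c + e) ≤ 10 * Real.exp (-10 * c + e) := by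
  have h1 : (l - 10) * c + 1 ≤ Real.exp ((l - 10) * c) := Real.add_one_le_exp _
  have h2 : l ≤ 10 * Real.exp ((l - 10) * c) := by nlinarith
  have h3 : Real.exp (-10 * c + e) = Real.exp ((l - 10) * c) * Real.exp (-l * c + e) := by
    rw [← Real.exp_add]
    congr 1
    ring
  rw [h3]
  have h4 := Real.exp_pos (-l * c + e)
  nlinarith [mul_le_mul_of_nonneg_right h2 h4.le]

/-- the interval lemma near zero -/
theorem p4_regA (l y a b c0 c1 A0 A1 : ℝ) (hl : 10 ≤ l) (ha : 0 ≤ a) (hay : a ≤ y)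
    (hyb : y ≤ b) (hb : b ≤ 1 / 5)
    (h0 : Real.exp (-A0) ≤ c0) (h1 : Real.exp (-A1) ≤ c1)
    (e0 : p4E0 10 b ≤ -A0) (e1 : p4E1 10 b ≤ -A1)
    (hs : 20 / 3 * ((5 / 9 - a / 3) * c0 + (7 / 9 - a / 3) * c1) ≤
      (17 / 60 + 4 / 3 * a) * (1 - (17 / 60 * b + 4 / 3 * b ^ 2) / 2)) :
    Aop (1 - y) (phi l ((1 - y) / 3 + 2 / 9)) (phi l ((1 - y) / 3 + 4 / 9))
      (phi l ((1 - y) / 3 + 2 / 3)) ≤ phi (l + 1 / 20) (1 - y) := by
  have hy : 0 ≤ y := by linarith
  have hw1 : 1 - l * (y / 3) ≤ Real.exp (-l * (y / 3) + 2 * (y / 3) ^ 2) := by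
    have := Real.add_one_le_exp (-l * (y / 3) + 2 * (y / 3) ^ 2)
    nlinarith [sq_nonneg (y / 3)]
  have hw2 : 1 - 2 * (l * (y / 3)) ≤ Real.exp (-l * (y / 3) + 2 * (y / 3) ^ 2) ^ 2 := by
    rw [← Real.exp_nat_mul]
    have := Real.add_one_le_exp (((2 : ℕ) : ℝ) * (-l * (y / 3) + 2 * (y / 3) ^ 2))
    push_cast at this ⊢
    nlinarith [sq_nonneg (y / 3)]
  refine p4_red l y hl hy (by linarith) (l * (y / 3)) (2 * (l * (y / 3))) (by linarith)
    (by linarith) ?_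
  have g0 : l * Real.exp (p4E0 l y) ≤ 10 * c0 := by
    have k1 := p4_lexp l (4 / 9 - 2 * y / 3) (y / 20 + (32 / 81 + 16 * y / 27 - 16 / 9 * y ^ 2))
      hl (by linarith)
    have k2 : Real.exp (p4E0 10 y) ≤ c0 :=
      (Real.exp_le_exp.2 ((p4_E0 10 y b le_rfl hy hyb (by linarith)).trans e0)).trans h0
    unfold p4E0 at k2 ⊢
    rw [add_assoc] at k2 ⊢
    linarith
  have g1 : l * Real.exp (p4E1 l y) ≤ 10 * c1 := by
    have k1 := p4_lexp l (4 / 9 - y / 3) (y / 20 + (16 / 81 + 16 * y / 27 - 14 / 9 * y ^ 2))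
      hl (by linarith)
    have k2 : Real.exp (p4E1 10 y) ≤ c1 :=
      (Real.exp_le_exp.2 ((p4_E1 10 y b le_rfl hy hyb (by linarith)).trans e1)).trans h1
    unfold p4E1 at k2 ⊢
    rw [add_assoc] at k2 ⊢
    linarith
  have p0 := Real.exp_pos (p4E0 l y)
  have p1 := Real.exp_pos (p4E1 l y)
  have q0 : (5 / 9 - y / 3) * (l * Real.exp (p4E0 l y)) ≤ (5 / 9 - a / 3) * (10 * c0) :=
    mul_le_mul (by linarith) g0 (by positivity) (by linarith)
  have q1 : (7 / 9 - y / 3) * (l * Real.exp (p4E1 l y)) ≤ (7 / 9 - a / 3) * (10 * c1) :=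
    mul_le_mul (by linarith) g1 (by positivity) (by linarith)
  -- the main term
  set q := 17 / 60 * y + 4 / 3 * y ^ 2 with hq
  have hq0 : 0 ≤ q := by positivity
  have hm1 : (1 - y / 3) ≤ Real.exp (-(y / 3)) := by
    have := Real.add_one_le_exp (-(y / 3))
    linarith
  have hm2 : (1 - y / 3) * Real.exp (y / 20 - 4 / 3 * y ^ 2) ≤ Real.exp (-q) := by
    have : Real.exp (-q) = Real.exp (-(y / 3)) * Real.exp (y / 20 - 4 / 3 * y ^ 2) := by
      rw [← Real.exp_add, hq]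
      congr 1
      ring
    rw [this]
    exact mul_le_mul_of_nonneg_right hm1 (Real.exp_pos _).le
  have hm3 : Real.exp (-q) ≤ 1 - q + q ^ 2 / 2 := by
    have h5 : 1 + q + q ^ 2 / 2 ≤ Real.exp q := Real.quadratic_le_exp_of_nonneg hq0
    rw [Real.exp_neg]
    have h6 : 0 < 1 + q + q ^ 2 / 2 := by positivity
    have h7 : (Real.exp q)⁻¹ ≤ (1 + q + q ^ 2 / 2)⁻¹ := inv_anti₀ h6 h5
    refine h7.trans ?_
    rw [inv_le_iff_one_le_mul₀ h6]
    nlinarith [sq_nonneg (q ^ 2)]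
  have hq1 : q = y * (17 / 60 + 4 / 3 * y) := by rw [hq]; ring
  have hq2 : q ≤ 17 / 60 * b + 4 / 3 * b ^ 2 := by
    rw [hq]; nlinarith
  have hb1 : 17 / 60 * b + 4 / 3 * b ^ 2 ≤ 2 := by nlinarith
  have hfin : y * (20 / 3 * ((5 / 9 - a / 3) * c0 + (7 / 9 - a / 3) * c1)) ≤ q - q ^ 2 / 2 := by
    have h8 : (17 / 60 + 4 / 3 * a) * (1 - (17 / 60 * b + 4 / 3 * b ^ 2) / 2) ≤
        (17 / 60 + 4 / 3 * y) * (1 - q / 2) :=
      mul_le_mul (by linarith) (by linarith) (by linarith) (by positivity)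
    have h9 := mul_le_mul_of_nonneg_left (hs.trans h8) hy
    have h10 : q - q ^ 2 / 2 = y * ((17 / 60 + 4 / 3 * y) * (1 - q / 2)) := by
      rw [← mul_assoc, ← hq1]; ring
    rw [h10]
    exact h9
  have hE : 2 * (l * (y / 3)) * (5 / 9 - y / 3) * Real.exp (p4E0 l y) +
      2 * (l * (y / 3)) * (7 / 9 - y / 3) * Real.exp (p4E1 l y) ≤
      y * (20 / 3 * ((5 / 9 - a / 3) * c0 + (7 / 9 - a / 3) * c1)) := by
    have h11 : 2 * (l * (y / 3)) * (5 / 9 - y / 3) * Real.exp (p4E0 l y) +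
      2 * (l * (y / 3)) * (7 / 9 - y / 3) * Real.exp (p4E1 l y) = 2 * (y / 3) *
      ((5 / 9 - y / 3) * (l * Real.exp (p4E0 l y)) + (7 / 9 - y / 3) *
        (l * Real.exp (p4E1 l y))) := by ring
    rw [h11]
    have h12 : y * (20 / 3 * ((5 / 9 - a / 3) * c0 + (7 / 9 - a / 3) * c1)) = 2 * (y / 3) *
      ((5 / 9 - a / 3) * (10 * c0) + (7 / 9 - a / 3) * (10 * c1)) := by ring
    rw [h12]
    exact mul_le_mul_of_nonneg_left (add_le_add q0 q1) (by positivity)
  linarith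

theorem sp4 : SP4 := by
  intro l x hl hx1 hx2
  obtain ⟨y, rfl⟩ : ∃ y, x = 1 - y := ⟨1 - x, by ring⟩
  have hy0 : 0 ≤ y := by linarith
  have hy1 : y ≤ 2 / 3 := by linarith
  rcases le_or_gt y (1 / 10) with h | h
  · refine p4_regA l y (0) (1 / 10) (179 / 5000) (53 / 2500) (417 / 125) (483 / 125) hl (by norm_num)
      (by linarith) h (by norm_num) (p4_exp_le (417 / 125) (179 / 5000) (by norm_num) (by norm_num))
      (p4_exp_le (483 / 125) (53 / 2500) (by norm_num) (by norm_num)) ?_ ?_ ?_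
    · unfold p4E0; norm_num
    · unfold p4E1; norm_num
    · norm_num
  rcases le_or_gt y (3 / 20) with h | h
  · refine p4_regA l y (1 / 10) (3 / 20) (63 / 1250) (253 / 10000) (374 / 125) (737 / 200) hl (by norm_num)
      (by linarith) h (by norm_num) (p4_exp_le (374 / 125) (63 / 1250) (by norm_num) (by norm_num))
      (p4_exp_le (737 / 200) (253 / 10000) (by norm_num) (by norm_num)) ?_ ?_ ?_
    · unfold p4E0; norm_num
    · unfold p4E1; norm_num
    · norm_num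
  rcases le_or_gt y (1 / 5) with h | h
  · refine p4_regA l y (3 / 20) (1 / 5) (703 / 10000) (301 / 10000) (1329 / 500) (3513 / 1000) hl (by norm_num)
      (by linarith) h (by norm_num) (p4_exp_le (1329 / 500) (703 / 10000) (by norm_num) (by norm_num))
      (p4_exp_le (3513 / 1000) (301 / 10000) (by norm_num) (by norm_num)) ?_ ?_ ?_
    · unfold p4E0; norm_num
    · unfold p4E1; norm_num
    · norm_num
  rcases le_or_gt y (13 / 50) with h | h
  · refine p4_regB l y (1 / 5) (13 / 50) (1037 / 10000) (73 / 2000) (479 / 500) (2269 / 1000) (1659 / 500)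
      (43 / 1000) hl (by norm_num) (by linarith) h (by norm_num)
      (p4_exp_le (2269 / 1000) (1037 / 10000) (by norm_num) (by norm_num))
      (p4_exp_le (1659 / 500) (73 / 2000) (by norm_num) (by norm_num))
      (p4_exp_le (43 / 1000) (479 / 500) (by norm_num) (by norm_num)) ?_ ?_ ?_ ?_
    · unfold p4E0; norm_num
    · unfold p4E1; norm_num
    · norm_num
    · norm_num
  rcases le_or_gt y (7 / 20) with h | h
  · refine p4_regB l y (13 / 50) (7 / 20) (907 / 5000) (479 / 10000) (9259 / 10000) (427 / 250) (609 / 200)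
      (77 / 1000) hl (by norm_num) (by linarith) h (by norm_num)
      (p4_exp_le (427 / 250) (907 / 5000) (by norm_num) (by norm_num))
      (p4_exp_le (609 / 200) (479 / 10000) (by norm_num) (by norm_num))
      (p4_exp_le (77 / 1000) (9259 / 10000) (by norm_num) (by norm_num)) ?_ ?_ ?_ ?_
    · unfold p4E0; norm_num
    · unfold p4E1; norm_num
    · norm_num
    · norm_num
  rcases le_or_gt y (9 / 20) with h | h
  · refine p4_regB l y (7 / 20) (9 / 20) (204 / 625) (157 / 2500) (8651 / 10000) (28 / 25) (693 / 250)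
      (29 / 200) hl (by norm_num) (by linarith) h (by norm_num)
      (p4_exp_le (28 / 25) (204 / 625) (by norm_num) (by norm_num))
      (p4_exp_le (693 / 250) (157 / 2500) (by norm_num) (by norm_num))
      (p4_exp_le (29 / 200) (8651 / 10000) (by norm_num) (by norm_num)) ?_ ?_ ?_ ?_
    · unfold p4E0; norm_num
    · unfold p4E1; norm_num
    · norm_num
    · norm_num
  rcases le_or_gt y (11 / 20) with h | h
  · refine p4_regB l y (9 / 20) (11 / 20) (5673 / 10000) (799 / 10000) (1953 / 2500) (567 / 1000) (253 / 100)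
      (247 / 1000) hl (by norm_num) (by linarith) h (by norm_num)
      (p4_exp_le (567 / 1000) (5673 / 10000) (by norm_num) (by norm_num))
      (p4_exp_le (253 / 100) (799 / 10000) (by norm_num) (by norm_num))
      (p4_exp_le (247 / 1000) (1953 / 2500) (by norm_num) (by norm_num)) ?_ ?_ ?_ ?_
    · unfold p4E0; norm_num
    · unfold p4E1; norm_num
    · norm_num
    · norm_num
  rcases le_or_gt y (63 / 100) with h | h
  · refine p4_regB l y (11 / 20) (63 / 100) (538 / 625) (237 / 2500) (6873 / 10000) (3 / 20) (2359 / 1000)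
      (3 / 8) hl (by norm_num) (by linarith) h (by norm_num)
      (p4_exp_le (3 / 20) (538 / 625) (by norm_num) (by norm_num))
      (p4_exp_le (2359 / 1000) (237 / 2500) (by norm_num) (by norm_num))
      (p4_exp_le (3 / 8) (6873 / 10000) (by norm_num) (by norm_num)) ?_ ?_ ?_ ?_
    · unfold p4E0; norm_num
    · unfold p4E1; norm_num
    · norm_num
    · norm_num
  refine p4_regB l y (63 / 100) (2 / 3) (26 / 25) (509 / 5000) (1521 / 2500) (-(17 / 500)) (2287 / 1000)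
    (497 / 1000) hl (by norm_num) (by linarith) hy1 (by norm_num) ?_
    (p4_exp_le (2287 / 1000) (509 / 5000) (by norm_num) (by norm_num))
    (p4_exp_le (497 / 1000) (1521 / 2500) (by norm_num) (by norm_num)) ?_ ?_ ?_ ?_
  · have := Real.add_one_le_exp (-(17 / 500 : ℝ))
    rw [neg_neg]
    have h2 : Real.exp (17 / 500) * Real.exp (-(17 / 500 : ℝ)) = 1 := by
      rw [← Real.exp_add]; simp
    have h3 := Real.exp_pos (17 / 500 : ℝ)
    nlinarith
  · unfold p4E0; norm_num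
  · unfold p4E1; norm_num
  · norm_num
  · norm_num

end Pool.Agent.H80.T3
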